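import Pool.Agent.H430.Os.Fac

/-!
Almost all members of the sequence are irreducible, and their roots are distributed as prescribed.
-/

set_option autoImplicit false

namespace Pool.Agent.H430.Os

open Finset NumberField IsDedekindDomain Height Module Polynomial
open Pool.Agent.W180.OP (Pl av wt fv nrm wt_nonneg le_nrm exists_nrm nrm_pos nrm_nonneg)
open Pool.Agent.NH28 (nn ab mem_ab sum_nn one_le_nn nn_ext nn_nonneg Ov ov_unique)
open Pool.Agent.H430.Cl
open Pool.Agent.H430.Ft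
open Pool.Agent.H430.Gw (ht_T proj_ht height_upper)

lemma deg_eq {q r d : ℕ} (hr : 1 ≤ r) (hd : 1 ≤ d) (hdr : d ≤ r) (m0 m1 : Fin q → ℕ)
    (hg : ∀ e, (∀ i, e ∣ m0 i ∧ e ∣ m1 i) → e = 1) (h0 : ∀ i, r ∣ d * m0 i)
    (h1 : ∀ i, r ∣ d * m1 i) : d = r := by
  have hgp : 0 < Nat.gcd r d := Nat.gcd_pos_of_pos_left _ hr
  have key : ∀ m, r ∣ d * m → r / Nat.gcd r d ∣ m := by
    intro m hm
    have hc := Nat.coprime_div_gcd_div_gcd hgp
    refine hc.dvd_of_dvd_mul_left ?_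
    have e1 : Nat.gcd r d * (r / Nat.gcd r d) = r := Nat.mul_div_cancel' (Nat.gcd_dvd_left r d)
    have e2 : Nat.gcd r d * (d / Nat.gcd r d) = d := Nat.mul_div_cancel' (Nat.gcd_dvd_right r d)
    refine Nat.dvd_of_mul_dvd_mul_left hgp ?_
    rw [e1, ← mul_assoc, e2]
    exact hm
  have h2 := hg (r / Nat.gcd r d) fun i => ⟨key _ (h0 i), key _ (h1 i)⟩
  have e1 : Nat.gcd r d * (r / Nat.gcd r d) = r := Nat.mul_div_cancel' (Nat.gcd_dvd_left r d)
  rw [h2, mul_one] at e1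
  have h3 : r ∣ d := by
    rw [← e1]
    exact Nat.gcd_dvd_right r d
  exact le_antisymm hdr (Nat.le_of_dvd hd h3)

variable {K : Type} [Field K] [NumberField K] {q : ℕ}

theorem core (a : Fin q → K) (ha : Function.Injective a) (m0 m1 : Fin q → ℕ) {r : ℕ} (hr : 1 ≤ r)
    (h0 : ∑ i, m0 i = r) (h1 : ∑ i, m1 i = r) (hdj : ∀ i, m0 i = 0 ∨ m1 i = 0)
    (hg : ∀ e, (∀ i, e ∣ m0 i ∧ e ∣ m1 i) → e = 1) :
    ∃ (S : Finset (Pl K)) (P : Pl K → Prop), (∃ v ∈ S, P v) ∧ (∃ v ∈ S, ¬P v) ∧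
      ∃ c C κ : ℝ, 0 ≤ c ∧ 0 ≤ C ∧ 0 < κ ∧ (∀ t : ℕ, ∀ v ∈ S, κ * t ≤ rh v t) ∧
      ∃ t1 : ℕ, ∀ t, t1 ≤ t → (∀ v ∈ S, 2 * r * c < rh v t) ∧
        2 * (finrank ℚ K * (t * Real.log 3)) - C ≤ ∑ v ∈ S, rh v t ∧
        ∃ (L : Type) (_ : Field L) (_ : NumberField L) (_ : Algebra K L) (x : L),
          IntermediateField.adjoin K {x} = ⊤ ∧ finrank K L = r ∧
          (∀ i, x ≠ algebraMap K L (a i)) ∧
          1 / 2 * (finrank ℚ K * (t * Real.log 3)) - C ≤ logHeight ![1, x] ∧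
          logHeight ![1, x] ≤ finrank ℚ K * (t * Real.log 3) + C ∧
          ∃ e : Pl L → Fin q, (∀ v ∈ S, ∀ w ∈ ab L v, 0 < mv P m0 m1 v (e w) ∧
            rh v t - 2 * r * c ≤ mv P m0 m1 v (e w) * prx v w (a (e w)) x) ∧
            ∀ v ∈ S, ∀ i, Nv e v i = mv P m0 m1 v i := by
  classical
  obtain ⟨S, P, κ, hκ, hS2, hS3, hfin, k2, k3, hs2, hs3⟩ := places_two_three K
  have hr0 : (0 : ℝ) < r := by exact_mod_cast hr
  set dK : ℝ := (finrank ℚ K : ℝ) with hdK
  have hdK0 : 0 < dK := by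
    rw [hdK]
    exact_mod_cast (finrank_pos : 0 < finrank ℚ K)
  have hl3 : 0 < Real.log 3 := Real.log_pos (by norm_num)
  have hl2 : 0 < Real.log 2 := Real.log_pos (by norm_num)
  set Q : ℝ := r ^ 3 * (2 * r + 2) * (dK * Real.log 3) with hQ
  have hQ0 : 0 < Q := by positivity
  obtain ⟨ε, hε, hε1, hεQ⟩ : ∃ ε : ℝ, 0 < ε ∧ ε ≤ 1 / 2 ∧ ε * Q ≤ κ / 2 := by
    refine ⟨min (1 / 2) (κ / (2 * Q)), lt_min (by norm_num) (by positivity), min_le_left _ _, ?_⟩
    calc _ ≤ κ / (2 * Q) * Q := mul_le_mul_of_nonneg_right (min_le_right _ _) hQ0.le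
      _ = κ / 2 := by field_simp
  obtain ⟨Φ, c, C2, hΦ0, hc0, hC20, hstar⟩ := star a ha m0 m1 hr h0 h1
    (fun v hv h => (k2 v hv h).1) (fun v hv h => (k3 v hv h).1) ε hε
  obtain ⟨t0, ht0⟩ := large_t ha hdj hΦ0
  obtain ⟨Cp, hCp0, hCp⟩ := Ff_height (K := K) a m0 m1 h0 h1
  obtain ⟨Cm, hCm0, hCm⟩ := height_mul K r
  obtain ⟨Ch, hCh0, hCh⟩ := pt_of_factor K r
  set C3 : ℝ := C2 + r * (dK * Real.log 2) with hC3
  have hC30 : 0 ≤ C3 := by positivity
  set C4 : ℝ := C3 + Ch + Cm with hC4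
  have hC40 : 0 ≤ C4 := by positivity
  set C6 : ℝ := Cp + Cm + r * C4 + Ch with hC6
  have hC60 : 0 ≤ C6 := by positivity
  set C8 : ℝ := (2 * r + 1) * C6 + C2 + r * (dK * Real.log 2) with hC8
  have hC80 : 0 ≤ C8 := by positivity
  have hmvs : ∀ v, ∑ i, mv P m0 m1 v i = r := by
    intro v
    unfold mv
    split_ifs
    · exact h0
    · exact h1
  -- the factors
  have hA : ∀ t, t0 ≤ t → (∀ v ∈ S, 2 * r * c < rh v t) → ∀ φ : K[X], Irreducible φ →
      φ ∣ Ff a m0 m1 t → ∃ (L : Type) (_ : Field L) (_ : NumberField L) (_ : Algebra K L) (x : L),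
      IntermediateField.adjoin K {x} = ⊤ ∧ finrank K L = φ.natDegree ∧
      (∀ i, x ≠ algebraMap K L (a i)) ∧ logHeight ![1, x] ≤ logHeight (cf r φ) + Ch ∧
      (φ.natDegree : ℝ) / r * (1 - ε) * (dK * (t * Real.log 3)) - C3 ≤ logHeight ![1, x] ∧
      ∃ e : Pl L → Fin q, (∀ v ∈ S, ∀ w ∈ ab L v, 0 < mv P m0 m1 v (e w) ∧
          rh v t - 2 * r * c ≤ mv P m0 m1 v (e w) * prx v w (a (e w)) x) ∧
        ∑ v ∈ S, rh v t * ∑ i, Nv e v i ^ 2 / mv P m0 m1 v i ≤
            (2 * (φ.natDegree : ℝ) + ε) * logHeight ![1, x] + C2 ∧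
        (∀ v ∈ S, ∃ N : Fin q → ℕ, (∀ i, Nv e v i = N i) ∧ ∑ i, N i = φ.natDegree ∧
          ∀ i, mv P m0 m1 v i = 0 → N i = 0) := by
    intro t ht hρ φ hφ hdvd
    have hFn := Ff_ne a m0 m1 h0 h1 t
    have hdφ : φ.natDegree ≤ r := by
      have := natDegree_le_of_dvd hdvd hFn
      rwa [Ff_natDegree a m0 m1 h0 h1 t] at this
    have hdφ1 : 1 ≤ φ.natDegree := hφ.natDegree_pos
    obtain ⟨L, i1, i2, i3, x, hx, hL, hroot, hhx⟩ := hCh φ hφ hdφ
    have hF0 := hroot _ hdvd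
    have halg : Algebra.IsAlgebraic K L := Algebra.IsAlgebraic.of_finite K L
    obtain ⟨hxa, e, he, hs⟩ := hstar t hρ L (by rw [hL]; exact hdφ) x hx hF0 (ht0 t ht L x hF0)
    rw [hL] at hs
    have hNat : ∀ v ∈ S, ∃ N : Fin q → ℕ, (∀ i, Nv e v i = N i) ∧ ∑ i, N i = φ.natDegree ∧
        ∀ i, mv P m0 m1 v i = 0 → N i = 0 := by
      intro v hv
      obtain ⟨v0, rfl⟩ := hfin v hv
      obtain ⟨N, hN⟩ := Nv_nat e v0
      refine ⟨N, hN, ?_, ?_⟩
      · have g1 := sum_Nv e (Sum.inr v0 : Pl K)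
        rw [hL, sum_congr rfl fun i _ => hN i] at g1
        exact_mod_cast g1
      · intro i hi
        have g1 := Nv_zero e (Sum.inr v0 : Pl K) (mv P m0 m1 (Sum.inr v0)) (fun w hw => (he _ hv w hw).1) i hi
        rw [hN] at g1
        exact_mod_cast g1
    refine ⟨L, i1, i2, i3, x, hx, hL, hxa, hhx, ?_, e, he, hs, hNat⟩
    refine real_A (c1 := dK * Real.log 2) hdφ1 hdφ hε (by positivity) (by positivity) hC20 ?_
    refine le_trans ?_ hs
    have g2 := sum_rh hs2 hs3 t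
    have g3 : (φ.natDegree : ℝ) ^ 2 / r * ∑ v ∈ S, rh v t ≤
        ∑ v ∈ S, rh v t * ∑ i, Nv e v i ^ 2 / mv P m0 m1 v i := by
      rw [mul_sum]
      refine sum_le_sum fun v hv => ?_
      obtain ⟨N, hN1, hN2, hN3⟩ := hNat v hv
      have g4 := gap_ge (mv P m0 m1 v) N r φ.natDegree hr (hmvs v) hN2 hN3
      rw [sum_congr rfl fun i _ => by rw [hN1 i]]
      rw [mul_comm]
      refine mul_le_mul_of_nonneg_left g4 ?_
      have := hρ v hv
      have : 0 ≤ 2 * r * c := by positivity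
      linarith
    refine le_trans ?_ g3
    exact mul_le_mul_of_nonneg_left g2 (by positivity)
  -- all factors
  have hB : ∀ t, t0 ≤ t → (∀ v ∈ S, 2 * r * c < rh v t) → ∀ n : ℕ, ∀ G : K[X], G.natDegree = n →
      G ∣ Ff a m0 m1 t →
      (n : ℝ) / r * (1 - ε) * (dK * (t * Real.log 3)) - n * C4 ≤ logHeight (cf r G) := by
    intro t ht hρ n
    induction n using Nat.strong_induction_on with
    | _ n ih =>
    intro G hGn hGF
    have hFn := Ff_ne a m0 m1 h0 h1 t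
    have hG0 : G ≠ 0 := fun h => hFn (by rw [h] at hGF; exact zero_dvd_iff.1 hGF)
    have hGr : G.natDegree ≤ r := by
      have := natDegree_le_of_dvd hGF hFn
      rwa [Ff_natDegree a m0 m1 h0 h1 t] at this
    rcases Nat.eq_zero_or_pos n with hn | hn
    · rw [hn]
      simp only [Nat.cast_zero, zero_div, zero_mul, sub_zero]
      exact logHeight_nonneg _
    · have hGu : ¬ IsUnit G := fun h => by
        have := natDegree_eq_zero_of_isUnit h
        omega
      obtain ⟨φ, hφ, H, hH⟩ := WfDvdMonoid.exists_irreducible_factor hGu hG0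
      have hH0 : H ≠ 0 := by
        rintro rfl
        rw [mul_zero] at hH
        exact hG0 hH
      have hdeg : φ.natDegree + H.natDegree = n := by
        rw [← natDegree_mul hφ.ne_zero hH0, ← hH, hGn]
      have hφ1 : 1 ≤ φ.natDegree := hφ.natDegree_pos
      have hφF : φ ∣ Ff a m0 m1 t := (Dvd.intro H hH.symm).trans hGF
      have hHF : H ∣ Ff a m0 m1 t := (Dvd.intro_left φ hH.symm).trans hGF
      obtain ⟨L, i1, i2, i3, x, -, -, -, g1, g2, -⟩ := hA t ht hρ φ hφ hφF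
      have g3 := ih H.natDegree (by omega) H rfl hHF
      have g4 := hCm φ H hφ.ne_zero hH0 (by omega) (by omega) (by rw [← hH]; exact hGr)
      rw [← hH] at g4
      have e1 : (n : ℝ) = φ.natDegree + H.natDegree := by rw [← hdeg]; push_cast; rfl
      have e2 : (n : ℝ) / r * (1 - ε) * (dK * (t * Real.log 3)) =
          (φ.natDegree : ℝ) / r * (1 - ε) * (dK * (t * Real.log 3)) +
            (H.natDegree : ℝ) / r * (1 - ε) * (dK * (t * Real.log 3)) := by
        rw [e1]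
        ring
      have g5 : 1 * C4 ≤ φ.natDegree * C4 :=
        mul_le_mul_of_nonneg_right (by exact_mod_cast hφ1) hC40
      rw [e2, e1]
      linarith
  -- the threshold
  obtain ⟨t2, ht2⟩ := exists_nat_gt ((2 * r * c) / κ + 2 * r ^ 3 * C8 / κ)
  have hρt : ∀ t, t2 ≤ t → ∀ v ∈ S, 2 * r * c < rh v t := by
    intro t ht v hv
    have g1 := rh_ge hκ k2 k3 t v hv
    have g2 : (t2 : ℝ) ≤ t := by exact_mod_cast ht
    have g3 : (2 * r * c) / κ < t := by
      have : 0 ≤ 2 * r ^ 3 * C8 / κ := by positivity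
      linarith
    rw [div_lt_iff₀ hκ] at g3
    linarith
  refine ⟨S, P, hS2, hS3, c, max (dK * Real.log 2) (max C3 (Cp + Cm + Ch)), κ, hc0,
    le_trans (by positivity) (le_max_left _ _), hκ, fun t v hv => rh_ge hκ k2 k3 t v hv,
    max t0 t2, fun t ht => ?_⟩
  have hta : t0 ≤ t := (le_max_left _ _).trans ht
  have htb : t2 ≤ t := (le_max_right _ _).trans ht
  have hρ := hρt t htb
  have hFn := Ff_ne a m0 m1 h0 h1 t
  have hFd := Ff_natDegree a m0 m1 h0 h1 t
  set H : ℝ := dK * (t * Real.log 3) with hH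
  have hH0 : 0 ≤ H := by positivity
  refine ⟨hρ, ?_, ?_⟩
  · have g1 := sum_rh hs2 hs3 t
    have g2 := le_max_left (dK * Real.log 2) (max C3 (Cp + Cm + Ch))
    linarith
  have hFu : ¬ IsUnit (Ff a m0 m1 t) := fun h => by
    have := natDegree_eq_zero_of_isUnit h
    omega
  obtain ⟨φ, hφ, G, hG⟩ := WfDvdMonoid.exists_irreducible_factor hFu hFn
  have hφF : φ ∣ Ff a m0 m1 t := Dvd.intro G hG.symm
  have hG0 : G ≠ 0 := by
    rintro rfl
    rw [mul_zero] at hG
    exact hFn hG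
  have hdeg : φ.natDegree + G.natDegree = r := by
    rw [← natDegree_mul hφ.ne_zero hG0, ← hG, hFd]
  have hφ1 : 1 ≤ φ.natDegree := hφ.natDegree_pos
  obtain ⟨L, i1, i2, i3, x, hx, hL, hxa, hhx, hlow, e, he, hs, hNat⟩ := hA t hta hρ φ hφ hφF
  have g1 := hB t hta hρ G.natDegree G rfl (Dvd.intro_left φ hG.symm)
  have g2 := hCm φ G hφ.ne_zero hG0 (by omega) (by omega) (by rw [← hG, hFd])
  rw [← hG] at g2
  have g3 := hCp t
  have hup : logHeight ![1, x] ≤ H + (Cp + Cm + Ch) := by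
    have := logHeight_nonneg (cf r G)
    linarith
  have hup2 : logHeight ![1, x] ≤ ((φ.natDegree : ℝ) / r + ε) * H + C6 := by
    have e1 : (G.natDegree : ℝ) = r - φ.natDegree := by
      rw [← hdeg]
      push_cast
      ring
    have e2 : (G.natDegree : ℝ) / r * (1 - ε) * H =
        H - (φ.natDegree : ℝ) / r * H - ε * (G.natDegree / r * H) := by
      have e3 : (G.natDegree : ℝ) / r = 1 - φ.natDegree / r := by
        rw [e1]
        field_simp
      rw [e3]
      ring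
    have g4 : (G.natDegree : ℝ) / r ≤ 1 := by
      rw [div_le_one hr0]
      have : G.natDegree ≤ r := by omega
      exact_mod_cast this
    have g5 : ε * (G.natDegree / r * H) ≤ ε * (1 * H) :=
      mul_le_mul_of_nonneg_left (mul_le_mul_of_nonneg_right g4 hH0) hε.le
    have g6 : (G.natDegree : ℝ) * C4 ≤ r * C4 := by
      refine mul_le_mul_of_nonneg_right ?_ hC40
      have : G.natDegree ≤ r := by omega
      exact_mod_cast this
    rw [e2] at g1
    rw [hC6]
    linarith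
  -- the distribution
  have hdis : ∀ v ∈ S, ∀ N : Fin q → ℕ, (∀ i, Nv e v i = N i) → ∀ i,
      r * N i = φ.natDegree * mv P m0 m1 v i := by
    intro v1 hv1 N1 hN1 i
    by_contra hne
    obtain ⟨N1', hN1a, hN1b, hN1c⟩ := hNat v1 hv1
    have hNN : N1' = N1 := by
      funext i
      have : (N1' i : ℝ) = N1 i := by rw [← hN1a, hN1]
      exact_mod_cast this
    subst hNN
    have q1 := gap_lt (mv P m0 m1 v1) N1' r φ.natDegree hr (hmvs v1) hN1b hN1c hne
    have q2 : (φ.natDegree : ℝ) ^ 2 / r * (∑ v ∈ S, rh v t) + rh v1 t / r ^ 3 ≤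
        ∑ v ∈ S, rh v t * ∑ i, Nv e v i ^ 2 / mv P m0 m1 v i := by
      have q3 : ∑ v ∈ S, ((φ.natDegree : ℝ) ^ 2 / r * rh v t +
          if v = v1 then rh v1 t / r ^ 3 else 0) =
          (φ.natDegree : ℝ) ^ 2 / r * (∑ v ∈ S, rh v t) + rh v1 t / r ^ 3 := by
        rw [sum_add_distrib, ← mul_sum, sum_ite_eq' S v1, if_pos hv1]
      rw [← q3]
      refine sum_le_sum fun v hv => ?_
      have hrv : 0 ≤ rh v t := by
        have := hρ v hv
        have : 0 ≤ 2 * r * c := by positivity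
        linarith
      obtain ⟨N, hNa, hNb, hNc⟩ := hNat v hv
      by_cases hvv : v = v1
      · rw [if_pos hvv]
        subst hvv
        rw [sum_congr rfl fun i _ => by rw [hN1a i]]
        have := mul_le_mul_of_nonneg_left q1 hrv
        calc _ = rh v t * ((φ.natDegree : ℝ) ^ 2 / r + 1 / r ^ 3) := by ring
          _ ≤ _ := this
      · rw [if_neg hvv, add_zero, sum_congr rfl fun i _ => by rw [hNa i], mul_comm]
        exact mul_le_mul_of_nonneg_left
          (gap_ge (mv P m0 m1 v) N r φ.natDegree hr (hmvs v) hNb hNc) hrv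
    have q4 : (φ.natDegree : ℝ) ^ 2 / r * (2 * H - dK * Real.log 2) + rh v1 t / r ^ 3 ≤
        (2 * φ.natDegree + ε) * logHeight ![1, x] + C2 := by
      have q5 := mul_le_mul_of_nonneg_left (sum_rh hs2 hs3 t)
        (by positivity : (0 : ℝ) ≤ (φ.natDegree : ℝ) ^ 2 / r)
      linarith
    have q6 := real_D hφ1 (by omega) hε (by linarith) hH0 (by positivity) hC60 q4 hup2
    have q7 := rh_ge hκ k2 k3 t v1 hv1
    have hr3 : (0 : ℝ) < r ^ 3 := by positivity
    have q8 : κ * t / r ^ 3 ≤ ε * (2 * r + 2) * H + C8 :=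
      le_trans (by gcongr) q6
    rw [div_le_iff₀ hr3] at q8
    have q9 : (ε * (2 * r + 2) * H) * r ^ 3 = ε * Q * t := by
      rw [hQ, hH]
      ring
    have q10 : ε * Q * t ≤ κ / 2 * t := mul_le_mul_of_nonneg_right hεQ (Nat.cast_nonneg _)
    have q11 : 2 * r ^ 3 * C8 / κ < t := by
      have g2 : (t2 : ℝ) ≤ t := by exact_mod_cast htb
      have : 0 ≤ (2 * r * c) / κ := by positivity
      linarith
    rw [div_lt_iff₀ hκ] at q11
    rw [add_mul, q9] at q8
    linarith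
  have hdr : φ.natDegree = r := by
    refine deg_eq hr hφ1 (by omega) m0 m1 hg ?_ ?_
    · intro i
      obtain ⟨v, hv, hPv⟩ := hS2
      obtain ⟨N, hNa, -, -⟩ := hNat v hv
      have q1 := hdis v hv N hNa i
      unfold mv at q1
      rw [if_pos hPv] at q1
      exact Dvd.intro _ q1
    · intro i
      obtain ⟨v, hv, hPv⟩ := hS3
      obtain ⟨N, hNa, -, -⟩ := hNat v hv
      have q1 := hdis v hv N hNa i
      unfold mv at q1
      rw [if_neg hPv] at q1
      exact Dvd.intro _ q1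
  refine ⟨L, i1, i2, i3, x, hx, by rw [hL, hdr], hxa, ?_, ?_, e, he, ?_⟩
  · rw [hdr, div_self hr0.ne', one_mul] at hlow
    have q1 : 1 / 2 * H ≤ (1 - ε) * H := mul_le_mul_of_nonneg_right (by linarith) hH0
    have q2 : C3 ≤ max (dK * Real.log 2) (max C3 (Cp + Cm + Ch)) :=
      (le_max_left _ _).trans (le_max_right _ _)
    linarith
  · have q2 : Cp + Cm + Ch ≤ max (dK * Real.log 2) (max C3 (Cp + Cm + Ch)) :=
      (le_max_right _ _).trans (le_max_right _ _)
    linarith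
  · intro v hv i
    obtain ⟨N, hNa, -, -⟩ := hNat v hv
    have q1 := hdis v hv N hNa i
    rw [hdr] at q1
    rw [hNa i, Nat.eq_of_mul_eq_mul_left hr q1]

end Pool.Agent.H430.Os
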