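import Pool.Agent.H430.Ft.Shp2
import Pool.Agent.H430.Cl.Main

/-!
The roots of the members of a pencil near the members which split over the targets.
-/

set_option autoImplicit false

namespace Pool.Agent.H430.Os

open Finset NumberField IsDedekindDomain Height Module Polynomial
open Pool.Agent.W180.OP (Pl av wt fv nrm wt_nonneg le_nrm exists_nrm nrm_pos nrm_nonneg)
open Pool.Agent.NH28 (nn ab mem_ab sum_nn one_le_nn nn_ext nn_nonneg Ov)
open Pool.Agent.H430.Cl

variable {K L : Type} [Field K] [NumberField K] [Field L] [NumberField L] [Algebra K L] {q : ℕ}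

lemma log_gp (w : Pl L) (a : Fin q → K) (m : Fin q → ℕ) (x : L)
    (hx : ∀ i, x ≠ algebraMap K L (a i)) :
    Real.log (av w (aeval x (gp a m))) =
      ∑ i, (m i : ℝ) * Real.log (av w (x - algebraMap K L (a i))) := by
  rw [gp_aeval, map_prod, Real.log_prod]
  · refine sum_congr rfl fun i _ => ?_
    rw [map_pow, Real.log_pow]
  · intro i _
    rw [map_pow]
    exact pow_ne_zero _ ((av w).ne_zero_iff.2 (sub_ne_zero.2 (hx i)))

lemma gp_ne (a : Fin q → K) (m : Fin q → ℕ) (x : L)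
    (hx : ∀ i, x ≠ algebraMap K L (a i)) : aeval x (gp a m) ≠ 0 := by
  rw [gp_aeval]
  exact prod_ne_zero_iff.2 fun i _ => pow_ne_zero _ (sub_ne_zero.2 (hx i))

/-- the relation between the proximities -/
lemma prx_rel {v : Pl K} {w : Pl L} (hw : w ∈ ab L v) (a : Fin q → K) (m0 m1 : Fin q → ℕ) {r : ℕ}
    (h0 : ∑ i, m0 i = r) (h1 : ∑ i, m1 i = r) {x : L} (hx : ∀ i, x ≠ algebraMap K L (a i))
    {α β : K} (hα : α ≠ 0) (hβ : β ≠ 0)
    (h : algebraMap K L α * aeval x (gp a m0) + algebraMap K L β * aeval x (gp a m1) = 0) :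
    ∑ i, (m0 i : ℝ) * prx v w (a i) x = ∑ i, (m1 i : ℝ) * prx v w (a i) x +
      wt v * (Real.log (av v α) - Real.log (av v β)) := by
  have hov := mem_ab.1 hw
  have hnn := one_le_nn hov
  have hnn0 : nn v w ≠ 0 := by linarith
  have e1 : av w (algebraMap K L α * aeval x (gp a m0)) =
      av w (algebraMap K L β * aeval x (gp a m1)) := by
    rw [eq_neg_of_add_eq_zero_left h, AbsoluteValue.map_neg]
  have hα' : av w (algebraMap K L α) ≠ 0 := (av w).ne_zero_iff.2 ((_root_.map_ne_zero _).2 hα)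
  have hβ' : av w (algebraMap K L β) ≠ 0 := (av w).ne_zero_iff.2 ((_root_.map_ne_zero _).2 hβ)
  have e2 := congrArg Real.log e1
  rw [map_mul, map_mul, Real.log_mul hα' ((av w).ne_zero_iff.2 (gp_ne a m0 x hx)),
    Real.log_mul hβ' ((av w).ne_zero_iff.2 (gp_ne a m1 x hx)), log_gp w a m0 x hx,
    log_gp w a m1 x hx] at e2
  have e3 := nn_ext hov α
  have e4 := nn_ext hov β
  have e5 : ∀ m : Fin q → ℕ, ∑ i, m i = r → nn v w * ∑ i, (m i : ℝ) * prx v w (a i) x =
      wt w * (r * Real.log (max 1 (av w x)) -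
        ∑ i, (m i : ℝ) * Real.log (av w (x - algebraMap K L (a i)))) := by
    intro m hm
    have h9 : (r : ℝ) = ∑ i, (m i : ℝ) := by rw [← hm]; push_cast; rfl
    rw [h9, sum_mul, ← sum_sub_distrib, mul_sum, mul_sum]
    refine sum_congr rfl fun i _ => ?_
    unfold prx
    field_simp
  have e6 := e5 m0 h0
  have e7 := e5 m1 h1
  have e8 : nn v w * ∑ i, (m0 i : ℝ) * prx v w (a i) x = nn v w *
      (∑ i, (m1 i : ℝ) * prx v w (a i) x + wt v * (Real.log (av v α) - Real.log (av v β))) := by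
    rw [mul_add, e6, e7]
    have e9 : nn v w * (wt v * (Real.log (av v α) - Real.log (av v β))) =
        wt w * Real.log (av w (algebraMap K L α)) - wt w * Real.log (av w (algebraMap K L β)) := by
      rw [e3, e4]
      ring
    rw [e9]
    linear_combination (wt w) * (-e2)
  exact mul_left_cancel₀ hnn0 e8

/-- a root is near one target -/
lemma near {v : Pl K} {w : Pl L} (hw : w ∈ ab L v) (a : Fin q → K) (m0 m1 : Fin q → ℕ) {r : ℕ}
    (h0 : ∑ i, m0 i = r) (h1 : ∑ i, m1 i = r)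
    {x : L} (hx : ∀ i, x ≠ algebraMap K L (a i)) {c : ℝ} (hc : 0 ≤ c)
    (hlow : ∀ i, -c ≤ prx v w (a i) x)
    (hmin : ∀ i j, i ≠ j → min (prx v w (a i) x) (prx v w (a j) x) ≤ c)
    {α β : K} (hα : α ≠ 0) (hβ : β ≠ 0)
    (h : algebraMap K L α * aeval x (gp a m0) + algebraMap K L β * aeval x (gp a m1) = 0)
    (hρ : 2 * r * c < wt v * (Real.log (av v α) - Real.log (av v β))) :
    ∃ i, 0 < m0 i ∧
      wt v * (Real.log (av v α) - Real.log (av v β)) - 2 * r * c ≤ m0 i * prx v w (a i) x := by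
  have hrel := prx_rel hw a m0 m1 h0 h1 hx hα hβ h
  set ρ := wt v * (Real.log (av v α) - Real.log (av v β)) with hρd
  have h0' : ∑ i, (m0 i : ℝ) = r := by rw [← h0]; push_cast; rfl
  have h1' : ∑ i, (m1 i : ℝ) = r := by rw [← h1]; push_cast; rfl
  have hm1 : -(r * c) ≤ ∑ i, (m1 i : ℝ) * prx v w (a i) x := by
    rw [← h1', ← neg_mul, ← sum_neg_distrib, sum_mul]
    refine sum_le_sum fun i _ => ?_
    have := mul_le_mul_of_nonneg_left (hlow i) (Nat.cast_nonneg (α := ℝ) (m1 i))
    linarith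
  obtain ⟨i, hi, hic⟩ : ∃ i, 0 < m0 i ∧ c < prx v w (a i) x := by
    by_contra hcon
    push Not at hcon
    have h2 : ∑ i, (m0 i : ℝ) * prx v w (a i) x ≤ r * c := by
      rw [← h0', sum_mul]
      refine sum_le_sum fun i _ => ?_
      rcases Nat.eq_zero_or_pos (m0 i) with h | h
      · rw [h]
        simp
      · exact mul_le_mul_of_nonneg_left (hcon i h) (Nat.cast_nonneg _)
    linarith
  refine ⟨i, hi, ?_⟩
  have hoth : ∀ j, j ≠ i → prx v w (a j) x ≤ c := by
    intro j hj
    have h2 := hmin i j (Ne.symm hj)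
    rcases min_le_iff.1 h2 with h3 | h3
    · linarith
    · exact h3
  have h2 : ∑ j, (m0 j : ℝ) * prx v w (a j) x ≤ m0 i * prx v w (a i) x + r * c := by
    classical
    rw [← add_sum_erase univ _ (mem_univ i)]
    refine add_le_add le_rfl ?_
    refine (sum_le_sum fun j hj => mul_le_mul_of_nonneg_left (hoth j (ne_of_mem_erase hj))
      (Nat.cast_nonneg (m0 j))).trans ?_
    rw [← sum_mul]
    refine mul_le_mul_of_nonneg_right ?_ hc
    rw [← h0']
    exact sum_le_sum_of_subset_of_nonneg (erase_subset _ _) fun _ _ _ => Nat.cast_nonneg _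
  linarith

end Pool.Agent.H430.Os
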