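import Pool.Agent.H430.Os.Mean
import Pool.Agent.H430.Os.Near

/-!
The cost of the transport for a point of the line whose conjugates are near the targets.
-/

set_option autoImplicit false

namespace Pool.Agent.H430.Os

open Finset NumberField IsDedekindDomain Height Module
open Pool.Agent.W180.OP (Pl av wt fv nrm wt_nonneg le_nrm exists_nrm nrm_pos nrm_nonneg lam lam_eq bc eval_bc)
open Pool.Agent.NH28 (nn ab mem_ab sum_nn one_le_nn nn_ext nn_nonneg Ov)
open Pool.Agent.H430.Cl (prx)
open Pool.Agent.H430.Ot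

variable {K L : Type} [Field K] [NumberField K] [Field L] [NumberField L] [Algebra K L] {q : ℕ}

/-- the linear forms `X 0 - a e * X 1` and `X 1` -/
noncomputable def Yl (a : Fin q → K) (e : Fin q) : Fin 2 → MvPolynomial (Fin 2) K :=
  ![MvPolynomial.X 0 - MvPolynomial.C (a e) * MvPolynomial.X 1, MvPolynomial.X 1]

lemma nrm_pt (f : AbsoluteValue L ℝ) (x : L) : nrm f ![x, 1] = max 1 (f x) := by
  apply le_antisymm
  · obtain ⟨j, hj⟩ := exists_nrm f two_pos ![x, 1]
    rw [← hj]
    fin_cases j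
    · exact le_max_right _ _
    · show f 1 ≤ _
      rw [map_one]
      exact le_max_left _ _
  · refine max_le ?_ ?_
    · have := le_nrm f ![x, 1] 1
      have e : f ((![x, 1] : Fin 2 → L) 1) = 1 := by
        show f 1 = 1
        exact map_one _
      rwa [e] at this
    · exact le_nrm f ![x, 1] 0

lemma aeval_Yl (a : Fin q → K) (e : Fin q) (x : L) :
    MvPolynomial.aeval ![x, 1] (Yl a e 0) = x - algebraMap K L (a e) := by
  show MvPolynomial.aeval ![x, 1] (MvPolynomial.X 0 - MvPolynomial.C (a e) * MvPolynomial.X 1) = _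
  rw [_root_.map_sub, _root_.map_mul, MvPolynomial.aeval_X, MvPolynomial.aeval_X,
    MvPolynomial.aeval_C]
  simp

lemma prx_le_pxy (v : Pl K) (w : Pl L) (a : Fin q → K) (e : Fin q) (x : L)
    (hx : x ≠ algebraMap K L (a e)) : prx v w (a e) x ≤ pxy v w 1 (Yl a e 0) ![x, 1] := by
  have hne : (![x, 1] : Fin 2 → L) ≠ 0 := by
    intro h
    exact one_ne_zero (congrFun h 1)
  unfold pxy
  refine le_trans (le_of_eq ?_) (le_max_right _ _)
  rw [lam_eq (av w) 1 (bc L (Yl a e 0)) hne (by
    rw [eval_bc, aeval_Yl]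
    exact sub_ne_zero.2 hx), eval_bc, aeval_Yl, nrm_pt]
  unfold prx
  push_cast
  rw [one_mul]

/-- the cost -/
lemma cost_one {v : Pl K} (a : Fin q → K) (m : Fin q → ℕ) {r : ℕ} (hr : 1 ≤ r) (hm : ∑ i, m i = r)
    (hL : finrank K L = r) {x : L} (hx : ∀ i, x ≠ algebraMap K L (a i)) {τ : ℝ} (hτ : 0 < τ)
    (e : Pl L → Fin q) (he : ∀ w ∈ ab L v, 0 < m (e w) ∧ τ ≤ m (e w) * prx v w (a (e w)) x)
    (b : Pl L → ℝ) (hb : ∀ w ∈ ab L v, b w = τ / r) :
    τ / 2 ≤ ∑ w ∈ ab L v, nn v w * b w - finrank K L * ∑ e', mean 1 fun u =>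
      pm (clu (ab L v) e e') fun w => b w - ∑ k, u k * pxy v w 1 (Yl a (e w) k) ![x, 1] := by
  have hr0 : (0 : ℝ) < r := by exact_mod_cast hr
  have h1 : ∑ w ∈ ab L v, nn v w * b w = τ := by
    rw [sum_congr rfl fun w hw => by rw [hb w hw], ← sum_mul, sum_nn, hL]
    field_simp
  have hmr : ∀ i, (m i : ℝ) ≤ r := by
    intro i
    have := single_le_sum (f := m) (fun i _ => Nat.zero_le _) (mem_univ i)
    rw [hm] at this
    exact_mod_cast this
  have h2 : ∀ e', (mean 1 fun u => pm (clu (ab L v) e e') fun w =>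
      b w - ∑ k, u k * pxy v w 1 (Yl a (e w) k) ![x, 1]) ≤ τ / (2 * r ^ 2) * m e' := by
    intro e'
    rcases Nat.eq_zero_or_pos (m e') with h0 | h0
    · have h3 := mean_tent (fun u => pm (clu (ab L v) e e') fun w =>
        b w - ∑ k, u k * pxy v w 1 (Yl a (e w) k) ![x, 1]) (cost_cont _ _ _) 0 1 le_rfl one_pos
        zero_le_one (fun u _ _ => pm_le (le_max_left _ _) fun w hw => by
          obtain ⟨h4, h5⟩ := mem_clu.1 hw
          have h6 := (he w h4).1
          rw [h5, h0] at h6
          exact absurd h6 (lt_irrefl _))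
      refine h3.trans ?_
      rw [h0]
      simp
    · have hm0 : (0 : ℝ) < m e' := by exact_mod_cast h0
      have h3 := mean_tent (fun u => pm (clu (ab L v) e e') fun w =>
        b w - ∑ k, u k * pxy v w 1 (Yl a (e w) k) ![x, 1]) (cost_cont _ _ _) (τ / r) (τ / m e')
        (by positivity) (by positivity)
        (div_le_div_of_nonneg_left hτ.le hm0 (hmr e')) (fun u hu0 hu1 =>
          pm_le (le_max_left _ _) fun w hw => by
          obtain ⟨h4, h5⟩ := mem_clu.1 hw
          have h6 := (he w h4).2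
          rw [h5] at h6
          refine le_trans ?_ (le_max_right _ _)
          rw [hb w h4, Fin.sum_univ_two, h5]
          have h7 : τ / m e' ≤ pxy v w 1 (Yl a e' 0) ![x, 1] := by
            refine le_trans ?_ (prx_le_pxy v w a e' x (hx e'))
            rw [div_le_iff₀ hm0]
            linarith
          have h8 : 0 ≤ pxy v w 1 (Yl a e' 1) ![x, 1] := le_max_left _ _
          have h9 := mul_le_mul_of_nonneg_left h7 hu0
          have h10 := mul_nonneg hu1 h8
          linarith)
      refine h3.trans (le_of_eq ?_)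
      field_simp
  have h3 : ∑ e', (mean 1 fun u => pm (clu (ab L v) e e') fun w =>
      b w - ∑ k, u k * pxy v w 1 (Yl a (e w) k) ![x, 1]) ≤ τ / (2 * r ^ 2) * r := by
    refine (sum_le_sum fun e' _ => h2 e').trans (le_of_eq ?_)
    rw [← mul_sum]
    congr 1
    rw [← hm]
    push_cast
    rfl
  have h4 := mul_le_mul_of_nonneg_left h3 hr0.le
  have h5 : (r : ℝ) * (τ / (2 * r ^ 2) * r) = τ / 2 := by field_simp
  rw [h1, hL]
  linarith

end Pool.Agent.H430.Os
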