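import Pool.Agent.H430.Os.Loc

/-!
The cost near a vertex.
-/

set_option autoImplicit false

namespace Pool.Agent.H430.Os

open MvPolynomial Finset NumberField IsDedekindDomain Height Module
open Pool.Agent.W180.OP (Pl)
open Pool.Agent.NH28 (nn ab sum_nn)
open Pool.Agent.H430.Ot

variable {K L : Type} [Field K] [NumberField K] [Field L] [NumberField L] [Algebra K L]

/-- the cost near a vertex -/
theorem cost_gen {v : Pl K} {n q ν D δ : ℕ} (hδ : 1 ≤ δ) (f : Fin q → MvPolynomial (Fin n) K)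
    (cl : Fin q → Fin (ν + 1)) (m : Fin q → ℕ)
    (hm : ∀ k, ∑ c ∈ univ.filter (fun c => cl c = k), m c = δ) (j : Fin (ν + 1)) (c0 : Fin q)
    {x : Fin n → L} {τ : ℝ} (hτ : 0 < τ) (e : Pl L → Fin (ν + 1) ↪ Fin q)
    (he0 : ∀ w ∈ ab L v, e w 0 = c0)
    (he : ∀ w ∈ ab L v, ∀ i : Fin ν, cl (e w i.succ) = Equiv.swap 0 j i.succ ∧
      0 < m (e w i.succ) ∧ τ ≤ m (e w i.succ) * pxy v w D (f (e w i.succ)) x)
    (b : Pl L → ℝ) (hb : ∀ w ∈ ab L v, b w = τ / δ) :
    finrank K L * (τ * ν / (δ * (ν + 1))) ≤ ∑ w ∈ ab L v, nn v w * b w -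
      finrank K L * ∑ e', mean ν fun u => pm (clu (ab L v) e e') fun w =>
        b w - ∑ k, u k * pxy v w D (f (e w k)) x := by
  classical
  have hδ0 : (0 : ℝ) < δ := by exact_mod_cast hδ
  have hν0 : (0 : ℝ) < ν + 1 := by positivity
  have h1 : ∑ w ∈ ab L v, nn v w * b w = finrank K L * (τ / δ) := by
    rw [sum_congr rfl fun w hw => by rw [hb w hw], ← sum_mul, sum_nn]
  set κ : ℝ := (1 / δ : ℝ) ^ (ν + 1) / (ν + 1) with hκ
  have hκ0 : 0 ≤ κ := by positivity
  set good : (Fin (ν + 1) ↪ Fin q) → Prop := fun e' => e' 0 = c0 ∧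
    ∀ i : Fin ν, cl (e' i.succ) = Equiv.swap 0 j i.succ ∧ 0 < m (e' i.succ) with hgood
  have h2 : ∀ e', (mean ν fun u => pm (clu (ab L v) e e') fun w =>
      b w - ∑ k, u k * pxy v w D (f (e w k)) x) ≤
        if good e' then τ * (∏ i : Fin ν, (m (e' i.succ) : ℝ)) * κ else 0 := by
    intro e'
    by_cases hg : good e'
    · rw [if_pos hg]
      refine mean_simplex _ (cost_cont _ _ _) (fun i : Fin ν => (m (e' i.succ) : ℝ))
        (fun i => by exact_mod_cast (hg.2 i).2) hτ.le (by positivity) fun u hu => ?_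
      refine pm_le (le_max_left _ _) fun w hw => ?_
      obtain ⟨h4, h5⟩ := mem_clu.1 hw
      refine le_trans ?_ (le_max_right _ _)
      rw [hb w h4, h5, Fin.sum_univ_succ, mul_sub, mul_sum]
      have h6 : 0 ≤ u 0 * pxy v w D (f (e' 0)) x := mul_nonneg (hu 0) (le_max_left _ _)
      have h7 : ∑ i : Fin ν, τ * (u i.succ / (m (e' i.succ) : ℝ)) ≤
          ∑ i : Fin ν, u i.succ * pxy v w D (f (e' i.succ)) x := by
        refine sum_le_sum fun i _ => ?_
        have h8 := (he w h4 i).2.2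
        rw [h5] at h8
        have h9 : (0 : ℝ) < m (e' i.succ) := by exact_mod_cast (hg.2 i).2
        have h10 : τ / m (e' i.succ) ≤ pxy v w D (f (e' i.succ)) x := by
          rw [div_le_iff₀ h9]
          linarith
        calc τ * (u i.succ / (m (e' i.succ) : ℝ)) = u i.succ * (τ / m (e' i.succ)) := by ring
          _ ≤ _ := mul_le_mul_of_nonneg_left h10 (hu _)
      have h11 : τ * (1 / (δ : ℝ)) = τ / δ := by ring
      rw [h11]
      linarith
    · rw [if_neg hg]
      have h3 := mean_simplex (fun u => pm (clu (ab L v) e e') fun w =>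
        b w - ∑ k, u k * pxy v w D (f (e w k)) x) (cost_cont _ _ _) (fun _ : Fin ν => (1 : ℝ))
        (fun _ => one_pos) (le_refl (0 : ℝ)) (le_refl (0 : ℝ)) (fun u hu => by
          refine pm_le (le_max_left _ _) fun w hw => ?_
          obtain ⟨h4, h5⟩ := mem_clu.1 hw
          exfalso
          apply hg
          rw [← h5]
          exact ⟨he0 w h4, fun i => ⟨(he w h4 i).1, (he w h4 i).2.1⟩⟩)
      refine h3.trans ?_
      rw [zero_mul, zero_mul]
  -- the number of the systems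
  have h3 : ∑ e' ∈ univ.filter good, ∏ i : Fin ν, (m (e' i.succ) : ℝ) ≤ (δ : ℝ) ^ ν := by
    have h4 : (δ : ℝ) ^ ν = ∏ i : Fin ν, ∑ c ∈ univ.filter (fun c =>
        cl c = Equiv.swap 0 j i.succ), (m c : ℝ) := by
      have h5 : ∀ i : Fin ν, ∑ c ∈ univ.filter (fun c => cl c = Equiv.swap 0 j i.succ),
          (m c : ℝ) = δ := by
        intro i
        rw [← hm (Equiv.swap 0 j i.succ)]
        push_cast
        rfl
      rw [prod_congr rfl fun i _ => h5 i, prod_const, card_univ, Fintype.card_fin]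
    rw [h4, prod_univ_sum]
    have hinj : Set.InjOn (fun (e' : Fin (ν + 1) ↪ Fin q) (i : Fin ν) => e' i.succ)
        (univ.filter good) := by
      intro e1 h1 e2 h2 h12
      have g1 := (mem_filter.1 h1).2
      have g2 := (mem_filter.1 h2).2
      ext k
      refine Fin.cases ?_ (fun i => ?_) k
      · rw [g1.1, g2.1]
      · exact congrArg Fin.val (congrFun h12 i)
    have h5 := sum_image (f := fun p : Fin ν → Fin q => ∏ i, (m (p i) : ℝ)) hinj
    rw [← h5]
    refine sum_le_sum_of_subset_of_nonneg ?_ fun _ _ _ => prod_nonneg fun _ _ => Nat.cast_nonneg _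
    intro p hp
    obtain ⟨e', he', rfl⟩ := mem_image.1 hp
    rw [Fintype.mem_piFinset]
    intro i
    exact mem_filter.2 ⟨mem_univ _, ((mem_filter.1 he').2.2 i).1⟩
  have h4 : ∑ e', (mean ν fun u => pm (clu (ab L v) e e') fun w =>
      b w - ∑ k, u k * pxy v w D (f (e w k)) x) ≤ τ * κ * (δ : ℝ) ^ ν := by
    refine (sum_le_sum fun e' _ => h2 e').trans ?_
    rw [← sum_filter]
    have h5 : ∑ e' ∈ univ.filter good, τ * (∏ i : Fin ν, (m (e' i.succ) : ℝ)) * κ =
        τ * κ * ∑ e' ∈ univ.filter good, ∏ i : Fin ν, (m (e' i.succ) : ℝ) := by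
      rw [mul_sum]
      exact sum_congr rfl fun e' _ => by ring
    rw [h5]
    exact mul_le_mul_of_nonneg_left h3 (by positivity)
  have h5 : τ * κ * (δ : ℝ) ^ ν = τ / δ - τ * ν / (δ * (ν + 1)) := by
    rw [hκ, one_div, inv_pow, pow_succ]
    field_simp
    ring
  rw [h1]
  rw [h5] at h4
  have h6 := mul_le_mul_of_nonneg_left h4 (Nat.cast_nonneg (α := ℝ) (finrank K L))
  rw [mul_sub] at h6
  linarith

end Pool.Agent.H430.Os
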