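import Pool.Agent.H430.Os.Star

/-!
The irreducible factors of the members of the sequence.
-/

set_option autoImplicit false

namespace Pool.Agent.H430.Os

open Finset NumberField IsDedekindDomain Height Module Polynomial
open Pool.Agent.W180.OP (Pl av wt fv nrm wt_nonneg le_nrm exists_nrm nrm_pos nrm_nonneg)
open Pool.Agent.NH28 (nn ab mem_ab sum_nn one_le_nn nn_ext nn_nonneg Ov ov_unique)
open Pool.Agent.H430.Cl
open Pool.Agent.H430.Ft
open Pool.Agent.H430.Gw (ht_T proj_ht height_upper)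

lemma real_A {d r : ℕ} {H h ε c1 C2 : ℝ} (hd : 1 ≤ d) (hdr : d ≤ r) (hε : 0 < ε)
    (hH : 0 ≤ H) (hc1 : 0 ≤ c1) (hC2 : 0 ≤ C2)
    (h1 : (d : ℝ) ^ 2 / r * (2 * H - c1) ≤ (2 * d + ε) * h + C2) :
    (d : ℝ) / r * (1 - ε) * H - (C2 + r * c1) ≤ h := by
  by_contra hcon
  push Not at hcon
  have hD : (1 : ℝ) ≤ d := by exact_mod_cast hd
  have hDR : (d : ℝ) ≤ r := by exact_mod_cast hdr
  have hR : (0 : ℝ) < r := by linarith
  have hp : 0 < 2 * (d : ℝ) + ε := by linarith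
  have h2 := mul_lt_mul_of_pos_left hcon hp
  set X : ℝ := (d : ℝ) / r * H with hX
  have hX0 : 0 ≤ X := by positivity
  have e1 : (d : ℝ) ^ 2 / r * (2 * H - c1) = 2 * d * X - (d : ℝ) ^ 2 / r * c1 := by
    rw [hX]
    ring
  have e2 : (2 * (d : ℝ) + ε) * ((d : ℝ) / r * (1 - ε) * H - (C2 + r * c1)) =
      (2 * d + ε) * (1 - ε) * X - (2 * d + ε) * (C2 + r * c1) := by
    rw [hX]
    ring
  rw [e1] at h1
  rw [e2] at h2
  have h3 : (2 * (d : ℝ) + ε) * (1 - ε) * X ≤ 2 * d * X := by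
    refine mul_le_mul_of_nonneg_right ?_ hX0
    nlinarith
  have h4 : (d : ℝ) ^ 2 / r * c1 ≤ r * c1 := by
    refine mul_le_mul_of_nonneg_right ?_ hc1
    rw [div_le_iff₀ hR]
    nlinarith
  have h5 : 1 * (C2 + r * c1) ≤ (2 * (d : ℝ) + ε) * (C2 + r * c1) := by
    refine mul_le_mul_of_nonneg_right (by linarith) (by positivity)
  linarith

lemma real_D {d r : ℕ} {H h ε c1 C2 C6 ρ1 : ℝ} (hd : 1 ≤ d) (hdr : d ≤ r) (hε : 0 < ε)
    (hε1 : ε ≤ 1) (hH : 0 ≤ H) (hc1 : 0 ≤ c1) (hC6 : 0 ≤ C6)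
    (h1 : (d : ℝ) ^ 2 / r * (2 * H - c1) + ρ1 / r ^ 3 ≤ (2 * d + ε) * h + C2)
    (h2 : h ≤ ((d : ℝ) / r + ε) * H + C6) :
    ρ1 / r ^ 3 ≤ ε * (2 * r + 2) * H + ((2 * r + 1) * C6 + C2 + r * c1) := by
  have hD : (1 : ℝ) ≤ d := by exact_mod_cast hd
  have hDR : (d : ℝ) ≤ r := by exact_mod_cast hdr
  have hR : (0 : ℝ) < r := by linarith
  have hp : 0 < 2 * (d : ℝ) + ε := by linarith
  have h3 := mul_le_mul_of_nonneg_left h2 hp.le
  have h4 : (d : ℝ) ^ 2 / r * c1 ≤ r * c1 := by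
    refine mul_le_mul_of_nonneg_right ?_ hc1
    rw [div_le_iff₀ hR]
    nlinarith
  have e1 : (d : ℝ) ^ 2 / r * (2 * H - c1) = 2 * ((d : ℝ) ^ 2 / r) * H - (d : ℝ) ^ 2 / r * c1 := by
    ring
  have e2 : (2 * (d : ℝ) + ε) * (((d : ℝ) / r + ε) * H + C6) =
      2 * ((d : ℝ) ^ 2 / r) * H + ε * (2 * d + d / r + ε) * H + (2 * d + ε) * C6 := by
    ring
  have h5 : (d : ℝ) / r ≤ 1 := (div_le_one hR).2 hDR
  have h6 : ε * (2 * d + d / r + ε) * H ≤ ε * (2 * r + 2) * H := by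
    refine mul_le_mul_of_nonneg_right ?_ hH
    refine mul_le_mul_of_nonneg_left ?_ hε.le
    linarith
  have h7 : (2 * (d : ℝ) + ε) * C6 ≤ (2 * r + 1) * C6 := by
    refine mul_le_mul_of_nonneg_right ?_ hC6
    linarith
  rw [e1] at h1
  rw [e2] at h3
  linarith

variable {K : Type} [Field K] [NumberField K] {q : ℕ}

variable (K) in
/-- the point of a factor -/
lemma pt_of_factor (r : ℕ) : ∃ Ch : ℝ, 0 ≤ Ch ∧ ∀ φ : K[X], Irreducible φ → φ.natDegree ≤ r →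
    ∃ (L : Type) (_ : Field L) (_ : NumberField L) (_ : Algebra K L) (x : L),
      IntermediateField.adjoin K {x} = ⊤ ∧ finrank K L = φ.natDegree ∧
      (∀ F : K[X], φ ∣ F → aeval x F = 0) ∧
      logHeight ![1, x] ≤ logHeight (cf r φ) + Ch := by
  choose C hC0 hC using fun d : ℕ => height_upper (K := K) d
  refine ⟨∑ d ∈ range (r + 1), C d, sum_nonneg fun d _ => hC0 d, fun φ hφ hd => ?_⟩
  obtain ⟨L, i1, i2, i3, x, hx, hrL, hmin⟩ := exists_field φ hφ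
  refine ⟨L, i1, i2, i3, x, hx, hrL, ?_, ?_⟩
  · rintro F ⟨G, rfl⟩
    have h1 : aeval x (minpoly K x) = 0 := minpoly.aeval K x
    rw [hmin, map_mul, aeval_C] at h1
    have h2 : algebraMap K L φ.leadingCoeff⁻¹ ≠ 0 :=
      (_root_.map_ne_zero _).2 (inv_ne_zero (leadingCoeff_ne_zero.2 hφ.ne_zero))
    rw [map_mul, (mul_eq_zero.1 h1).resolve_right h2, zero_mul]
  · have h1 := hC φ.natDegree L x hx hrL
    have hlc : φ.leadingCoeff⁻¹ ≠ 0 := inv_ne_zero (leadingCoeff_ne_zero.2 hφ.ne_zero)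
    have h3 : logHeight (fun j : Fin (φ.natDegree + 1) => (minpoly K x).coeff j) =
        logHeight (cf φ.natDegree φ) := by
      have h4 : (fun j : Fin (φ.natDegree + 1) => (minpoly K x).coeff j) =
          φ.leadingCoeff⁻¹ • cf φ.natDegree φ := by
        funext j
        rw [hmin, mul_comm, coeff_C_mul]
        rfl
      rw [h4, logHeight_smul_eq_logHeight _ hlc]
    rw [h3, ← ht_pad hφ.ne_zero le_rfl hd] at h1
    have h5 := single_le_sum (f := C) (fun d _ => hC0 d)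
      (mem_range.2 (by omega : φ.natDegree < r + 1))
    linarith

/-- the sum of the sizes -/
lemma sum_rh {S : Finset (Pl K)} (hs2 : ∑ v ∈ S, ls v 2 = -(finrank ℚ K * Real.log 2))
    (hs3 : ∑ v ∈ S, ls v 3 = -(finrank ℚ K * Real.log 3)) (t : ℕ) :
    2 * (finrank ℚ K * (t * Real.log 3)) - finrank ℚ K * Real.log 2 ≤ ∑ v ∈ S, rh v t := by
  unfold rh
  rw [sum_neg_distrib, sum_add_distrib, ← mul_sum, ← mul_sum, hs2, hs3]
  have h1 := le_sx_log t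
  have h2 := mul_le_mul_of_nonneg_left h1 (Nat.cast_nonneg (α := ℝ) (finrank ℚ K))
  linarith [h2, show (finrank ℚ K : ℝ) * (sx t * Real.log 2) =
    sx t * (finrank ℚ K * Real.log 2) by ring,
    show (finrank ℚ K : ℝ) * (t * Real.log 3 - Real.log 2) =
    t * (finrank ℚ K * Real.log 3) - finrank ℚ K * Real.log 2 by ring]

lemma rh_ge {S : Finset (Pl K)} {P : Pl K → Prop} {κ : ℝ} (hκ : 0 < κ)
    (h2 : ∀ v ∈ S, P v → ls v 3 = 0 ∧ ls v 2 ≤ -κ)
    (h3 : ∀ v ∈ S, ¬P v → ls v 2 = 0 ∧ ls v 3 ≤ -κ) (t : ℕ) :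
    ∀ v ∈ S, κ * t ≤ rh v t := by
  intro v hv
  unfold rh
  by_cases h : P v
  · obtain ⟨g1, g2⟩ := h2 v hv h
    rw [g1]
    have g3 : (t : ℝ) ≤ sx t := by exact_mod_cast le_sx t
    have g4 := mul_le_mul_of_nonneg_left g2 (Nat.cast_nonneg (α := ℝ) (sx t))
    have g5 := mul_le_mul_of_nonneg_left g3 hκ.le
    linarith
  · obtain ⟨g1, g2⟩ := h3 v hv h
    rw [g1]
    have g4 := mul_le_mul_of_nonneg_left g2 (Nat.cast_nonneg (α := ℝ) t)
    linarith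

end Pool.Agent.H430.Os
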