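import Pool.Agent.H430.Os.Main

/-!
The fibres of a finite morphism to the projective space.
-/

set_option autoImplicit false

namespace Pool.Agent.H430.Os

open MvPolynomial Finset NumberField Height Module
open Pool.Agent.W180.OP Pool.Agent.W180.TP Pool.Agent.TH875 Pool.Agent.NH28

/-- a form at a multiple of a point -/
lemma aeval_scale {K L : Type} [Field K] [Field L] [Algebra K L] {n e : ℕ}
    (F : MvPolynomial (Fin n) K) (hF : F.IsHomogeneous e) (c : L) (x : Fin n → L) :
    aeval (fun i => c * x i) F = c ^ e * aeval x F := by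
  obtain ⟨a, ha⟩ := form_seg F hF
  rw [ha, map_sum, map_sum, mul_sum]
  refine sum_congr rfl fun j _ => ?_
  rw [map_mul, map_mul, map_prod, map_prod, aeval_C, aeval_C]
  simp only [aeval_X]
  rw [prod_mul_distrib, prod_const, card_univ, Fintype.card_fin]
  ring

variable {K : Type} [Field K] [NumberField K]

/-- the points over a given point -/
theorem fib1 {n m ν N : ℕ} (hN : 1 ≤ N) (G : Fin m → MvPolynomial (Fin n) K) (g : Fin m → ℕ)
    (hG : ∀ k, (G k).IsHomogeneous (g k)) (hprime : (Ideal.span (Set.range G)).IsPrime)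
    (htr : Algebra.trdeg K (MvPolynomial (Fin n) K ⧸ Ideal.span (Set.range G)) = (ν + 1 : ℕ))
    (Φ : Fin (ν + 1) → MvPolynomial (Fin n) K) (hΦ : ∀ k, (Φ k).IsHomogeneous N)
    (h0 : ∀ (L : Type) [Field L] [Algebra K L] (x : Fin n → L), (∀ k, aeval x (G k) = 0) →
      (∀ k, aeval x (Φ k) = 0) → x = 0) :
    ∃ r0 : ℕ, ∀ Z : MvPolynomial (Fin n) K, Z ∉ Ideal.span (Set.range G) →
      ∃ R : MvPolynomial (Fin (ν + 1)) K, R ≠ 0 ∧ ∀ z : Fin (ν + 1) → K, eval z R ≠ 0 →
        ∃ (L : Type) (_ : Field L) (_ : NumberField L) (_ : Algebra K L) (x : Fin n → L),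
          finrank K L ≤ r0 ∧ (∀ k, aeval x (G k) = 0) ∧ aeval x Z ≠ 0 ∧
            ∀ k, aeval x (Φ k) = algebraMap K L (z k) := by
  classical
  have halg := alg_ind G g hG N hN Φ hΦ h0 hprime htr
  obtain ⟨E0, hE00, hgen⟩ := gen G g hG N hN Φ hΦ h0
  set I := Ideal.span (Set.range G) with hI
  set A := MvPolynomial (Fin n) K ⧸ I with hA
  have hdom : IsDomain A := Ideal.Quotient.isDomain I
  set π : MvPolynomial (Fin n) K →ₐ[K] A := Ideal.Quotient.mkₐ K I with hπ
  set S := Algebra.adjoin K (Set.range fun k => π (Φ k)) with hS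
  have hyS : ∀ k, π (Φ k) ∈ S := fun k => Algebra.subset_adjoin ⟨k, rfl⟩
  -- `A` is finite over `S`
  set U : Submodule S A := Submodule.span S ((fun β => π (monomial β 1)) '' (E0 : Set _)) with hU
  have hmem : ∀ F : MvPolynomial (Fin n) K, π F ∈ U := by
    intro F
    rw [← sum_homogeneousComponent F, map_sum]
    refine Submodule.sum_mem _ fun M _ => ?_
    have h1 := hgen M _ (homogeneousComponent_isHomogeneous M F)
    have h2 : Wm I N Φ E0 M ≤ (U.restrictScalars K).comap π.toLinearMap := by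
      refine sup_le (Submodule.span_le.2 ?_) ?_
      · rintro _ ⟨s, ⟨hs1, hs2⟩, rfl⟩
        show π (ym Φ s) ∈ U
        rw [ym, map_mul, map_prod]
        simp only [map_pow]
        have h3 : (∏ k, π (Φ k) ^ s.1 k) ∈ S :=
          Subalgebra.prod_mem _ fun k _ => Subalgebra.pow_mem _ (hyS k) _
        have h4 := Submodule.smul_mem U (⟨_, h3⟩ : S) (Submodule.subset_span
          ⟨s.2, hs1, rfl⟩ : π (monomial s.2 1) ∈ U)
        exact h4
      · intro F' hF'
        have h4 : π F' = 0 := Ideal.Quotient.eq_zero_iff_mem.2 hF'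
        show π F' ∈ U
        rw [h4]
        exact zero_mem _
    exact h2 h1
  have hfin : Module.Finite S A := by
    refine ⟨⟨E0.image fun β => π (monomial β 1), ?_⟩⟩
    rw [eq_top_iff]
    rintro a -
    obtain ⟨F, rfl⟩ := Ideal.Quotient.mk_surjective a
    rw [Finset.coe_image]
    exact hmem F
  have hint : Algebra.IsIntegral S A := Algebra.IsIntegral.of_finite S A
  refine ⟨E0.card, fun Z hZ => ?_⟩
  have hZ0 : π Z ≠ 0 := fun h => hZ (Ideal.Quotient.eq_zero_iff_mem.1 h)
  have h1 : (Ideal.span {π Z}).comap (algebraMap S A) ≠ ⊥ :=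
    Ideal.comap_ne_bot_of_integral_mem hZ0 (Ideal.mem_span_singleton_self _)
      (Algebra.IsIntegral.isIntegral _)
  obtain ⟨s, hs, hs0⟩ := Submodule.exists_mem_ne_zero_of_ne_bot h1
  obtain ⟨a, ha⟩ := Ideal.mem_span_singleton'.1 (Ideal.mem_comap.1 hs)
  set e := halg.aevalEquiv with he
  refine ⟨e.symm s, fun h => hs0 ((map_eq_zero_iff e.symm e.symm.injective).1 h), fun z hz => ?_⟩
  -- the evaluation at `z`
  set ev : S →ₐ[K] K := (aeval z).comp e.symm.toAlgHom with hev
  have hevΦ : ∀ k, ev ⟨π (Φ k), hyS k⟩ = z k := by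
    intro k
    have h2 : e.symm ⟨π (Φ k), hyS k⟩ = X k := by
      rw [AlgEquiv.symm_apply_eq]
      apply Subtype.ext
      have h3 := halg.algebraMap_aevalEquiv (X k)
      rw [aeval_X] at h3
      exact h3.symm
    show aeval z (e.symm ⟨π (Φ k), hyS k⟩) = z k
    rw [h2, aeval_X]
  have hevs : ev s ≠ 0 := hz
  set mI : Ideal S := RingHom.ker ev.toRingHom with hmI
  have hsurj : Function.Surjective ev.toRingHom := fun c => ⟨algebraMap K S c, ev.commutes c⟩
  have hmax : mI.IsMaximal := RingHom.ker_isMaximal_of_surjective ev.toRingHom hsurj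
  obtain ⟨Q, hQ, hQc⟩ := Ideal.exists_ideal_over_maximal_of_isIntegral (S := A) mI (by
    intro t ht
    have h2 : algebraMap S A t = 0 := ht
    have h3 : t = 0 := Subtype.ext h2
    rw [h3]
    exact zero_mem _)
  let _ : Field (A ⧸ Q) := Ideal.Quotient.field Q
  set σ : A →ₐ[K] (A ⧸ Q) := Ideal.Quotient.mkₐ K Q with hσ
  have hσS : ∀ t : S, σ (t : A) = algebraMap K (A ⧸ Q) (ev t) := by
    intro t
    have h2 : t - algebraMap K S (ev t) ∈ mI := by
      show ev (t - algebraMap K S (ev t)) = 0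
      rw [map_sub, ev.commutes]
      exact sub_self _
    rw [← hQc] at h2
    have h3 : σ ((t - algebraMap K S (ev t) : S) : A) = 0 := Ideal.Quotient.eq_zero_iff_mem.2 h2
    have h4 : ((t - algebraMap K S (ev t) : S) : A) = (t : A) - algebraMap K A (ev t) := rfl
    rw [h4, map_sub, σ.commutes, sub_eq_zero] at h3
    exact h3
  -- the field is finite over `K`
  have hspan : Submodule.span K ((E0.image fun β => σ (π (monomial β 1)) : Finset (A ⧸ Q)) :
      Set (A ⧸ Q)) = ⊤ := by
    rw [eq_top_iff]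
    rintro y -
    obtain ⟨a, rfl⟩ := Ideal.Quotient.mk_surjective y
    obtain ⟨F, rfl⟩ := Ideal.Quotient.mk_surjective a
    have h2 := hmem F
    have h3 : ∀ b ∈ U, σ b ∈ Submodule.span K
        ((E0.image fun β => σ (π (monomial β 1)) : Finset (A ⧸ Q)) : Set (A ⧸ Q)) := by
      intro b hb
      refine Submodule.span_induction (p := fun b _ => σ b ∈ Submodule.span K
        ((E0.image fun β => σ (π (monomial β 1)) : Finset (A ⧸ Q)) : Set (A ⧸ Q))) ?_ ?_ ?_ ?_ hb
      · rintro _ ⟨β, hβ, rfl⟩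
        refine Submodule.subset_span ?_
        rw [Finset.coe_image]
        exact ⟨β, hβ, rfl⟩
      · rw [map_zero]
        exact zero_mem _
      · intro b b' _ _ h h'
        rw [map_add]
        exact add_mem h h'
      · intro t b _ h
        have h4 : σ (t • b) = ev t • σ b := by
          have e1 : t • b = (t : A) * b := rfl
          rw [e1, map_mul, hσS t, Algebra.smul_def]
        rw [h4]
        exact Submodule.smul_mem _ _ h
    exact h3 _ h2
  have hfinL : Module.Finite K (A ⧸ Q) := ⟨⟨_, hspan⟩⟩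
  have hnf : NumberField (A ⧸ Q) := NumberField.of_module_finite K (A ⧸ Q)
  have hrank : finrank K (A ⧸ Q) ≤ E0.card := by
    have h2 := finrank_span_finset_le_card (R := K)
      (E0.image fun β => σ (π (monomial β 1)) : Finset (A ⧸ Q))
    unfold Set.finrank at h2
    rw [hspan, finrank_top] at h2
    exact h2.trans Finset.card_image_le
  have hae : ∀ F, aeval (fun i => σ (π (X i))) F = σ (π F) := by
    intro F
    have h2 : aeval (fun i => σ (π (X i))) = σ.comp π := by
      ext i
      simp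
    rw [h2]
    rfl
  refine ⟨A ⧸ Q, inferInstance, hnf, inferInstance, fun i => σ (π (X i)), hrank, ?_, ?_, ?_⟩
  · intro k
    rw [hae]
    have h2 : π (G k) = 0 := Ideal.Quotient.eq_zero_iff_mem.2 (Ideal.subset_span ⟨k, rfl⟩)
    rw [h2, map_zero]
  · rw [hae]
    intro h2
    apply hevs
    have h3 := hσS s
    have h4 : (s : A) = a * π Z := ha.symm
    rw [h4, map_mul, h2, mul_zero] at h3
    exact (map_eq_zero_iff _ (algebraMap K (A ⧸ Q)).injective).1 h3.symm
  · intro k
    rw [hae]
    have h3 := hσS ⟨π (Φ k), hyS k⟩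
    rw [hevΦ] at h3
    exact h3

end Pool.Agent.H430.Os
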