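import Pool.Agent.H430.Os.Fib

/-!
The fibres of a finite morphism to the projective space: the residue field.
-/

set_option autoImplicit false

namespace Pool.Agent.H430.Os

open MvPolynomial Finset NumberField Height Module
open Pool.Agent.W180.OP Pool.Agent.W180.TP Pool.Agent.TH875 Pool.Agent.NH28

variable {K : Type} [Field K] [NumberField K]

/-- the residue field of a projective point -/
lemma residue {L1 : Type} [Field L1] [NumberField L1] [Algebra K L1] {n : ℕ} (x : Fin n → L1)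
    (hx : x ≠ 0) : ∃ (L : Type) (_ : Field L) (_ : NumberField L) (_ : Algebra K L)
      (σ : L →ₐ[K] L1) (x' : Fin n → L) (c : L1), c ≠ 0 ∧ x' ≠ 0 ∧ (∀ i, σ (x' i) = c * x i) ∧
        finrank K L ≤ finrank K L1 ∧
        IntermediateField.adjoin K {z | ∃ i j, z = x' i / x' j} = ⊤ := by
  classical
  obtain ⟨j0, hj0⟩ := Function.ne_iff.1 hx
  have hj : x j0 ≠ 0 := hj0
  set T : Set L1 := {z | ∃ i j, z = x i / x j} with hT
  set L := IntermediateField.adjoin K T with hL
  have hfd : FiniteDimensional K L1 := by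
    have : FiniteDimensional ℚ L1 := inferInstance
    exact FiniteDimensional.right ℚ K L1
  have hmem : ∀ i, x i / x j0 ∈ L := fun i => IntermediateField.subset_adjoin K T ⟨i, j0, rfl⟩
  have hnf : NumberField L := NumberField.of_module_finite K L
  set x' : Fin n → L := fun i => ⟨x i / x j0, hmem i⟩ with hx'
  have hval : ∀ i, L.val (x' i) = (x j0)⁻¹ * x i := by
    intro i
    show x i / x j0 = _
    rw [div_eq_inv_mul]
  refine ⟨L, inferInstance, hnf, inferInstance, L.val, x', (x j0)⁻¹, inv_ne_zero hj, ?_, hval,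
    LinearMap.finrank_le_finrank_of_injective (f := L.val.toLinearMap) L.val.injective, ?_⟩
  · intro h
    have h1 := congrArg L.val (congrFun h j0)
    rw [hval, inv_mul_cancel₀ hj] at h1
    exact one_ne_zero (h1.trans (map_zero _))
  · rw [eq_top_iff]
    rintro ⟨y, hy⟩ -
    refine IntermediateField.adjoin_induction (F := K) (s := T)
      (p := fun y hy => (⟨y, hy⟩ : L) ∈ IntermediateField.adjoin K {z | ∃ i j, z = x' i / x' j})
      ?_ ?_ ?_ ?_ ?_ hy
    · rintro _ ⟨i, j, rfl⟩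
      refine IntermediateField.subset_adjoin K _ ⟨i, j, ?_⟩
      apply L.val.injective
      show x i / x j = L.val (x' i / x' j)
      rw [map_div₀, hval, hval, mul_div_mul_left _ _ (inv_ne_zero hj)]
    · intro a
      exact IntermediateField.algebraMap_mem _ a
    · intro a b ha hb h1 h2
      exact add_mem h1 h2
    · intro a ha h1
      exact inv_mem h1
    · intro a b ha hb h1 h2
      exact mul_mem h1 h2

/-- the points over a given point, with their residue fields -/
theorem fib2 {n m ν N : ℕ} (hN : 1 ≤ N) (G : Fin m → MvPolynomial (Fin n) K) (g : Fin m → ℕ)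
    (hG : ∀ k, (G k).IsHomogeneous (g k)) (hprime : (Ideal.span (Set.range G)).IsPrime)
    (htr : Algebra.trdeg K (MvPolynomial (Fin n) K ⧸ Ideal.span (Set.range G)) = (ν + 1 : ℕ))
    (Φ : Fin (ν + 1) → MvPolynomial (Fin n) K) (hΦ : ∀ k, (Φ k).IsHomogeneous N)
    (h0 : ∀ (L : Type) [Field L] [Algebra K L] (x : Fin n → L), (∀ k, aeval x (G k) = 0) →
      (∀ k, aeval x (Φ k) = 0) → x = 0) :
    ∃ r0 : ℕ, ∀ Z : MvPolynomial (Fin n) K, Z ∉ Ideal.span (Set.range G) →
      ∀ tZ, Z.IsHomogeneous tZ → ∃ R : MvPolynomial (Fin (ν + 1)) K, R ≠ 0 ∧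
        ∀ z : Fin (ν + 1) → K, z ≠ 0 → eval z R ≠ 0 →
        ∃ (L : Type) (_ : Field L) (_ : NumberField L) (_ : Algebra K L) (x : Fin n → L),
          finrank K L ≤ r0 ∧ x ≠ 0 ∧ (∀ k, aeval x (G k) = 0) ∧
          IntermediateField.adjoin K {y | ∃ i j, y = x i / x j} = ⊤ ∧ aeval x Z ≠ 0 ∧
            ∃ c : L, c ≠ 0 ∧ ∀ k, aeval x (Φ k) = c * algebraMap K L (z k) := by
  classical
  obtain ⟨r0, hr0⟩ := fib1 hN G g hG hprime htr Φ hΦ h0
  refine ⟨r0, fun Z hZ tZ htZ => ?_⟩
  obtain ⟨R, hR0, hR⟩ := hr0 Z hZ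
  refine ⟨R, hR0, fun z hz hRz => ?_⟩
  obtain ⟨L1, _, _, _, x, hrk, hGx, hZx, hΦx⟩ := hR z hRz
  obtain ⟨k0, hk0⟩ := Function.ne_iff.1 hz
  have hzk : z k0 ≠ 0 := hk0
  have hx : x ≠ 0 := by
    rintro rfl
    have h1 := aeval_scale (Φ k0) (hΦ k0) (0 : L1) (0 : Fin n → L1)
    have h2 : (fun i => (0 : L1) * (0 : Fin n → L1) i) = 0 := by
      funext i
      simp
    rw [h2, zero_pow (by omega), zero_mul, hΦx, _root_.map_eq_zero] at h1
    exact hzk h1
  obtain ⟨L, _, _, _, σ, x', c, hc, hx', hσ, hle, hadj⟩ := residue (K := K) x hx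
  have hae : ∀ F : MvPolynomial (Fin n) K, ∀ e, F.IsHomogeneous e →
      σ (aeval x' F) = c ^ e * aeval x F := by
    intro F e hF
    rw [← aeval_scale F hF c x, comp_aeval_apply]
    congr 2
    funext i
    exact hσ i
  have hinj : Function.Injective σ := σ.toRingHom.injective
  have hzk' : algebraMap K L (z k0) ≠ 0 := (_root_.map_ne_zero _).2 hzk
  refine ⟨L, inferInstance, inferInstance, inferInstance, x', hle.trans hrk, hx', ?_, hadj, ?_,
    aeval x' (Φ k0) / algebraMap K L (z k0), ?_, ?_⟩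
  · intro k
    apply hinj
    rw [hae _ _ (hG k), hGx k, mul_zero, map_zero]
  · intro h
    have h1 := hae Z tZ htZ
    rw [h, map_zero] at h1
    exact (mul_ne_zero (pow_ne_zero _ hc) hZx) h1.symm
  · refine div_ne_zero ?_ hzk'
    intro h
    have h1 := hae _ _ (hΦ k0)
    rw [h, map_zero, hΦx] at h1
    exact (mul_ne_zero (pow_ne_zero _ hc) ((_root_.map_ne_zero _).2 hzk)) h1.symm
  · intro k
    apply hinj
    rw [hae _ _ (hΦ k), hΦx, map_mul, map_div₀, hae _ _ (hΦ k0), hΦx, σ.commutes, σ.commutes]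
    have h1 : algebraMap K L1 (z k0) ≠ 0 := (_root_.map_ne_zero _).2 hzk
    field_simp

end Pool.Agent.H430.Os
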