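import Pool.Agent.H430.Os.Near

/-!
The numbers of the conjugates near the targets.
-/

set_option autoImplicit false

namespace Pool.Agent.H430.Os

open Finset NumberField IsDedekindDomain Height Module
open Pool.Agent.W180.OP (Pl av wt fv nrm wt_nonneg le_nrm exists_nrm nrm_pos nrm_nonneg)
open Pool.Agent.NH28 (nn ab mem_ab sum_nn one_le_nn nn_ext nn_nonneg Ov ldeg)
open Pool.Agent.H430.Cl (prx)

section

variable {q : ℕ}

lemma gap_id (m N : Fin q → ℕ) (r d : ℕ) (hr : 1 ≤ r) (hm : ∑ i, m i = r) (hN : ∑ i, N i = d)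
    (h0 : ∀ i, m i = 0 → N i = 0) : ∑ i, (N i : ℝ) ^ 2 / m i =
      (d : ℝ) ^ 2 / r + ∑ i, ((r : ℝ) * N i - d * m i) ^ 2 / (m i * r ^ 2) := by
  have hr0 : (r : ℝ) ≠ 0 := by
    have : (0 : ℝ) < r := by exact_mod_cast hr
    exact this.ne'
  have h1 : ∀ i, (N i : ℝ) ^ 2 / m i = (2 * d / r * N i - (d : ℝ) ^ 2 / r ^ 2 * m i) +
      ((r : ℝ) * N i - d * m i) ^ 2 / (m i * r ^ 2) := by
    intro i
    rcases Nat.eq_zero_or_pos (m i) with h | h
    · rw [h0 i h, h]
      simp
    · have hm0 : (m i : ℝ) ≠ 0 := by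
        have : (0 : ℝ) < m i := by exact_mod_cast h
        exact this.ne'
      field_simp
      ring
  rw [sum_congr rfl fun i _ => h1 i, sum_add_distrib, sum_sub_distrib, ← mul_sum, ← mul_sum]
  have h2 : ∑ i, (N i : ℝ) = d := by rw [← hN]; push_cast; rfl
  have h3 : ∑ i, (m i : ℝ) = r := by rw [← hm]; push_cast; rfl
  rw [h2, h3]
  congr 1
  field_simp
  ring

lemma gap_ge (m N : Fin q → ℕ) (r d : ℕ) (hr : 1 ≤ r) (hm : ∑ i, m i = r) (hN : ∑ i, N i = d)
    (h0 : ∀ i, m i = 0 → N i = 0) : (d : ℝ) ^ 2 / r ≤ ∑ i, (N i : ℝ) ^ 2 / m i := by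
  rw [gap_id m N r d hr hm hN h0]
  have : 0 ≤ ∑ i, ((r : ℝ) * N i - d * m i) ^ 2 / (m i * r ^ 2) :=
    sum_nonneg fun i _ => by positivity
  linarith

lemma gap_lt (m N : Fin q → ℕ) (r d : ℕ) (hr : 1 ≤ r) (hm : ∑ i, m i = r) (hN : ∑ i, N i = d)
    (h0 : ∀ i, m i = 0 → N i = 0) {i : Fin q} (hi : r * N i ≠ d * m i) :
    (d : ℝ) ^ 2 / r + 1 / r ^ 3 ≤ ∑ i, (N i : ℝ) ^ 2 / m i := by
  rw [gap_id m N r d hr hm hN h0]
  have hr0 : (0 : ℝ) < r := by exact_mod_cast hr
  have h1 := single_le_sum (f := fun i => ((r : ℝ) * N i - d * m i) ^ 2 / (m i * r ^ 2))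
    (fun i _ => by positivity) (mem_univ i)
  have hmi : 0 < m i := by
    rcases Nat.eq_zero_or_pos (m i) with h | h
    · rw [h0 i h, h] at hi
      exact absurd (by simp) hi
    · exact h
  have hm0 : (0 : ℝ) < m i := by exact_mod_cast hmi
  have hmr : (m i : ℝ) ≤ r := by
    have := single_le_sum (f := m) (fun i _ => Nat.zero_le _) (mem_univ i)
    rw [hm] at this
    exact_mod_cast this
  have h2 : (1 : ℝ) ≤ ((r : ℝ) * N i - d * m i) ^ 2 := by
    have h3 : ((r : ℤ) * N i - d * m i) ≠ 0 := by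
      intro h
      apply hi
      have : (r : ℤ) * N i = d * m i := by linarith
      exact_mod_cast this
    have h4 : (1 : ℤ) ≤ ((r : ℤ) * N i - d * m i) ^ 2 := by
      have := pow_pos (abs_pos.2 h3) 2
      rw [sq_abs] at this
      linarith
    exact_mod_cast h4
  have h3 : (1 : ℝ) / r ^ 3 ≤ ((r : ℝ) * N i - d * m i) ^ 2 / (m i * r ^ 2) := by
    rw [div_le_div_iff₀ (by positivity) (by positivity)]
    have h5 : (m i : ℝ) * r ^ 2 ≤ r ^ 3 := by
      have := mul_le_mul_of_nonneg_right hmr (by positivity : (0 : ℝ) ≤ r ^ 2)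
      calc _ ≤ (r : ℝ) * r ^ 2 := this
        _ = r ^ 3 := by ring
    have h6 := mul_le_mul_of_nonneg_right h2 (by positivity : (0 : ℝ) ≤ (r : ℝ) ^ 3)
    linarith
  have h4 : (1 : ℝ) / r ^ 3 ≤ ∑ i, ((r : ℝ) * N i - d * m i) ^ 2 / (m i * r ^ 2) := h3.trans h1
  linarith

lemma gap_le (m : Fin q → ℕ) (N : Fin q → ℝ) (d : ℝ) (hN0 : ∀ i, 0 ≤ N i) (hN : ∑ i, N i = d) :
    ∑ i, (N i : ℝ) ^ 2 / m i ≤ d ^ 2 := by
  have hd : ∀ i, N i ≤ d := by
    intro i
    rw [← hN]
    exact single_le_sum (f := N) (fun i _ => hN0 i) (mem_univ i)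
  have hd0 : 0 ≤ d := by
    rw [← hN]
    exact sum_nonneg fun i _ => hN0 i
  calc ∑ i, N i ^ 2 / m i ≤ ∑ i, N i * d := by
        refine sum_le_sum fun i _ => ?_
        have h1 : N i ^ 2 / m i ≤ N i ^ 2 := by
          rcases Nat.eq_zero_or_pos (m i) with h | h
          · rw [h]
            simp only [Nat.cast_zero, div_zero]
            positivity
          · exact div_le_self (by positivity) (by exact_mod_cast h)
        have h2 := mul_le_mul_of_nonneg_left (hd i) (hN0 i)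
        nlinarith
    _ = d ^ 2 := by rw [← sum_mul, hN]; ring

end

variable {K L : Type} [Field K] [NumberField K] [Field L] [NumberField L] [Algebra K L] {q : ℕ}

/-- the number of the conjugates near a target -/
noncomputable def Nv (e : Pl L → Fin q) (v : Pl K) (i : Fin q) : ℝ :=
  ∑ w ∈ ab L v, if e w = i then nn v w else 0

lemma Nv_nonneg (e : Pl L → Fin q) (v : Pl K) (i : Fin q) : 0 ≤ Nv e v i :=
  sum_nonneg fun w _ => by
    split_ifs
    · exact nn_nonneg v w
    · exact le_rfl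

lemma sum_Nv (e : Pl L → Fin q) (v : Pl K) : ∑ i, Nv e v i = finrank K L := by
  unfold Nv
  rw [sum_comm, ← sum_nn L v]
  refine sum_congr rfl fun w _ => ?_
  rw [sum_ite_eq]
  simp

lemma Nv_nat (e : Pl L → Fin q) (v : HeightOneSpectrum (𝓞 K)) :
    ∃ N : Fin q → ℕ, ∀ i, Nv e (Sum.inr v : Pl K) i = N i := by
  classical
  have h1 : ∀ w : Pl L, ∃ n : ℕ, nn (Sum.inr v : Pl K) w = n := by
    rintro (w | w)
    · exact ⟨0, by rw [Nat.cast_zero]; rfl⟩
    · exact ⟨ldeg v w, rfl⟩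
  choose g hg using h1
  refine ⟨fun i => ∑ w ∈ ab L (Sum.inr v : Pl K), if e w = i then g w else 0, fun i => ?_⟩
  unfold Nv
  push_cast
  refine sum_congr rfl fun w _ => ?_
  split_ifs
  · exact hg w
  · rfl

lemma Nv_zero (e : Pl L → Fin q) (v : Pl K) (m : Fin q → ℕ) (he : ∀ w ∈ ab L v, 0 < m (e w))
    (i : Fin q) (hi : m i = 0) : Nv e v i = 0 := by
  unfold Nv
  refine sum_eq_zero fun w hw => ?_
  rw [if_neg]
  rintro rfl
  have := he w hw
  omega

/-- lower bound for the sum over pairs -/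
lemma pair_lower {v : Pl K} (a : Fin q → K) (m : Fin q → ℕ) {x : L} {c τ : ℝ} (hc : 0 ≤ c)
    (hlow : ∀ w ∈ ab L v, ∀ i, -c ≤ prx v w (a i) x)
    (e : Pl L → Fin q) (he : ∀ w ∈ ab L v, 0 < m (e w) ∧ τ ≤ m (e w) * prx v w (a (e w)) x) :
    τ * ∑ i, Nv e v i ^ 2 / m i - q * (c * finrank K L ^ 2) ≤
      ∑ i, ∑ w ∈ ab L v, ∑ w' ∈ ab L v,
        nn v w * nn v w' * min (prx v w (a i) x) (prx v w' (a i) x) := by
  have h1 : ∀ i, τ * (Nv e v i ^ 2 / m i) - c * finrank K L ^ 2 ≤
      ∑ w ∈ ab L v, ∑ w' ∈ ab L v,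
        nn v w * nn v w' * min (prx v w (a i) x) (prx v w' (a i) x) := by
    intro i
    have h2 : ∀ w ∈ ab L v, ∀ w' ∈ ab L v,
        (if e w = i then nn v w else 0) * (if e w' = i then nn v w' else 0) * (τ / m i) -
          nn v w * nn v w' * c ≤
        nn v w * nn v w' * min (prx v w (a i) x) (prx v w' (a i) x) := by
      intro w hw w' hw'
      have hn := nn_nonneg v w
      have hn' := nn_nonneg v w'
      have hnn := mul_nonneg hn hn'
      have hmin : -c ≤ min (prx v w (a i) x) (prx v w' (a i) x) :=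
        le_min (hlow w hw i) (hlow w' hw' i)
      have h3 := mul_le_mul_of_nonneg_left hmin hnn
      by_cases h : e w = i
      · by_cases h' : e w' = i
        · rw [if_pos h, if_pos h']
          have g1 := he w hw
          have g2 := he w' hw'
          rw [h] at g1
          rw [h'] at g2
          have hm0 : (0 : ℝ) < m i := by exact_mod_cast g1.1
          have g3 : τ / m i ≤ min (prx v w (a i) x) (prx v w' (a i) x) := by
            refine le_min ?_ ?_
            · rw [div_le_iff₀ hm0]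
              linarith [g1.2]
            · rw [div_le_iff₀ hm0]
              linarith [g2.2]
          have h4 := mul_le_mul_of_nonneg_left g3 hnn
          have h5 := mul_nonneg hnn hc
          linarith
        · rw [if_neg h']
          linarith
      · rw [if_neg h]
        linarith
    refine le_trans (le_of_eq ?_) (sum_le_sum fun w hw => sum_le_sum fun w' hw' => h2 w hw w' hw')
    simp only [sum_sub_distrib, ← sum_mul, ← mul_sum]
    unfold Nv
    rw [sum_nn]
    ring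
  refine le_trans (le_of_eq ?_) (sum_le_sum fun i _ => h1 i)
  rw [sum_sub_distrib, mul_sum, sum_const, card_univ, Fintype.card_fin, nsmul_eq_mul]

end Pool.Agent.H430.Os
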