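import Pool.Agent.H430.Os.Cost2

/-!
The optimality for all projective varieties.
-/

set_option autoImplicit false

namespace Pool.Agent.H430.Os

open MvPolynomial Finset NumberField IsDedekindDomain Height Module
open Pool.Agent.W180.OP Pool.Agent.W180.TP Pool.Agent.TH875 Pool.Agent.NH28
open Pool.Agent.H430.Ot (pm clu pxy mean)
open Pool.Agent.H430.Ft (height_nat)

variable {K : Type} [Field K] [NumberField K]

lemma ls_mul (v : Pl K) {a b : ℕ} (ha : a ≠ 0) (hb : b ≠ 0) : ls v (a * b) = ls v a + ls v b := by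
  have ha' : (a : K) ≠ 0 := by exact_mod_cast ha
  have hb' : (b : K) ≠ 0 := by exact_mod_cast hb
  unfold ls
  push_cast
  rw [map_mul, Real.log_mul ((av v).ne_zero_iff.2 ha') ((av v).ne_zero_iff.2 hb')]
  ring

lemma ls_one (v : Pl K) : ls v 1 = 0 := by
  unfold ls
  rw [Nat.cast_one, map_one, Real.log_one, mul_zero]

lemma ls_prod (v : Pl K) {ι : Type} (s : Finset ι) (p a : ι → ℕ) (hp : ∀ i ∈ s, p i ≠ 0) :
    ls v (∏ i ∈ s, p i ^ a i) = ∑ i ∈ s, a i * ls v (p i) := by
  classical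
  induction s using Finset.induction_on with
  | empty => rw [prod_empty, sum_empty, ls_one]
  | insert i s hi ih =>
    rw [prod_insert hi, sum_insert hi, ls_mul v (pow_ne_zero _ (hp i (mem_insert_self _ _)))
      (prod_ne_zero_iff.2 fun k hk => pow_ne_zero _ (hp k (mem_insert_of_mem hk))),
      ih fun k hk => hp k (mem_insert_of_mem hk)]
    congr 1
    exact ls_pow v (p i) (a i)

/-- the optimality for all projective varieties -/
theorem sharp_gen {n mG ν D q δ : ℕ} (hν : 1 ≤ ν) (hD : 1 ≤ D) (hδ : 1 ≤ δ)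
    (G : Fin mG → MvPolynomial (Fin n) K) (g : Fin mG → ℕ)
    (hG : ∀ k, (G k).IsHomogeneous (g k)) (hprime : (Ideal.span (Set.range G)).IsPrime)
    (htr : Algebra.trdeg K (MvPolynomial (Fin n) K ⧸ Ideal.span (Set.range G)) = (ν + 1 : ℕ))
    (f : Fin q → MvPolynomial (Fin n) K) (hf : ∀ c, (f c).IsHomogeneous D)
    (hgp : ∀ (s : Fin (ν + 1) ↪ Fin q) (L : Type) [Field L] [Algebra K L] (x : Fin n → L),
      (∀ k, aeval x (G k) = 0) → (∀ k, aeval x (f (s k)) = 0) → x = 0)
    (cl : Fin q → Fin (ν + 1)) (m : Fin q → ℕ)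
    (hm : ∀ k, ∑ c ∈ univ.filter (fun c => cl c = k), m c = δ) :
    ∃ (r0 : ℕ) (S : Finset (Pl K)), ∀ Z : MvPolynomial (Fin n) K, Z ∉ Ideal.span (Set.range G) →
      ∀ tZ, Z.IsHomogeneous tZ → ∃ C : ℝ, ∀ B : ℝ,
        ∃ (L : Type) (_ : Field L) (_ : NumberField L) (_ : Algebra K L) (x : Fin n → L),
          finrank K L ≤ r0 ∧ x ≠ 0 ∧ (∀ k, aeval x (G k) = 0) ∧
          IntermediateField.adjoin K {y | ∃ i j, y = x i / x j} = ⊤ ∧ aeval x Z ≠ 0 ∧
          B < logHeight x ∧ ∃ (e : Pl L → Fin (ν + 1) ↪ Fin q) (b : Pl L → ℝ) (ρ : Pl K → ℝ),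
            (∀ w k, aeval x (f (e w k)) ≠ 0) ∧
            (∀ v ∈ S, B < ρ v ∧ ∀ w ∈ ab L v, Function.Bijective (fun k => cl (e w k)) ∧
              ∀ k, k ≠ 0 → |m (e w k) * pxy v w D (f (e w k)) x - ρ v| ≤ C) ∧
            D * logHeight x - C ≤ ∑ v ∈ S, (∑ w ∈ ab L v, nn v w * b w -
              finrank K L * ∑ e', mean ν fun u => pm (clu (ab L v) e e') fun w =>
                b w - ∑ k, u k * pxy v w D (f (e w k)) x) := by
  classical
  -- the classes are not empty
  have hc0 : ∀ k, ∃ c, cl c = k := by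
    intro k
    have h1 : (univ.filter (fun c => cl c = k)).Nonempty := by
      rw [nonempty_iff_ne_empty]
      intro h
      have := hm k
      rw [h, sum_empty] at this
      omega
    obtain ⟨c, hc⟩ := h1
    exact ⟨c, (mem_filter.1 hc).2⟩
  choose c0 hc0 using hc0
  have hinjcl : ∀ s : Fin (ν + 1) → Fin q, (∀ k, cl (s k) = k) → Function.Injective s := by
    intro s hs a b hab
    rw [← hs a, hab, hs]
  have hfI : ∀ c, f c ∉ Ideal.span (Set.range G) := by
    intro c hc
    have hs : ∀ k, cl (if k = cl c then c else c0 k) = k := by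
      intro k
      split_ifs with h
      · exact h.symm
      · exact hc0 k
    have h1 := alg_ind G g hG D hD (fun k => f (if k = cl c then c else c0 k)) (fun k => hf _)
      (fun L _ _ x hGx hx => hgp ⟨_, hinjcl _ hs⟩ L x hGx hx) hprime htr
    have h2 := h1.ne_zero (cl c)
    apply h2
    rw [if_pos rfl]
    exact Ideal.Quotient.eq_zero_iff_mem.2 hc
  -- the morphism
  set Φ := PhiF f cl m with hΦ
  have hΦh : ∀ k, (Φ k).IsHomogeneous (δ * D) := PhiF_hom f cl m hf hm
  have hΦ0 : ∀ (L : Type) [Field L] [Algebra K L] (x : Fin n → L), (∀ k, aeval x (G k) = 0) →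
      (∀ k, aeval x (Φ k) = 0) → x = 0 := by
    intro L _ _ x hGx hx
    choose s hs1 hs2 using fun k => PhiF_zero f cl m x (hx k)
    exact hgp ⟨s, hinjcl s hs1⟩ L x hGx hs2
  have hδD : 1 ≤ δ * D := Nat.mul_pos hδ hD
  obtain ⟨r0, hfib⟩ := fib2 hδD G g hG hprime htr Φ hΦh hΦ0
  obtain ⟨S, J, κ, hκ, hSJ, hSl, hSs⟩ := places_pr K (ν + 1) (Nat.succ_pos ν)
  obtain ⟨Cv, hCv0, hCv⟩ := vtx hδ G g hG f hf hgp cl m hm
  obtain ⟨Ch, hCh0, hCh⟩ := height_phi G g hG Φ hΦh hΦ0
  choose Cl hCl0 hCl using fun c => liou_u (f c) D (hf c)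
  refine ⟨r0, S, fun Z hZ tZ htZ => ?_⟩
  set Z' := Z * ∏ c, f c with hZ'
  have hZ'I : Z' ∉ Ideal.span (Set.range G) := by
    intro h
    rcases hprime.mem_or_mem h with h | h
    · exact hZ h
    · obtain ⟨c, _, hc⟩ := (hprime.prod_mem_iff).1 h
      exact hfI c hc
  have hZ'h : Z'.IsHomogeneous (tZ + ∑ _c : Fin q, D) :=
    htZ.mul (IsHomogeneous.prod _ _ _ fun c _ => hf c)
  obtain ⟨R, hR0, hR⟩ := hfib Z' hZ'I _ hZ'h
  obtain ⟨N, t0, hz⟩ := exists_z hν hR0
  -- the constants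
  set dK : ℝ := (finrank ℚ K : ℝ) with hdK
  have hdK1 : 1 ≤ dK := by
    rw [hdK]
    exact_mod_cast (finrank_pos : 0 < finrank ℚ K)
  set Q0 : ℝ := r0 * dK with hQ0
  have hQ00 : 0 ≤ Q0 := by positivity
  set C3 : ℝ := Cv * Q0 with hC3
  have hC30 : 0 ≤ C3 := by positivity
  set Lg : ℝ := ∑ j : Fin (ν + 1), Real.log (pr j) with hLg
  have hlp : ∀ j : ℕ, 0 < Real.log (pr j) := fun j =>
    Real.log_pos (by exact_mod_cast (pr_prime j).one_lt)
  have hLgj : ∀ j : Fin (ν + 1), Real.log (pr j) ≤ Lg := fun j =>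
    single_le_sum (f := fun j : Fin (ν + 1) => Real.log (pr j)) (fun j _ => (hlp j).le)
      (mem_univ j)
  have hLg0 : 0 < Lg := (hlp ((0 : Fin (ν + 1)) : ℕ)).trans_le (hLgj 0)
  set C5 : ℝ := dK * ((N + 1) * Lg) with hC5
  have hC50 : 0 ≤ C5 := by positivity
  set Cls : ℝ := ∑ c, Cl c with hCls
  have hCls0 : 0 ≤ Cls := sum_nonneg fun c _ => hCl0 c
  refine ⟨r0 * (C5 + S.card * C3) + Ch * Q0 + C3, fun B => ?_⟩
  set W : ℝ := C3 + 1 + δ * (D * |B| + Cls * Q0) with hW
  have hW0 : 0 ≤ W := by positivity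
  have hWC : C3 < W := by
    have : 0 ≤ δ * (D * |B| + Cls * Q0) := by positivity
    linarith
  have hl2 : 0 < Real.log 2 := Real.log_pos (by norm_num)
  obtain ⟨t1, ht1⟩ := exists_nat_gt ((W / κ + (N + 1)) * Lg / Real.log 2)
  obtain ⟨a, ha1, ha2, ha3⟩ := hz (max t0 t1) (le_max_left _ _)
  set t := max t0 t1 with ht
  have ht1' : (W / κ + (N + 1)) * Lg < t * Real.log 2 := by
    rw [div_lt_iff₀ hl2] at ht1
    have h1 : (t1 : ℝ) ≤ t := by exact_mod_cast le_max_right t0 t1
    have h2 := mul_le_mul_of_nonneg_right h1 hl2.le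
    linarith
  have haj : ∀ j : Fin (ν + 1), W / κ ≤ a j := by
    intro j
    have h1 := ha2 j
    have h2 := hlp j
    have h3 : (W / κ + (N + 1)) * Real.log (pr j) ≤ (W / κ + (N + 1)) * Lg :=
      mul_le_mul_of_nonneg_left (hLgj j) (by positivity)
    have h4 : W / κ * Real.log (pr j) ≤ a j * Real.log (pr j) := by
      rw [add_mul] at h3
      linarith
    exact le_of_mul_le_mul_right h4 h2
  -- the point
  set zn : Fin (ν + 1) → ℕ := fun k => ∏ j ∈ univ.erase k, pr j ^ a j with hzn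
  have hpr0 : ∀ j : ℕ, pr j ≠ 0 := fun j => (pr_prime j).ne_zero
  have hzn0 : ∀ k, zn k ≠ 0 := fun k =>
    prod_ne_zero_iff.2 fun j _ => pow_ne_zero _ (hpr0 j)
  have hznK : ∀ k, ((zn k : ℕ) : K) ≠ 0 := fun k => by exact_mod_cast hzn0 k
  have hzne : (fun k => ((zn k : ℕ) : K)) ≠ 0 := by
    intro h
    exact hznK 0 (congrFun h 0)
  obtain ⟨L, i1, i2, i3, x, hrk, hx0, hGx, hadj, hZx, c, hcne, hΦx⟩ :=
    hR (fun k => ((zn k : ℕ) : K)) hzne ha3
  have hfx : ∀ c, aeval x (f c) ≠ 0 := by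
    intro c hc
    apply hZx
    rw [hZ', map_mul, map_prod, prod_eq_zero (mem_univ c) hc, mul_zero]
  have hZx' : aeval x Z ≠ 0 := by
    intro hc
    apply hZx
    rw [hZ', map_mul, hc, zero_mul]
  set d : ℝ := (finrank K L : ℝ) with hd
  have hd0 : 0 ≤ d := Nat.cast_nonneg _
  have hdr : d ≤ r0 := by
    rw [hd]
    exact_mod_cast hrk
  have hLQ : (finrank ℚ L : ℝ) = d * dK := by
    rw [hd, hdK, mul_comm, ← Nat.cast_mul, finrank_mul_finrank ℚ K L]
  have hLQ0 : (finrank ℚ L : ℝ) ≤ Q0 := by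
    rw [hLQ, hQ0]
    exact mul_le_mul_of_nonneg_right hdr (by linarith)
  -- the sizes
  set ρ : Pl K → ℝ := fun v => -(a (J v) * ls v (pr (J v))) with hρ
  have hρW : ∀ v ∈ S, W ≤ ρ v := by
    intro v hv
    have h1 := (hSl v hv).1
    have h2 := haj (J v)
    rw [div_le_iff₀ hκ] at h2
    have h3 := mul_le_mul_of_nonneg_left h1 (Nat.cast_nonneg (α := ℝ) (a (J v)))
    simp only [hρ]
    linarith
  have hvt : ∀ v ∈ S, ∀ w ∈ ab L v, ∃ s : Fin (ν + 1) → Fin q, (∀ k, cl (s k) = k) ∧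
      ∀ k, k ≠ J v → 0 < m (s k) ∧ |m (s k) * pxy v w D (f (s k)) x - ρ v| ≤ C3 := by
    intro v hv w hw
    have h1 : Cv * finrank ℚ L ≤ C3 := mul_le_mul_of_nonneg_left hLQ0 hCv0
    have h2 : Cv * finrank ℚ L < ρ v := by
      have := hρW v hv
      linarith
    obtain ⟨s, hs1, hs2⟩ := hCv L x hx0 hGx hfx v w hw (J v) (ρ v) h2 (by
      intro k hk
      have h3 : ∀ k, wt w * Real.log (av w (aeval x (Φ k))) =
          wt w * Real.log (av w c) + nn v w * ls v (zn k) := by
        intro k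
        have h4 : algebraMap K L ((zn k : ℕ) : K) ≠ 0 := (_root_.map_ne_zero _).2 (hznK k)
        rw [hΦx, map_mul, Real.log_mul ((av w).ne_zero_iff.2 hcne) ((av w).ne_zero_iff.2 h4),
          mul_add, nn_ext (mem_ab.1 hw)]
        rfl
      rw [mul_sub, h3, h3]
      have h5 : ls v (zn (J v)) = 0 := by
        simp only [hzn]
        rw [ls_prod v _ (fun j : Fin (ν + 1) => pr j) a (fun j _ => hpr0 j)]
        refine sum_eq_zero fun i hi => ?_
        rw [(hSl v hv).2 i (ne_of_mem_erase hi), mul_zero]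
      have h6 : ls v (zn k) = a (J v) * ls v (pr (J v)) := by
        simp only [hzn]
        rw [ls_prod v _ (fun j : Fin (ν + 1) => pr j) a (fun j _ => hpr0 j)]
        rw [sum_eq_single (J v)]
        · intro i _ hi
          rw [(hSl v hv).2 i hi, mul_zero]
        · intro h
          exact absurd (mem_erase.2 ⟨hk.symm, mem_univ _⟩) h
      rw [h5, h6]
      simp only [hρ]
      ring)
    exact ⟨s, hs1, fun k hk => ⟨(hs2 k hk).1, (hs2 k hk).2.trans h1⟩⟩
  -- the systems
  have hex : ∀ w : Pl L, ∃ e : Fin (ν + 1) ↪ Fin q, ∀ v ∈ S, w ∈ ab L v → e 0 = c0 (J v) ∧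
      ∀ i : Fin ν, cl (e i.succ) = Equiv.swap 0 (J v) i.succ ∧ 0 < m (e i.succ) ∧
        |m (e i.succ) * pxy v w D (f (e i.succ)) x - ρ v| ≤ C3 := by
    intro w
    by_cases h : ∃ v ∈ S, w ∈ ab L v
    · obtain ⟨v, hv, hw⟩ := h
      obtain ⟨s, hs1, hs2⟩ := hvt v hv w hw
      have hs' : ∀ k, cl (if k = J v then c0 (J v) else s k) = k := by
        intro k
        split_ifs with h
        · rw [hc0, h]
        · exact hs1 k
      refine ⟨(Equiv.swap 0 (J v)).toEmbedding.trans ⟨_, hinjcl _ hs'⟩, fun v' hv' hw' => ?_⟩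
      have := ov_unique (mem_ab.1 hw) (mem_ab.1 hw')
      subst this
      have happ : ∀ k, ((Equiv.swap 0 (J v)).toEmbedding.trans
          ⟨fun k => if k = J v then c0 (J v) else s k, hinjcl _ hs'⟩ :
            Fin (ν + 1) ↪ Fin q) k = if Equiv.swap 0 (J v) k = J v then c0 (J v) else
              s (Equiv.swap 0 (J v) k) := fun k => rfl
      refine ⟨?_, fun i => ?_⟩
      · rw [happ, Equiv.swap_apply_left, if_pos rfl]
      · have hne : Equiv.swap 0 (J v) i.succ ≠ J v := by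
          intro h
          have h1 := Equiv.swap_apply_left (0 : Fin (ν + 1)) (J v)
          have h2 := (Equiv.swap 0 (J v)).injective (h.trans h1.symm)
          exact Fin.succ_ne_zero i h2
        rw [happ, if_neg hne]
        exact ⟨hs1 _, hs2 _ hne⟩
    · exact ⟨⟨c0, hinjcl c0 hc0⟩, fun v hv hw => absurd ⟨v, hv, hw⟩ h⟩
  choose e he using hex
  have hb : ∀ w : Pl L, ∃ β : ℝ, ∀ v ∈ S, w ∈ ab L v → β = (ρ v - C3) / δ := by
    intro w
    by_cases h : ∃ v ∈ S, w ∈ ab L v
    · obtain ⟨v, hv, hw⟩ := h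
      refine ⟨(ρ v - C3) / δ, fun v' hv' hw' => ?_⟩
      have := ov_unique (mem_ab.1 hw) (mem_ab.1 hw')
      subst this
      rfl
    · exact ⟨0, fun v hv hw => absurd ⟨v, hv, hw⟩ h⟩
  choose b hb using hb
  have hδ0 : (0 : ℝ) < δ := by exact_mod_cast hδ
  have hδ1 : (1 : ℝ) ≤ δ := by exact_mod_cast hδ
  have hD1 : (1 : ℝ) ≤ D := by exact_mod_cast hD
  refine ⟨L, i1, i2, i3, x, hrk, hx0, hGx, hadj, hZx', ?_, e, b, ρ, fun w k => hfx _, ?_, ?_⟩
  · -- the height is large
    obtain ⟨v, hv, hJv⟩ := hSJ 0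
    obtain ⟨w, hw⟩ := ab_nonempty L v
    obtain ⟨s, hs1, hs2⟩ := hvt v hv w hw
    have hk : (⟨1, by omega⟩ : Fin (ν + 1)) ≠ J v := by
      rw [hJv]
      intro h
      exact one_ne_zero (Fin.ext_iff.1 h)
    obtain ⟨h1, h2⟩ := hs2 _ hk
    set c1 := s ⟨1, by omega⟩ with hc1
    have hmδ : (m c1 : ℝ) ≤ δ := by
      have h3 := single_le_sum (f := m) (fun c _ => Nat.zero_le _)
        (mem_filter.2 ⟨mem_univ c1, rfl⟩ : c1 ∈ univ.filter (fun c => cl c = cl c1))
      rw [hm] at h3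
      exact_mod_cast h3
    have h3 := hCl c1 L {w} x hx0 (hfx c1)
    rw [sum_singleton] at h3
    have h4 : pxy v w D (f c1) x ≤ wt w * max 0 (lam (av w) D (bc L (f c1)) x) := by
      have hnn := one_le_nn (mem_ab.1 hw)
      unfold pxy
      refine max_le (mul_nonneg (wt_nonneg w) (le_max_left _ _)) ?_
      rw [div_le_iff₀ (by linarith)]
      have h5 : wt w * lam (av w) D (bc L (f c1)) x ≤
          wt w * max 0 (lam (av w) D (bc L (f c1)) x) :=
        mul_le_mul_of_nonneg_left (le_max_right _ _) (wt_nonneg w)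
      have h6 : 0 ≤ wt w * max 0 (lam (av w) D (bc L (f c1)) x) :=
        mul_nonneg (wt_nonneg w) (le_max_left _ _)
      nlinarith
    have h5 : Cl c1 * finrank ℚ L ≤ Cls * Q0 := by
      have h6 := single_le_sum (f := Cl) (fun c _ => hCl0 c) (mem_univ c1)
      exact mul_le_mul h6 hLQ0 (Nat.cast_nonneg _) hCls0
    have h6 : pxy v w D (f c1) x ≤ D * logHeight x + Cls * Q0 := by linarith
    have hhx := logHeight_nonneg x
    have h7 : (m c1 : ℝ) * pxy v w D (f c1) x ≤ δ * (D * logHeight x + Cls * Q0) :=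
      mul_le_mul hmδ h6 (le_max_left _ _) hδ0.le
    have h8 := hρW v hv
    have h8' := (abs_le.1 h2).1
    have h9 : δ * (D * |B| + Cls * Q0) < δ * (D * logHeight x + Cls * Q0) := by linarith
    have h10 := lt_of_mul_lt_mul_left h9 hδ0.le
    have h11 : (D : ℝ) * |B| < D * logHeight x := by linarith
    have h12 := lt_of_mul_lt_mul_left h11 (by linarith)
    exact (le_abs_self B).trans_lt h12
  · -- the pattern
    intro v hv
    refine ⟨?_, fun w hw => ⟨?_, fun k hk => ?_⟩⟩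
    · have h1 := hρW v hv
      have h2 : |B| ≤ δ * (D * |B| + Cls * Q0) := by
        have h3 : 1 * |B| ≤ D * |B| := mul_le_mul_of_nonneg_right hD1 (abs_nonneg B)
        have h4 : 0 ≤ Cls * Q0 := by positivity
        have h5 : 1 * (D * |B| + Cls * Q0) ≤ δ * (D * |B| + Cls * Q0) :=
          mul_le_mul_of_nonneg_right hδ1 (by positivity)
        linarith
      have h3 := le_abs_self B
      linarith
    · have h1 : (fun k => cl (e w k)) = Equiv.swap 0 (J v) := by
        funext k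
        refine Fin.cases ?_ (fun i => ?_) k
        · show cl (e w 0) = _
          rw [(he w v hv hw).1, hc0, Equiv.swap_apply_left]
        · exact ((he w v hv hw).2 i).1
      rw [h1]
      exact (Equiv.swap 0 (J v)).bijective
    · obtain ⟨i, rfl⟩ := Fin.exists_succ_eq.2 hk
      refine ((he w v hv hw).2 i).2.2.trans ?_
      have : 0 ≤ r0 * (C5 + S.card * C3) + Ch * Q0 := by positivity
      linarith
  · -- the costs
    have h1 : ∑ v ∈ S, d * ((ρ v - C3) * ν / (δ * (ν + 1))) ≤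
        ∑ v ∈ S, (∑ w ∈ ab L v, nn v w * b w -
          finrank K L * ∑ e', mean ν fun u => pm (clu (ab L v) e e') fun w =>
            b w - ∑ k, u k * pxy v w D (f (e w k)) x) := by
      refine sum_le_sum fun v hv => ?_
      exact cost_gen hδ f cl m hm (J v) (c0 (J v)) (by
        have := hρW v hv
        linarith) e (fun w hw => (he w v hv hw).1) (fun w hw i => by
          obtain ⟨g1, g2, g3⟩ := (he w v hv hw).2 i
          refine ⟨g1, g2, ?_⟩
          have := (abs_le.1 g3).1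
          linarith) b
        (fun w hw => hb w v hv hw)
    refine le_trans ?_ h1
    have h2 : ∑ v ∈ S, ρ v = ∑ j : Fin (ν + 1), a j * (dK * Real.log (pr j)) := by
      rw [← sum_fiberwise S J ρ]
      refine sum_congr rfl fun j _ => ?_
      have h3 : ∑ v ∈ S.filter (fun v => J v = j), ρ v =
          ∑ v ∈ S.filter (fun v => J v = j), -(a j * ls v (pr j)) := by
        refine sum_congr rfl fun v hv => ?_
        simp only [hρ]
        rw [(mem_filter.1 hv).2]
      rw [h3, sum_neg_distrib, ← mul_sum, hSs j]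
      ring
    have h3 : (ν + 1) * (dK * (t * Real.log 2)) - C5 ≤ ∑ v ∈ S, ρ v := by
      rw [h2]
      have h4 : ∑ j : Fin (ν + 1), dK * (t * Real.log 2 - (N + 1) * Real.log (pr j)) ≤
          ∑ j : Fin (ν + 1), a j * (dK * Real.log (pr j)) := by
        refine sum_le_sum fun j _ => ?_
        have := mul_le_mul_of_nonneg_left (ha2 j) (by linarith : (0 : ℝ) ≤ dK)
        linarith
      refine le_trans (le_of_eq ?_) h4
      rw [← mul_sum, sum_sub_distrib, sum_const, card_univ, Fintype.card_fin, nsmul_eq_mul,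
        ← mul_sum, ← hLg, hC5]
      push_cast
      ring
    have h4 : ∑ v ∈ S, d * ((ρ v - C3) * ν / (δ * (ν + 1))) =
        d * (ν / (δ * (ν + 1))) * (∑ v ∈ S, ρ v - S.card * C3) := by
      have h5 : ∀ v, d * ((ρ v - C3) * ν / (δ * (ν + 1))) =
          d * (ν / (δ * (ν + 1))) * (ρ v - C3) := fun v => by ring
      rw [sum_congr rfl fun v _ => h5 v, ← mul_sum, sum_sub_distrib, sum_const, nsmul_eq_mul]
    rw [h4]
    have hcoef : (0 : ℝ) ≤ ν / (δ * (ν + 1)) := by positivity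
    have hcoef1 : (ν : ℝ) / (δ * (ν + 1)) ≤ 1 := by
      rw [div_le_one (by positivity)]
      nlinarith [Nat.cast_nonneg (α := ℝ) ν]
    have h5 : d * (ν / (δ * (ν + 1))) * ((ν + 1) * (dK * (t * Real.log 2)) - C5 - S.card * C3) ≤
        d * (ν / (δ * (ν + 1))) * (∑ v ∈ S, ρ v - S.card * C3) :=
      mul_le_mul_of_nonneg_left (by linarith) (by positivity)
    refine le_trans ?_ h5
    have h6 : d * (ν / (δ * (ν + 1))) * ((ν + 1) * (dK * (t * Real.log 2)) - C5 - S.card * C3) =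
        d * dK * (ν * (t * Real.log 2)) / δ - d * (ν / (δ * (ν + 1))) * (C5 + S.card * C3) := by
      have : (ν : ℝ) + 1 ≠ 0 := by positivity
      field_simp
      ring
    rw [h6]
    have h7 : d * (ν / (δ * (ν + 1))) * (C5 + S.card * C3) ≤ r0 * (C5 + S.card * C3) := by
      refine mul_le_mul_of_nonneg_right ?_ (by positivity)
      calc d * (ν / (δ * (ν + 1))) ≤ d * 1 := mul_le_mul_of_nonneg_left hcoef1 hd0
        _ ≤ r0 := by rw [mul_one]; exact hdr
    -- the height
    have h8 := hCh L x hx0 hGx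
    have h9 : logHeight (fun k => aeval x (Φ k)) = logHeight (fun k => ((zn k : ℕ) : L)) := by
      have h10 : (fun k => aeval x (Φ k)) = c • (fun k => ((zn k : ℕ) : L)) := by
        funext k
        rw [hΦx, map_natCast]
        rfl
      rw [h10, logHeight_smul_eq_logHeight _ hcne]
    have h10 : (fun k => ((zn k : ℕ) : L)) ≠ 0 := by
      intro h
      have h11 : ((zn 0 : ℕ) : L) = 0 := congrFun h 0
      exact hzn0 0 (by exact_mod_cast h11)
    have h11 : ∀ k, zn k ≤ (2 ^ t) ^ ν := by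
      intro k
      simp only [hzn]
      refine (prod_le_pow_card _ _ _ fun j _ => ha1 j).trans ?_
      rw [card_erase_of_mem (mem_univ k), card_univ, Fintype.card_fin, Nat.add_sub_cancel]
    have h12 := height_nat (K := L) zn h10 ((2 ^ t) ^ ν) (Nat.one_le_pow _ _ (by positivity)) h11
    have h13 : Real.log (((2 ^ t) ^ ν : ℕ) : ℝ) = ν * (t * Real.log 2) := by
      push_cast
      rw [Real.log_pow, Real.log_pow]
    rw [h13, hLQ] at h12
    rw [h9] at h8
    have h14 : Ch * finrank ℚ L ≤ Ch * Q0 := mul_le_mul_of_nonneg_left hLQ0 hCh0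
    have h15 : (δ : ℝ) * (D * logHeight x) ≤ d * dK * (ν * (t * Real.log 2)) + Ch * Q0 := by
      push_cast at h8
      linarith
    have h16 : D * logHeight x ≤ (d * dK * (ν * (t * Real.log 2)) + Ch * Q0) / δ := by
      rw [le_div_iff₀ hδ0]
      linarith
    have h17 : Ch * Q0 / δ ≤ Ch * Q0 := div_le_self (by positivity) hδ1
    rw [add_div] at h16
    linarith

end Pool.Agent.H430.Os
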