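import Pool.Agent.H430.Os.Main

/-!
The height of the image under a finite morphism, uniformly in the field.
-/

set_option autoImplicit false

namespace Pool.Agent.H430.Os

open MvPolynomial Finset NumberField Height Module
open Pool.Agent.W180.OP Pool.Agent.W180.TP Pool.Agent.TH875 Pool.Agent.NH28

variable {K : Type} [Field K] [NumberField K]

theorem height_phi {n m s N : ℕ} (G : Fin m → MvPolynomial (Fin n) K) (g : Fin m → ℕ)
    (hG : ∀ k, (G k).IsHomogeneous (g k)) (Φ : Fin s → MvPolynomial (Fin n) K)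
    (hΦ : ∀ k, (Φ k).IsHomogeneous N)
    (h0 : ∀ (L : Type) [Field L] [Algebra K L] (x : Fin n → L), (∀ k, aeval x (G k) = 0) →
      (∀ k, aeval x (Φ k) = 0) → x = 0) :
    ∃ C : ℝ, 0 ≤ C ∧ ∀ (L : Type) [Field L] [NumberField L] [Algebra K L] (x : Fin n → L),
      x ≠ 0 → (∀ k, aeval x (G k) = 0) →
        (N : ℝ) * logHeight x ≤ logHeight (fun k => aeval x (Φ k)) + C * finrank ℚ L := by
  classical
  have h1 : ∀ a, ∃ (M : ℕ) (A : Fin s → MvPolynomial (Fin n) K) (B : Fin m → MvPolynomial (Fin n) K),
      X a ^ M = ∑ i, A i * Φ i + ∑ k, B k * G k := by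
    intro a
    have h2 : (X a : MvPolynomial (Fin n) K) ∈
        (Ideal.span (Set.range (Sum.elim Φ G))).radical := by
      refine mem_rad _ _ fun L _ _ x hx => ?_
      have h3 := h0 L x (fun k => hx (Sum.inr k)) (fun k => hx (Sum.inl k))
      rw [h3, aeval_X]
      rfl
    obtain ⟨M, hM⟩ := h2
    obtain ⟨A, hA⟩ := Ideal.mem_span_range_iff_exists_fun.1 hM
    rw [Fintype.sum_sum_type] at hA
    exact ⟨M, fun i => A (Sum.inl i), fun k => A (Sum.inr k), hA.symm⟩
  choose M0 A0 B0 hAB using h1
  set M : ℕ := ∑ a, M0 a + ∑ k, g k + N with hM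
  have hM0 : ∀ a, M0 a ≤ M := fun a => by
    have := Finset.single_le_sum (f := M0) (fun _ _ => Nat.zero_le _) (Finset.mem_univ a)
    omega
  have hMg : ∀ k, g k ≤ M := fun k => by
    have := Finset.single_le_sum (f := g) (fun _ _ => Nat.zero_le _) (Finset.mem_univ k)
    omega
  have hMN : N ≤ M := by omega
  set e : ℕ := M - N with he
  set A : Fin n → Fin s → MvPolynomial (Fin n) K := fun a k =>
    homogeneousComponent e (X a ^ (M - M0 a) * A0 a k) with hA
  have hAh : ∀ a k, (A a k).IsHomogeneous e := fun a k => homogeneousComponent_isHomogeneous _ _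
  have hid : ∀ a, (X a : MvPolynomial (Fin n) K) ^ M = ∑ k, A a k * Φ k +
      ∑ k, homogeneousComponent (M - g k) (X a ^ (M - M0 a) * B0 a k) * G k := by
    intro a
    have h3 : homogeneousComponent M ((X a : MvPolynomial (Fin n) K) ^ M) = X a ^ M :=
      homogeneousComponent_eq_self (by
        have := (isHomogeneous_X K a).pow M
        simpa using this)
    have e1 : (X a : MvPolynomial (Fin n) K) ^ M = X a ^ (M - M0 a) * X a ^ M0 a := by
      rw [← pow_add]
      congr 1
      have := hM0 a
      omega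
    rw [← h3, e1, hAB, mul_add, Finset.mul_sum, Finset.mul_sum, map_add, map_sum, map_sum]
    congr 1
    · refine Finset.sum_congr rfl fun k _ => ?_
      rw [← mul_assoc]
      have h5 := homComp_mul (X a ^ (M - M0 a) * A0 a k) (Φ k) e N (hΦ k)
      rwa [he, Nat.sub_add_cancel hMN] at h5
    · refine Finset.sum_congr rfl fun k _ => ?_
      rw [← mul_assoc]
      have h5 := homComp_mul (X a ^ (M - M0 a) * B0 a k) (G k) (M - g k) (g k) (hG k)
      rwa [Nat.sub_add_cancel (hMg k)] at h5
  choose c hc using fun a k => form_seg (A a k) (hAh a k)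
  set r := Fintype.card ((Fin e → Fin n) × Fin s) with hr
  set E : ((Fin e → Fin n) × Fin s) ≃ Fin r := Fintype.equivFin _ with hE
  obtain ⟨C, hC0, hC⟩ := lin_le (K := K) (fun (a : Fin n) (i : Fin r) =>
    c a (E.symm i).2 (E.symm i).1)
  refine ⟨C, hC0, fun L _ _ _ x hx hGx => ?_⟩
  set V : ((Fin e → Fin n) × Fin s) → L := fun t => (∏ l, x (t.1 l)) * aeval x (Φ t.2) with hV
  have hne : (fun k => aeval x (Φ k)) ≠ 0 := by
    intro h
    exact hx (h0 L x hGx fun k => congrFun h k)
  have hpne : (fun j : Fin e → Fin n => ∏ l, x (j l)) ≠ 0 := by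
    obtain ⟨b, hb⟩ := Function.ne_iff.1 hx
    intro h
    have h4 : ∏ l : Fin e, x ((fun _ => b) l) = 0 := congrFun h (fun _ => b)
    exact (prod_ne_zero_iff.2 fun _ _ => hb) h4
  have hVh : logHeight V = e * logHeight x + logHeight (fun k => aeval x (Φ k)) := by
    have h4 := logHeight_fun_mul_eq hpne hne
    have h5 := logHeight_fun_prod_eq (K := L) (α := Fin e) (ι := fun _ => Fin n) (x := fun _ => x)
      (fun _ => hx)
    rw [Finset.sum_const, Finset.card_univ, Fintype.card_fin, nsmul_eq_mul] at h5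
    rw [hV, h4]
    congr 1
  have hVE : logHeight (fun i => V (E.symm i)) = logHeight V := logHeight_comp_equiv E.symm V
  have h6 : (fun a => ∑ i : Fin r, algebraMap K L (c a (E.symm i).2 (E.symm i).1) *
      V (E.symm i)) = x ^ M := by
    funext a
    rw [Equiv.sum_comp E.symm (fun t : (Fin e → Fin n) × Fin s =>
      algebraMap K L (c a t.2 t.1) * V t), Fintype.sum_prod_type_right]
    have h7 := congrArg (aeval x) (hid a)
    rw [map_add, map_sum, map_sum, map_pow, aeval_X] at h7
    have h8 : ∑ k, aeval x (homogeneousComponent (M - g k) (X a ^ (M - M0 a) * B0 a k) * G k) =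
        0 := sum_eq_zero fun k _ => by rw [map_mul, hGx k, mul_zero]
    rw [h8, add_zero] at h7
    rw [Pi.pow_apply, h7]
    refine sum_congr rfl fun k _ => ?_
    rw [map_mul]
    conv_rhs => rw [hc a k]
    rw [map_sum, sum_mul]
    refine sum_congr rfl fun j _ => ?_
    rw [map_mul, aeval_C, map_prod]
    simp only [hV, aeval_X]
    ring
  have h9 := hC L (fun i => V (E.symm i))
  rw [h6, logHeight_pow, hVE, hVh] at h9
  have h10 : (M : ℝ) = e + N := by
    rw [he]
    have : M = (M - N) + N := by omega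
    exact_mod_cast this
  rw [h10] at h9
  linarith

end Pool.Agent.H430.Os
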