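import Pool.Agent.H430.Os.Vtx

/-!
Points near the vertices are near one form of each of the other classes.
-/

set_option autoImplicit false

namespace Pool.Agent.H430.Os

open MvPolynomial Finset NumberField IsDedekindDomain Height Module
open Pool.Agent.W180.OP Pool.Agent.W180.TP Pool.Agent.TH875 Pool.Agent.NH28
open Pool.Agent.H430.Ot (pxy)

variable {K : Type} [Field K] [NumberField K]

/-- near the vertices -/
theorem vtx {n mG q ν D δ : ℕ} (hδ : 1 ≤ δ) (G : Fin mG → MvPolynomial (Fin n) K)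
    (g : Fin mG → ℕ) (hG : ∀ k, (G k).IsHomogeneous (g k)) (f : Fin q → MvPolynomial (Fin n) K)
    (hf : ∀ c, (f c).IsHomogeneous D)
    (hgp : ∀ (s : Fin (ν + 1) ↪ Fin q) (L : Type) [Field L] [Algebra K L] (x : Fin n → L),
      (∀ k, aeval x (G k) = 0) → (∀ k, aeval x (f (s k)) = 0) → x = 0)
    (cl : Fin q → Fin (ν + 1)) (m : Fin q → ℕ)
    (hm : ∀ k, ∑ c ∈ univ.filter (fun c => cl c = k), m c = δ) :
    ∃ C : ℝ, 0 ≤ C ∧ ∀ (L : Type) [Field L] [NumberField L] [Algebra K L] (x : Fin n → L),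
      x ≠ 0 → (∀ k, aeval x (G k) = 0) → (∀ c, aeval x (f c) ≠ 0) →
      ∀ (v : Pl K), ∀ w ∈ ab L v, ∀ (j : Fin (ν + 1)) (ρ : ℝ), C * finrank ℚ L < ρ →
        (∀ k, k ≠ j → nn v w * ρ = wt w * (Real.log (av w (aeval x (PhiF f cl m j))) -
          Real.log (av w (aeval x (PhiF f cl m k))))) →
        ∃ s : Fin (ν + 1) → Fin q, (∀ k, cl (s k) = k) ∧ ∀ k, k ≠ j → 0 < m (s k) ∧
          |m (s k) * pxy v w D (f (s k)) x - ρ| ≤ C * finrank ℚ L := by
  classical
  choose Cs hCs0 hCs using fun s : Fin (ν + 1) ↪ Fin q => not_all (Nat.succ_pos ν) G g hG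
    (fun k => f (s k)) (fun k => hf _) (hgp s)
  choose Ch hCh0 hCh using fun k : Fin (ν + 1) => form_ub (PhiF f cl m k) (PhiF_hom f cl m hf hm k)
  choose Cf hCf0 hCf using fun c => form_ub (f c) (hf c)
  set C1 : ℝ := ∑ s, Cs s with hC1
  set C2 : ℝ := ∑ k, Ch k with hC2
  set C3 : ℝ := ∑ c, Cf c with hC3
  have hC10 : 0 ≤ C1 := sum_nonneg fun s _ => hCs0 s
  have hC20 : 0 ≤ C2 := sum_nonneg fun k _ => hCh0 k
  have hC30 : 0 ≤ C3 := sum_nonneg fun c _ => hCf0 c
  refine ⟨C2 + δ * C1 + δ * C3, by positivity, fun L _ _ _ x hx hGx hfx v w hw j ρ hρ' hΦ => ?_⟩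
  set Q : ℝ := (finrank ℚ L : ℝ) with hQ
  have hQ1 : 1 ≤ Q := by
    rw [hQ]
    exact_mod_cast (finrank_pos : 0 < finrank ℚ L)
  have hnn : 1 ≤ nn v w := one_le_nn (mem_ab.1 hw)
  set l : Fin q → ℝ := fun c => wt w * lam (av w) D (bc L (f c)) x with hl
  have hna : ∀ s : Fin (ν + 1) ↪ Fin q, ∃ k, l (s k) ≤ C1 * Q := by
    intro s
    obtain ⟨k, hk⟩ := hCs s L w x hx hGx fun k => hfx _
    refine ⟨k, hk.trans ?_⟩
    have := single_le_sum (f := Cs) (fun s _ => hCs0 s) (mem_univ s)
    exact mul_le_mul_of_nonneg_right this (by linarith)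
  have hlk : ∀ k, wt w * lam (av w) (δ * D) (bc L (PhiF f cl m k)) x =
      ∑ c ∈ univ.filter (fun c => cl c = k), (m c : ℝ) * l c := by
    intro k
    rw [lam_PhiF f cl m (av w) hm hx hfx k, mul_sum]
    exact sum_congr rfl fun c _ => by simp only [hl]; ring
  have hbig : ∀ k, k ≠ j → nn v w * ρ - C2 * Q ≤
      ∑ c ∈ univ.filter (fun c => cl c = k), (m c : ℝ) * l c := by
    intro k hk
    have h1 := (hΦ k hk).le
    have h2 := hCh j L w x hx (PhiF_ne f cl m x hfx j)
    have h3 : Ch j * Q ≤ C2 * Q := by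
      have := single_le_sum (f := Ch) (fun s _ => hCh0 s) (mem_univ j)
      exact mul_le_mul_of_nonneg_right this (by linarith)
    rw [← hlk k, lam_eq (av w) (δ * D) _ hx (by rw [eval_bc]; exact PhiF_ne f cl m x hfx k),
      eval_bc]
    rw [lam_eq (av w) (δ * D) _ hx (by rw [eval_bc]; exact PhiF_ne f cl m x hfx j),
      eval_bc] at h2
    have h4 : wt w * (((δ * D : ℕ) : ℝ) * Real.log (nrm (av w) x) -
        Real.log (av w (aeval x (PhiF f cl m k)))) =
        wt w * (((δ * D : ℕ) : ℝ) * Real.log (nrm (av w) x) -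
          Real.log (av w (aeval x (PhiF f cl m j)))) +
        wt w * (Real.log (av w (aeval x (PhiF f cl m j))) -
          Real.log (av w (aeval x (PhiF f cl m k)))) := by ring
    rw [h4]
    linarith
  have hρ : (C2 + δ * C1) * Q < ρ := by
    have : 0 ≤ δ * C3 * Q := by positivity
    linarith
  have hρ0 : 0 < ρ := by
    have : 0 ≤ (C2 + δ * C1) * Q := by positivity
    linarith
  have hlb : ∀ c, -(C3 * Q) ≤ l c := by
    intro c
    have h1 := hCf c L w x hx (hfx c)
    have h2 := single_le_sum (f := Cf) (fun c _ => hCf0 c) (mem_univ c)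
    have h3 : Cf c * Q ≤ C3 * Q := mul_le_mul_of_nonneg_right h2 (by linarith)
    simp only [hl]
    linarith
  have hnρ : ρ ≤ nn v w * ρ := le_mul_of_one_le_left hρ0.le hnn
  have hδsum : ∀ k, ∑ c ∈ univ.filter (fun c => cl c = k), (m c : ℝ) = δ := by
    intro k
    rw [← hm k]
    push_cast
    rfl
  -- a near form in each class
  have hex : ∀ k, ∃ c, cl c = k ∧ (k ≠ j → 0 < m c ∧ C1 * Q < l c) := by
    intro k
    by_cases hk : k = j
    · have h1 : (univ.filter (fun c => cl c = k)).Nonempty := by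
        rw [nonempty_iff_ne_empty]
        intro h
        have := hm k
        rw [h, sum_empty] at this
        omega
      obtain ⟨c, hc⟩ := h1
      exact ⟨c, (mem_filter.1 hc).2, fun h => absurd hk h⟩
    · by_contra hcon
      push Not at hcon
      have h1 : ∑ c ∈ univ.filter (fun c => cl c = k), (m c : ℝ) * l c ≤
          ∑ c ∈ univ.filter (fun c => cl c = k), (m c : ℝ) * (C1 * Q) := by
        refine sum_le_sum fun c hc => ?_
        rcases Nat.eq_zero_or_pos (m c) with h | h
        · rw [h]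
          simp
        · exact mul_le_mul_of_nonneg_left ((hcon c (mem_filter.1 hc).2).2 h) (Nat.cast_nonneg _)
      rw [← sum_mul, hδsum] at h1
      have h2 := hbig k hk
      linarith
  choose s hs1 hs2 using hex
  refine ⟨s, hs1, fun k hk => ⟨(hs2 k hk).1, ?_⟩⟩
  -- the other forms of the class are not near
  have hoth : ∀ c', cl c' = k → c' ≠ s k → l c' ≤ C1 * Q := by
    intro c' hc' hne
    have hinj : Function.Injective (Function.update s j c') := by
      intro a b hab
      by_cases ha : a = j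
      · by_cases hb : b = j
        · rw [ha, hb]
        · rw [ha, Function.update_self, Function.update_of_ne hb] at hab
          have h1 : k = b := by rw [← hc', hab, hs1]
          rw [hab, ← h1] at hne
          exact absurd rfl hne
      · by_cases hb : b = j
        · rw [hb, Function.update_self, Function.update_of_ne ha] at hab
          have h1 : k = a := by rw [← hc', ← hab, hs1]
          rw [← hab, ← h1] at hne
          exact absurd rfl hne
        · rw [Function.update_of_ne ha, Function.update_of_ne hb] at hab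
          rw [← hs1 a, hab, hs1]
    obtain ⟨i, hi⟩ := hna ⟨_, hinj⟩
    by_cases hij : i = j
    · rw [hij] at hi
      simpa using hi
    · have h1 : (⟨Function.update s j c', hinj⟩ : Fin (ν + 1) ↪ Fin q) i = s i :=
        Function.update_of_ne hij _ _
      rw [h1] at hi
      have := (hs2 i hij).2
      linarith
  have h1 : ∑ c ∈ univ.filter (fun c => cl c = k), (m c : ℝ) * l c ≤
      m (s k) * l (s k) + δ * (C1 * Q) := by
    rw [← add_sum_erase _ _ (mem_filter.2 ⟨mem_univ (s k), hs1 k⟩)]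
    refine add_le_add le_rfl ?_
    calc _ ≤ ∑ c ∈ (univ.filter (fun c => cl c = k)).erase (s k), (m c : ℝ) * (C1 * Q) := by
          refine sum_le_sum fun c hc => ?_
          have h2 := mem_erase.1 hc
          exact mul_le_mul_of_nonneg_left (hoth c (mem_filter.1 h2.2).2 h2.1) (Nat.cast_nonneg _)
      _ ≤ ∑ c ∈ univ.filter (fun c => cl c = k), (m c : ℝ) * (C1 * Q) :=
          sum_le_sum_of_subset_of_nonneg (erase_subset _ _) fun _ _ _ => by positivity
      _ = δ * (C1 * Q) := by rw [← sum_mul, hδsum]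
  have h2 := hbig k hk
  have h3 : nn v w * (ρ - (C2 + δ * C1) * Q) ≤ m (s k) * l (s k) := by
    have h4 : (C2 + δ * C1) * Q ≤ nn v w * ((C2 + δ * C1) * Q) :=
      le_mul_of_one_le_left (by positivity) hnn
    have h5 : nn v w * (ρ - (C2 + δ * C1) * Q) = nn v w * ρ - nn v w * ((C2 + δ * C1) * Q) := by
      ring
    linarith
  have hnn0 : 0 < nn v w := by linarith
  have h4 : l (s k) / nn v w ≤ pxy v w D (f (s k)) x := le_max_right _ _
  have hlow : ρ - (C2 + δ * C1) * Q ≤ m (s k) * pxy v w D (f (s k)) x := by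
    calc ρ - (C2 + δ * C1) * Q ≤ m (s k) * l (s k) / nn v w := by
          rw [le_div_iff₀ hnn0]
          linarith
      _ = m (s k) * (l (s k) / nn v w) := by ring
      _ ≤ _ := mul_le_mul_of_nonneg_left h4 (Nat.cast_nonneg _)
  -- the upper bound
  have hj : ∀ c', cl c' = j → l c' ≤ C1 * Q := by
    intro c' hc'
    have hcl : ∀ i, cl (Function.update s j c' i) = i := by
      intro i
      by_cases hi : i = j
      · rw [hi, Function.update_self, hc']
      · rw [Function.update_of_ne hi, hs1]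
    have hinj : Function.Injective (Function.update s j c') := by
      intro a b hab
      rw [← hcl a, hab, hcl]
    obtain ⟨i, hi⟩ := hna ⟨_, hinj⟩
    by_cases hij : i = j
    · rw [hij] at hi
      simpa using hi
    · have h1 : (⟨Function.update s j c', hinj⟩ : Fin (ν + 1) ↪ Fin q) i = s i :=
        Function.update_of_ne hij _ _
      rw [h1] at hi
      have := (hs2 i hij).2
      linarith
  have h5 : wt w * lam (av w) (δ * D) (bc L (PhiF f cl m j)) x ≤ δ * (C1 * Q) := by
    rw [hlk j, ← hδsum j, sum_mul]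
    exact sum_le_sum fun c hc => mul_le_mul_of_nonneg_left (hj c (mem_filter.1 hc).2)
      (Nat.cast_nonneg _)
  have h6 : ∑ c ∈ univ.filter (fun c => cl c = k), (m c : ℝ) * l c =
      wt w * lam (av w) (δ * D) (bc L (PhiF f cl m j)) x + nn v w * ρ := by
    rw [← hlk k, hΦ k hk, lam_eq (av w) (δ * D) _ hx (by rw [eval_bc]; exact PhiF_ne f cl m x hfx k),
      eval_bc, lam_eq (av w) (δ * D) _ hx (by rw [eval_bc]; exact PhiF_ne f cl m x hfx j), eval_bc]
    ring
  have h7 : m (s k) * l (s k) - δ * (C3 * Q) ≤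
      ∑ c ∈ univ.filter (fun c => cl c = k), (m c : ℝ) * l c := by
    rw [← add_sum_erase _ _ (mem_filter.2 ⟨mem_univ (s k), hs1 k⟩), sub_eq_add_neg]
    refine add_le_add le_rfl ?_
    calc -(δ * (C3 * Q)) = ∑ c ∈ univ.filter (fun c => cl c = k), (m c : ℝ) * (-(C3 * Q)) := by
          rw [← sum_mul, hδsum]
          ring
      _ ≤ ∑ c ∈ (univ.filter (fun c => cl c = k)).erase (s k), (m c : ℝ) * (-(C3 * Q)) := by
          rw [← add_sum_erase _ _ (mem_filter.2 ⟨mem_univ (s k), hs1 k⟩)]
          have : 0 ≤ (m (s k) : ℝ) * (C3 * Q) := by positivity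
          linarith
      _ ≤ _ := sum_le_sum fun c _ => mul_le_mul_of_nonneg_left (hlb c) (Nat.cast_nonneg _)
  have h8 : (m (s k) : ℝ) * pxy v w D (f (s k)) x ≤ ρ + (δ * C1 + δ * C3) * Q := by
    have h9 : (m (s k) : ℝ) * (l (s k) / nn v w) ≤ ρ + (δ * C1 + δ * C3) * Q := by
      rw [← mul_div_assoc, div_le_iff₀ hnn0]
      have h10 : (δ * C1 + δ * C3) * Q ≤ (δ * C1 + δ * C3) * Q * nn v w :=
        le_mul_of_one_le_right (by positivity) hnn
      have h11 : (ρ + (δ * C1 + δ * C3) * Q) * nn v w =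
          nn v w * ρ + (δ * C1 + δ * C3) * Q * nn v w := by ring
      have h12 : (δ * C1 + δ * C3) * Q = δ * (C1 * Q) + δ * (C3 * Q) := by ring
      linarith
    have h10 : pxy v w D (f (s k)) x = max 0 (l (s k) / nn v w) := rfl
    rw [h10, mul_max_of_nonneg _ _ (Nat.cast_nonneg _), mul_zero]
    exact max_le (by positivity) h9
  rw [abs_le]
  have h9 : 0 ≤ C2 * Q := by positivity
  have h10 : 0 ≤ δ * C3 * Q := by positivity
  constructor <;> linarith

end Pool.Agent.H430.Os
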