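import Pool.Agent.H430.Os.Core
import Pool.Agent.H430.Os.Cost

/-!
The costs of the transport cannot be lowered.
-/

set_option autoImplicit false

namespace Pool.Agent.H430.Os

open Finset NumberField IsDedekindDomain Height Module Polynomial
open Pool.Agent.W180.OP (Pl av wt fv nrm wt_nonneg le_nrm exists_nrm nrm_pos nrm_nonneg)
open Pool.Agent.NH28 (nn ab mem_ab sum_nn one_le_nn nn_ext nn_nonneg Ov ov_unique)
open Pool.Agent.H430.Cl
open Pool.Agent.H430.Ot

variable {K : Type} [Field K] [NumberField K] {q : ℕ}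

theorem sharp_ot (a : Fin q → K) (ha : Function.Injective a) (m0 m1 : Fin q → ℕ) {r : ℕ}
    (hr : 1 ≤ r) (h0 : ∑ i, m0 i = r) (h1 : ∑ i, m1 i = r) (hdj : ∀ i, m0 i = 0 ∨ m1 i = 0)
    (hg : ∀ d, (∀ i, d ∣ m0 i ∧ d ∣ m1 i) → d = 1) :
    ∃ (S : Finset (Pl K)) (P : Pl K → Fin q → ℕ) (C : ℝ), (∀ v ∈ S, P v = m0 ∨ P v = m1) ∧
      (∃ v ∈ S, P v = m0) ∧ (∃ v ∈ S, P v = m1) ∧ ∀ B : ℝ,
        ∃ (L : Type) (_ : Field L) (_ : NumberField L) (_ : Algebra K L) (x : L),
          IntermediateField.adjoin K {x} = ⊤ ∧ finrank K L = r ∧ B < logHeight ![x, 1] ∧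
          ∃ (e : Pl L → Fin q) (b : Pl L → ℝ),
            (∀ w k, MvPolynomial.aeval ![x, 1] (Yl a (e w) k) ≠ 0) ∧
            (∀ v ∈ S, ∀ i, ∑ w ∈ clu (ab L v) e i, nn v w = P v i) ∧
            logHeight ![x, 1] - C ≤
              ∑ v ∈ S, (∑ w ∈ ab L v, nn v w * b w - finrank K L * ∑ e', mean 1 fun u =>
                pm (clu (ab L v) e e') fun w =>
                  b w - ∑ k, u k * pxy v w 1 (Yl a (e w) k) ![x, 1]) := by
  classical
  obtain ⟨S, P, ⟨v0, hv0, hP0⟩, ⟨v1, hv1, hP1⟩, c, C, _, hc, hC, _, _, t1, hcore⟩ :=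
    core a ha m0 m1 hr h0 h1 hdj hg
  refine ⟨S, mv P m0 m1, 2 * C + S.card * (r * c), ?_, ⟨v0, hv0, ?_⟩, ⟨v1, hv1, ?_⟩, ?_⟩
  · intro v _
    unfold mv
    split_ifs
    · exact Or.inl rfl
    · exact Or.inr rfl
  · unfold mv
    rw [if_pos hP0]
  · unfold mv
    rw [if_neg hP1]
  intro B
  have hl3 : 0 < Real.log 3 := Real.log_pos (by norm_num)
  obtain ⟨t3, ht3⟩ := exists_nat_gt ((2 * (|B| + C)) / Real.log 3)
  obtain ⟨hρ, hsum, L, i1, i2, i3, x, hx, hL, hxa, hlow, hup, e, he, hN⟩ :=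
    hcore (max t1 t3) (le_max_left _ _)
  set t := max t1 t3 with ht
  set H : ℝ := finrank ℚ K * (t * Real.log 3) with hH
  have hdK : (1 : ℝ) ≤ finrank ℚ K := by exact_mod_cast (finrank_pos : 0 < finrank ℚ K)
  have hHB : 2 * (|B| + C) < H := by
    have g1 : (t3 : ℝ) ≤ t := by exact_mod_cast le_max_right t1 t3
    rw [div_lt_iff₀ hl3] at ht3
    have g2 : (t3 : ℝ) * Real.log 3 ≤ t * Real.log 3 := mul_le_mul_of_nonneg_right g1 hl3.le
    have g3 : 1 * (t * Real.log 3) ≤ finrank ℚ K * (t * Real.log 3) :=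
      mul_le_mul_of_nonneg_right hdK (by positivity)
    linarith
  rw [logHeight_swap] at hlow hup
  -- the potentials
  have hb : ∀ w : Pl L, ∃ β : ℝ, ∀ v ∈ S, w ∈ ab L v → β = (rh v t - 2 * r * c) / r := by
    intro w
    by_cases h : ∃ v ∈ S, w ∈ ab L v
    · obtain ⟨v, hv, hw⟩ := h
      refine ⟨(rh v t - 2 * r * c) / r, fun v' hv' hw' => ?_⟩
      have := ov_unique (mem_ab.1 hw) (mem_ab.1 hw')
      subst this
      rfl
    · exact ⟨0, fun v hv hw => absurd ⟨v, hv, hw⟩ h⟩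
  choose b hb using hb
  have hms : ∀ v, ∑ i, mv P m0 m1 v i = r := by
    intro v
    unfold mv
    split_ifs
    · exact h0
    · exact h1
  refine ⟨L, i1, i2, i3, x, hx, hL, ?_, e, b, ?_, ?_, ?_⟩
  · have := le_abs_self B
    linarith
  · intro w k
    refine Fin.cases ?_ (fun k => ?_) k
    · rw [aeval_Yl]
      exact sub_ne_zero.2 (hxa _)
    · have hk : k = 0 := Subsingleton.elim _ _
      subst hk
      show MvPolynomial.aeval ![x, 1] (MvPolynomial.X 1 : MvPolynomial (Fin 2) K) ≠ 0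
      rw [MvPolynomial.aeval_X]
      exact one_ne_zero
  · intro v hv i
    rw [← hN v hv i]
    unfold Nv clu
    rw [sum_filter]
    refine sum_congr rfl fun w _ => ?_
    by_cases h : e w = i
    · rw [if_pos h, if_pos h]
    · rw [if_neg h, if_neg h]
  · have g1 : ∑ v ∈ S, (rh v t - 2 * r * c) / 2 ≤
        ∑ v ∈ S, (∑ w ∈ ab L v, nn v w * b w - finrank K L * ∑ e', mean 1 fun u =>
          pm (clu (ab L v) e e') fun w =>
            b w - ∑ k, u k * pxy v w 1 (Yl a (e w) k) ![x, 1]) :=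
      sum_le_sum fun v hv => cost_one a (mv P m0 m1 v) hr (hms v) hL hxa
        (by linarith [hρ v hv]) e (he v hv) b fun w hw => hb w v hv hw
    refine le_trans ?_ g1
    rw [← sum_div, sum_sub_distrib, sum_const, nsmul_eq_mul]
    have g2 : ((S.card : ℝ) * (2 * r * c)) = 2 * (S.card * (r * c)) := by ring
    rw [g2]
    linarith

end Pool.Agent.H430.Os
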