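import Pool.Agent.H430.Ot.Main

/-!
The mean over the segment.
-/

set_option autoImplicit false

namespace Pool.Agent.H430.Os

open MeasureTheory Finset
open Pool.Agent.H430.Ot

lemma sxc_one : (MeasurableEquiv.funUnique (Fin 1) ℝ) ⁻¹' (Set.Icc (0 : ℝ) 1) = sxc 1 1 := by
  ext t
  simp only [Set.mem_preimage, Set.mem_Icc, sxc, Set.mem_ofPred_eq]
  constructor
  · rintro ⟨h0, h1⟩
    refine ⟨fun i => ?_, ?_⟩
    · have : i = default := Subsingleton.elim _ _
      rw [this]
      exact h0
    · rw [Fin.sum_univ_one]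
      exact h1
  · rintro ⟨h0, h1⟩
    rw [Fin.sum_univ_one] at h1
    exact ⟨h0 _, h1⟩

/-- the mean over the segment -/
lemma mean_one (f : (Fin 2 → ℝ) → ℝ) :
    mean 1 f = ∫ y in (0 : ℝ)..1, f ![1 - y, y] := by
  have hmp := volume_preserving_funUnique (Fin 1) ℝ
  have hv : volume.real (sxc 1 1) = 1 := by
    have h9 := hmp.measure_preimage (s := Set.Icc (0 : ℝ) 1) measurableSet_Icc.nullMeasurableSet
    have h10 : volume (sxc 1 1) = 1 := by
      rw [← sxc_one]
      exact h9.trans (by simp)
    rw [Measure.real, h10]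
    rfl
  unfold mean
  rw [setAverage_eq, hv, inv_one, one_smul, intervalIntegral.integral_of_le zero_le_one,
    ← integral_Icc_eq_integral_Ioc, ← sxc_one]
  have h1 := hmp.setIntegral_preimage_emb (MeasurableEquiv.measurableEmbedding _)
    (fun y : ℝ => f ![1 - y, y]) (Set.Icc 0 1)
  rw [← h1]
  refine integral_congr_ae (Filter.Eventually.of_forall fun t => ?_)
  show f (bar t) = f _
  congr 1
  funext k
  refine Fin.cases ?_ (fun k => ?_) k
  · rw [bar_zero, Fin.sum_univ_one]
    rfl
  · rw [bar_succ]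
    have hk : k = 0 := Subsingleton.elim _ _
    subst hk
    rfl

/-- the mean of a tent -/
lemma mean_tent (f : (Fin 2 → ℝ) → ℝ) (hf : Continuous f) (β lam : ℝ) (hβ : 0 ≤ β) (hl : 0 < lam)
    (hbl : β ≤ lam) (h : ∀ u : Fin 2 → ℝ, 0 ≤ u 0 → 0 ≤ u 1 → f u ≤ max 0 (β - u 0 * lam)) :
    mean 1 f ≤ β ^ 2 / (2 * lam) := by
  rw [mean_one]
  have hc : Continuous fun y : ℝ => f ![1 - y, y] := hf.comp (by fun_prop)
  have hg : Continuous fun y : ℝ => max 0 (β - (1 - y) * lam) := by fun_prop
  have h1 : ∫ y in (0 : ℝ)..1, f ![1 - y, y] ≤ ∫ y in (0 : ℝ)..1, max 0 (β - (1 - y) * lam) := by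
    refine intervalIntegral.integral_mono_on zero_le_one (hc.intervalIntegrable _ _)
      (hg.intervalIntegrable _ _) fun y hy => ?_
    exact h ![1 - y, y] (by simpa using hy.2) (by simpa using hy.1)
  refine h1.trans ?_
  set c : ℝ := 1 - β / lam with hcd
  have hc0 : 0 ≤ c := by
    rw [hcd, sub_nonneg, div_le_one hl]
    exact hbl
  have hc1 : c ≤ 1 := by
    rw [hcd]
    have : 0 ≤ β / lam := by positivity
    linarith
  rw [← intervalIntegral.integral_add_adjacent_intervals (b := c) (hg.intervalIntegrable _ _)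
    (hg.intervalIntegrable _ _)]
  have e1 : ∫ y in (0 : ℝ)..c, max 0 (β - (1 - y) * lam) = 0 := by
    have : ∀ y ∈ Set.uIcc 0 c, max 0 (β - (1 - y) * lam) = (0 : ℝ) := by
      intro y hy
      rw [Set.uIcc_of_le hc0] at hy
      refine max_eq_left ?_
      have h2 : (1 - c) * lam = β := by
        rw [hcd]
        field_simp
        ring
      have h3 : (1 - c) * lam ≤ (1 - y) * lam :=
        mul_le_mul_of_nonneg_right (by linarith [hy.2]) hl.le
      linarith
    rw [intervalIntegral.integral_congr this]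
    simp
  have e2 : ∫ y in c..(1 : ℝ), max 0 (β - (1 - y) * lam) = ∫ y in c..(1 : ℝ), (β - (1 - y) * lam) := by
    refine intervalIntegral.integral_congr fun y hy => ?_
    rw [Set.uIcc_of_le hc1] at hy
    refine max_eq_right ?_
    have h2 : (1 - c) * lam = β := by
      rw [hcd]
      field_simp
      ring
    have h3 : (1 - y) * lam ≤ (1 - c) * lam :=
      mul_le_mul_of_nonneg_right (by linarith [hy.1]) hl.le
    linarith
  have e3 : ∫ y in c..(1 : ℝ), (β - (1 - y) * lam) = (β - lam) * (1 - c) + lam * ((1 - c ^ 2) / 2) := by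
    have : ∀ y : ℝ, β - (1 - y) * lam = (β - lam) + lam * y := fun y => by ring
    simp only [this]
    have e4 := intervalIntegral.integral_add (μ := volume) (a := c) (b := 1)
      (f := fun _ : ℝ => β - lam) (g := fun y : ℝ => lam * y)
      (continuous_const.intervalIntegrable _ _)
      ((continuous_const.mul continuous_id).intervalIntegrable _ _)
    rw [e4, intervalIntegral.integral_const, intervalIntegral.integral_const_mul, integral_id,
      smul_eq_mul]
    ring
  rw [e1, e2, e3, hcd]
  refine le_of_eq ?_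
  field_simp
  ring

end Pool.Agent.H430.Os
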