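import Pool.Agent.H430.Os.Gap
import Pool.Agent.H430.Ft.Shp

/-!
A sequence of members of the pencil.
-/

set_option autoImplicit false

namespace Pool.Agent.H430.Os

open Finset NumberField IsDedekindDomain Height Module Polynomial
open Pool.Agent.W180.OP (Pl av wt fv nrm wt_nonneg le_nrm exists_nrm nrm_pos nrm_nonneg)
open Pool.Agent.NH28 (nn ab mem_ab sum_nn one_le_nn nn_ext nn_nonneg Ov)
open Pool.Agent.H430.Cl
open Pool.Agent.H430.Ft
open Pool.Agent.H430.Gw (ht_T proj_ht)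

/-- the exponent of `2` -/
def sx (t : ℕ) : ℕ := Nat.log 2 (3 ^ t)

lemma sx_le (t : ℕ) : 2 ^ sx t ≤ 3 ^ t := Nat.pow_log_le_self 2 (by positivity)

lemma sx_lt (t : ℕ) : 3 ^ t < 2 ^ (sx t + 1) := Nat.lt_pow_succ_log_self (by norm_num) _

lemma le_sx (t : ℕ) : t ≤ sx t :=
  Nat.le_log_of_pow_le (by norm_num) (Nat.pow_le_pow_left (by norm_num) t)

lemma sx_log_le (t : ℕ) : sx t * Real.log 2 ≤ t * Real.log 3 := by
  have h1 : ((2 : ℝ) ^ sx t) ≤ 3 ^ t := by exact_mod_cast sx_le t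
  have h2 := Real.log_le_log (by positivity) h1
  rwa [Real.log_pow, Real.log_pow] at h2

lemma le_sx_log (t : ℕ) : t * Real.log 3 - Real.log 2 ≤ sx t * Real.log 2 := by
  have h1 : ((3 : ℝ) ^ t) ≤ 2 ^ (sx t + 1) := by exact_mod_cast (sx_lt t).le
  have h2 := Real.log_le_log (by positivity) h1
  rw [Real.log_pow, Real.log_pow] at h2
  push_cast at h2
  linarith

lemma exp_inj {t t' s s' : ℕ} (h : 3 ^ t * 2 ^ s' = 3 ^ t' * 2 ^ s) : t = t' := by
  have hc : ∀ a b : ℕ, Nat.Coprime (3 ^ a) (2 ^ b) := fun a b =>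
    Nat.Coprime.pow _ _ (by norm_num)
  apply le_antisymm
  · have h1 : 3 ^ t ∣ 3 ^ t' * 2 ^ s := ⟨2 ^ s', h.symm⟩
    exact (Nat.pow_dvd_pow_iff_le_right (by norm_num)).1 ((hc t s).dvd_of_dvd_mul_right h1)
  · have h1 : 3 ^ t' ∣ 3 ^ t * 2 ^ s' := ⟨2 ^ s, h⟩
    exact (Nat.pow_dvd_pow_iff_le_right (by norm_num)).1 ((hc t' s').dvd_of_dvd_mul_right h1)

section

variable {K : Type} [Field K] {q : ℕ}

/-- the members of the pencil -/
noncomputable def Ff (a : Fin q → K) (m0 m1 : Fin q → ℕ) (t : ℕ) : K[X] :=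
  C ((3 ^ t : ℕ) : K) * gp a m0 + C ((2 ^ sx t : ℕ) : K) * gp a m1

lemma Ff_aeval {Ω : Type} [Field Ω] [Algebra K Ω] (a : Fin q → K) (m0 m1 : Fin q → ℕ) (t : ℕ)
    (z : Ω) : aeval z (Ff a m0 m1 t) =
      algebraMap K Ω ((3 ^ t : ℕ) : K) * aeval z (gp a m0) +
        algebraMap K Ω ((2 ^ sx t : ℕ) : K) * aeval z (gp a m1) := by
  unfold Ff
  rw [map_add, map_mul, map_mul, aeval_C, aeval_C]

variable [CharZero K]

lemma gp_coeff (a : Fin q → K) (m : Fin q → ℕ) {r : ℕ} (hm : ∑ i, m i = r) :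
    (gp a m).coeff r = 1 := by
  have h := gp_monic a m
  have h2 := gp_natDegree a m
  rw [hm] at h2
  have h3 := h.coeff_natDegree
  rwa [h2] at h3

lemma Ff_coeff (a : Fin q → K) (m0 m1 : Fin q → ℕ) {r : ℕ}
    (h0 : ∑ i, m0 i = r) (h1 : ∑ i, m1 i = r) (t : ℕ) : (Ff a m0 m1 t).coeff r ≠ 0 := by
  unfold Ff
  rw [coeff_add, coeff_C_mul, coeff_C_mul, gp_coeff a m0 h0, gp_coeff a m1 h1, mul_one, mul_one]
  have : 3 ^ t + 2 ^ sx t ≠ 0 := by positivity
  exact_mod_cast this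

lemma Ff_natDegree (a : Fin q → K) (m0 m1 : Fin q → ℕ) {r : ℕ}
    (h0 : ∑ i, m0 i = r) (h1 : ∑ i, m1 i = r) (t : ℕ) : (Ff a m0 m1 t).natDegree = r := by
  apply le_antisymm
  · unfold Ff
    refine (natDegree_add_le _ _).trans (max_le ?_ ?_)
    · refine (natDegree_C_mul_le _ _).trans ?_
      rw [gp_natDegree, h0]
    · refine (natDegree_C_mul_le _ _).trans ?_
      rw [gp_natDegree, h1]
  · exact le_natDegree_of_ne_zero (Ff_coeff a m0 m1 h0 h1 t)

lemma Ff_ne (a : Fin q → K) (m0 m1 : Fin q → ℕ) {r : ℕ}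
    (h0 : ∑ i, m0 i = r) (h1 : ∑ i, m1 i = r) (t : ℕ) : Ff a m0 m1 t ≠ 0 := by
  intro h
  have := Ff_coeff a m0 m1 h0 h1 t
  rw [h, coeff_zero] at this
  exact this rfl

lemma no_common {Ω : Type} [Field Ω] [Algebra K Ω] {a : Fin q → K} (ha : Function.Injective a)
    {m0 m1 : Fin q → ℕ} (hd : ∀ i, m0 i = 0 ∨ m1 i = 0) (z : Ω)
    (hz0 : aeval z (gp a m0) = 0) (hz1 : aeval z (gp a m1) = 0) : False := by
  rw [gp_aeval, prod_eq_zero_iff] at hz0 hz1
  obtain ⟨i, _, hi⟩ := hz0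
  obtain ⟨j, _, hj⟩ := hz1
  have hi' := eq_zero_of_pow_eq_zero hi
  have hj' := eq_zero_of_pow_eq_zero hj
  rw [sub_eq_zero] at hi' hj'
  rw [hi'] at hj'
  have := ha ((algebraMap K Ω).injective hj')
  subst this
  rcases hd i with h | h
  · rw [h, pow_zero] at hi
    exact one_ne_zero hi
  · rw [h, pow_zero] at hj
    exact one_ne_zero hj

/-- a number is a root of at most one member -/
lemma one_t {Ω : Type} [Field Ω] [Algebra K Ω] {a : Fin q → K} (ha : Function.Injective a)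
    {m0 m1 : Fin q → ℕ} (hd : ∀ i, m0 i = 0 ∨ m1 i = 0) (z : Ω) {t t' : ℕ}
    (ht : aeval z (Ff a m0 m1 t) = 0) (ht' : aeval z (Ff a m0 m1 t') = 0) : t = t' := by
  have hc : CharZero Ω := charZero_of_injective_algebraMap (algebraMap K Ω).injective
  rw [Ff_aeval, map_natCast, map_natCast] at ht ht'
  have hA : aeval z (gp a m0) ≠ 0 := by
    intro h
    rw [h, mul_zero, zero_add] at ht
    rcases mul_eq_zero.1 ht with h1 | h1
    · have : (2 ^ sx t : ℕ) ≠ 0 := by positivity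
      exact this (by exact_mod_cast h1)
    · exact no_common ha hd z h h1
  have h1 : (((3 ^ t * 2 ^ sx t' : ℕ) : Ω) - ((3 ^ t' * 2 ^ sx t : ℕ) : Ω)) *
      aeval z (gp a m0) = 0 := by
    push_cast at ht ht' ⊢
    linear_combination (2 : Ω) ^ sx t' * ht - (2 : Ω) ^ sx t * ht'
  have h2 := sub_eq_zero.1 ((mul_eq_zero.1 h1).resolve_right hA)
  exact exp_inj (by exact_mod_cast h2)

/-- almost all members are coprime to a given polynomial -/
lemma large_t {a : Fin q → K} (ha : Function.Injective a)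
    {m0 m1 : Fin q → ℕ} (hd : ∀ i, m0 i = 0 ∨ m1 i = 0) {Φ : K[X]} (hΦ : Φ ≠ 0) :
    ∃ t0 : ℕ, ∀ t, t0 ≤ t → ∀ (L : Type) [Field L] [Algebra K L] [Algebra.IsAlgebraic K L] (x : L),
      aeval x (Ff a m0 m1 t) = 0 → aeval x Φ ≠ 0 := by
  classical
  have h1 : ∀ z : AlgebraicClosure K, ∃ t0 : ℕ, ∀ t, t0 ≤ t → aeval z (Ff a m0 m1 t) ≠ 0 := by
    intro z
    by_cases h : ∃ t1, aeval z (Ff a m0 m1 t1) = 0
    · obtain ⟨t1, ht1⟩ := h
      refine ⟨t1 + 1, fun t ht h2 => ?_⟩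
      have := one_t ha hd z ht1 h2
      omega
    · exact ⟨0, fun t _ h2 => h ⟨t, h2⟩⟩
  choose g hg using h1
  refine ⟨(Φ.aroots (AlgebraicClosure K)).toFinset.sup g, fun t ht L _ _ _ x hx hxΦ => ?_⟩
  set σ : L →ₐ[K] AlgebraicClosure K := IsAlgClosed.lift
  have hz : σ x ∈ (Φ.aroots (AlgebraicClosure K)).toFinset := by
    rw [Multiset.mem_toFinset, mem_aroots]
    refine ⟨hΦ, ?_⟩
    rw [aeval_algHom_apply, hxΦ, map_zero]
  refine hg (σ x) t ((Finset.le_sup hz).trans ht) ?_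
  rw [aeval_algHom_apply, hx, map_zero]

end

section

variable {K : Type} [Field K] [NumberField K] {q : ℕ}

/-- the height of the members -/
lemma Ff_height (a : Fin q → K) (m0 m1 : Fin q → ℕ) {r : ℕ}
    (h0 : ∑ i, m0 i = r) (h1 : ∑ i, m1 i = r) : ∃ C : ℝ, 0 ≤ C ∧ ∀ t : ℕ,
      logHeight (cf r (Ff a m0 m1 t)) ≤ finrank ℚ K * (t * Real.log 3) + C := by
  obtain ⟨Cp, hCp0, hCp⟩ := proj_ht (K := K) (N := r + 1) (n := 2)
    (fun j k => ((![gp a m0, gp a m1] : Fin 2 → K[X]) k).coeff j)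
  refine ⟨Cp, hCp0, fun t => ?_⟩
  set T : Fin 2 → ℕ := ![3 ^ t, 2 ^ sx t] with hT
  have hT0 : (fun k => (T k : K)) ≠ 0 := by
    intro h
    have h2 : ((T 0 : ℕ) : K) = 0 := congrFun h 0
    have h3 : T 0 ≠ 0 := by
      show 3 ^ t ≠ 0
      positivity
    exact h3 (by exact_mod_cast h2)
  have hTM : ∀ k, T k ≤ 3 ^ t := by
    intro k
    fin_cases k
    · exact le_rfl
    · exact sx_le t
  have h2 := height_nat (K := K) T hT0 (3 ^ t) (Nat.one_le_pow _ _ (by norm_num)) hTM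
  have h3 : (fun j : Fin (r + 1) => ∑ k, ((![gp a m0, gp a m1] : Fin 2 → K[X]) k).coeff j *
      (T k : K)) = cf r (Ff a m0 m1 t) := by
    funext j
    rw [Fin.sum_univ_two, cf_apply]
    unfold Ff
    rw [coeff_add, coeff_C_mul, coeff_C_mul]
    show (gp a m0).coeff j * ((3 ^ t : ℕ) : K) + (gp a m1).coeff j * ((2 ^ sx t : ℕ) : K) = _
    ring
  have h4 := hCp ∅ (fun k => (T k : K)) hT0 (by
    rw [h3]
    exact cf_ne (Ff_ne a m0 m1 h0 h1 t) (Ff_natDegree a m0 m1 h0 h1 t).le)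
  rw [h3, sum_empty] at h4
  have h5 : Real.log ((3 ^ t : ℕ) : ℝ) = t * Real.log 3 := by
    push_cast
    rw [Real.log_pow]
  rw [h5] at h2
  linarith

/-- padding does not change the height -/
lemma ht_pad {G : K[X]} (hG : G ≠ 0) {d r : ℕ} (hd : G.natDegree ≤ d) (hr : G.natDegree ≤ r) :
    logHeight (cf r G) = logHeight (cf d G) := by
  classical
  obtain ⟨T1, h1⟩ := ht_T (cf_ne hG hr)
  obtain ⟨T2, h2⟩ := ht_T (cf_ne hG hd)
  rw [h1 (T1 ∪ T2) subset_union_left, h2 (T1 ∪ T2) subset_union_right]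
  refine sum_congr rfl fun v _ => ?_
  rw [← gauss_eq (av v) hr, ← gauss_eq (av v) hd]

end

end Pool.Agent.H430.Os
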