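import Pool.Agent.H430.Os.Mean

/-!
The mean of a truncated linear function over the simplex.
-/

set_option autoImplicit false

namespace Pool.Agent.H430.Os

open MeasureTheory Finset
open Pool.Agent.H430.Ot

/-- the volume of a scaled simplex -/
lemma vol_scaled {ν : ℕ} (mu : Fin ν → ℝ) (hmu : ∀ i, 0 < mu i) {c : ℝ} (hc : 0 < c) :
    volume {t : Fin ν → ℝ | (∀ i, 0 ≤ t i) ∧ ∑ i, t i / mu i ≤ c} =
      ENNReal.ofReal ((∏ i, mu i) * volume.real (sxc ν 1) * c ^ ν) := by
  have h1 : {t : Fin ν → ℝ | (∀ i, 0 ≤ t i) ∧ ∑ i, t i / mu i ≤ c} =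
      (Matrix.toLin' (Matrix.diagonal mu)) '' (sxc ν c) := by
    ext t
    constructor
    · rintro ⟨h0, h1⟩
      refine ⟨fun i => t i / mu i, ⟨fun i => div_nonneg (h0 i) (hmu i).le, h1⟩, ?_⟩
      ext i
      rw [Matrix.toLin'_apply, Matrix.mulVec_diagonal]
      exact mul_div_cancel₀ _ (hmu i).ne'
    · rintro ⟨s, ⟨h0, h1⟩, rfl⟩
      refine ⟨fun i => ?_, ?_⟩
      · rw [Matrix.toLin'_apply, Matrix.mulVec_diagonal]
        exact mul_nonneg (hmu i).le (h0 i)
      · refine le_trans (le_of_eq (sum_congr rfl fun i _ => ?_)) h1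
        rw [Matrix.toLin'_apply, Matrix.mulVec_diagonal]
        exact mul_div_cancel_left₀ _ (hmu i).ne'
  have hp : 0 < ∏ i, mu i := prod_pos fun i _ => hmu i
  have h2 : volume (sxc ν c) = ENNReal.ofReal (c ^ ν * volume.real (sxc ν 1)) := by
    rw [← vol_smul ν hc]
    exact (ofReal_measureReal (vol_fin ν c)).symm
  rw [h1, Measure.addHaar_image_linearMap, LinearMap.det_toLin', Matrix.det_diagonal,
    abs_of_pos hp, h2, ← ENNReal.ofReal_mul hp.le]
  congr 1
  ring

lemma cont_lin {ν : ℕ} (mu : Fin ν → ℝ) (c : ℝ) :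
    Continuous fun t : Fin ν → ℝ => max 0 (c - ∑ i, t i / mu i) :=
  continuous_const.max (continuous_const.sub (continuous_finsetSum _ fun i _ =>
    (continuous_apply i).div_const _))

/-- the integral of a truncated linear function -/
lemma int_trunc {ν : ℕ} (mu : Fin ν → ℝ) (hmu : ∀ i, 0 < mu i) {c : ℝ} (hc : 0 ≤ c) :
    ∫ t in sxc ν 1, max 0 (c - ∑ i, t i / mu i) ≤
      (∏ i, mu i) * volume.real (sxc ν 1) * (c ^ (ν + 1) / (ν + 1)) := by
  set V : ℝ := volume.real (sxc ν 1) with hV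
  have hV0 : 0 < V := vol_pos ν
  have hp : 0 < ∏ i, mu i := prod_pos fun i _ => hmu i
  set g : (Fin ν → ℝ) → ℝ := fun t => max 0 (c - ∑ i, t i / mu i) with hg
  have hgc : Continuous g := cont_lin mu c
  have hg0 : ∀ t, 0 ≤ g t := fun t => le_max_left _ _
  have h1 : ∫ t in sxc ν 1, g t = (∫⁻ t in sxc ν 1, ENNReal.ofReal (g t)).toReal :=
    integral_eq_lintegral_of_nonneg_ae (Filter.Eventually.of_forall hg0)
      hgc.aestronglyMeasurable
  have h2 : ∫⁻ t in sxc ν 1, ENNReal.ofReal (g t) =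
      ∫⁻ y in Set.Ioi 0, (volume.restrict (sxc ν 1)) {t | y < g t} :=
    lintegral_eq_lintegral_meas_lt _ (Filter.Eventually.of_forall hg0) hgc.measurable.aemeasurable
  set G : ℝ → ℝ := fun y => (∏ i, mu i) * V * (c - y) ^ ν with hG
  have h3 : ∀ y ∈ Set.Ioi (0 : ℝ), (volume.restrict (sxc ν 1)) {t | y < g t} ≤
      (Set.Ioo 0 c).indicator (fun y => ENNReal.ofReal (G y)) y := by
    intro y hy
    have hy0 : 0 < y := hy
    rw [Measure.restrict_apply (measurableSet_lt measurable_const hgc.measurable)]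
    by_cases hyc : y < c
    · rw [Set.indicator_of_mem (Set.mem_Ioo.2 ⟨hy0, hyc⟩)]
      have h4 := vol_scaled mu hmu (sub_pos.2 hyc)
      rw [← h4]
      refine measure_mono fun t ht => ?_
      obtain ⟨h5, h6⟩ := ht
      have h5' : y < g t := h5
      refine ⟨h6.1, ?_⟩
      rcases lt_max_iff.1 h5' with h7 | h7
      · linarith
      · linarith
    · have h4 : {t | y < g t} ∩ sxc ν 1 = ∅ := by
        ext t
        simp only [Set.mem_inter_iff, Set.mem_ofPred_eq, Set.mem_empty_iff_false, iff_false, not_and]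
        intro h5 h6
        have h7 : 0 ≤ ∑ i, t i / mu i := sum_nonneg fun i _ => div_nonneg (h6.1 i) (hmu i).le
        rcases lt_max_iff.1 h5 with h8 | h8
        · linarith
        · exact hyc (by linarith)
      rw [h4, measure_empty]
      exact zero_le
  have h4 : ∫⁻ y in Set.Ioi 0, (volume.restrict (sxc ν 1)) {t | y < g t} ≤
      ∫⁻ y in Set.Ioo 0 c, ENNReal.ofReal (G y) := by
    refine (setLIntegral_mono' measurableSet_Ioi h3).trans ?_
    refine (setLIntegral_le_lintegral _ _).trans ?_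
    rw [lintegral_indicator measurableSet_Ioo]
  have hGc : Continuous G := by
    simp only [hG]
    fun_prop
  have hGi : IntegrableOn G (Set.Ioo 0 c) :=
    (hGc.continuousOn.integrableOn_Icc (a := 0) (b := c)).mono_set Set.Ioo_subset_Icc_self
  have h5 : ∫⁻ y in Set.Ioo 0 c, ENNReal.ofReal (G y) = ENNReal.ofReal (∫ y in Set.Ioo 0 c, G y) := by
    rw [ofReal_integral_eq_lintegral_ofReal hGi]
    refine (ae_restrict_iff' measurableSet_Ioo).2 (Filter.Eventually.of_forall fun y hy => ?_)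
    have : 0 ≤ c - y := by linarith [hy.2]
    simp only [hG, Pi.zero_apply]
    positivity
  have h6 : ∫ y in Set.Ioo 0 c, G y = (∏ i, mu i) * V * (c ^ (ν + 1) / (ν + 1)) := by
    rw [← integral_Ioc_eq_integral_Ioo, ← intervalIntegral.integral_of_le hc]
    simp only [hG]
    rw [intervalIntegral.integral_const_mul]
    congr 1
    have := intervalIntegral.integral_comp_sub_left (fun y : ℝ => y ^ ν) c (a := 0) (b := c)
    rw [this, sub_self, sub_zero, integral_pow]
    simp
  rw [h1, h2]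
  have h7 : 0 ≤ (∏ i, mu i) * V * (c ^ (ν + 1) / (ν + 1)) := by positivity
  rw [h5, h6] at h4
  exact ENNReal.toReal_le_of_le_ofReal h7 h4

/-- the mean of a truncated linear function over the simplex -/
lemma mean_simplex {ν : ℕ} (f : (Fin (ν + 1) → ℝ) → ℝ) (hf : Continuous f) (mu : Fin ν → ℝ)
    (hmu : ∀ i, 0 < mu i) {τ c : ℝ} (hτ : 0 ≤ τ) (hc : 0 ≤ c)
    (h : ∀ u : Fin (ν + 1) → ℝ, (∀ k, 0 ≤ u k) →
      f u ≤ max 0 (τ * (c - ∑ i : Fin ν, u i.succ / mu i))) :
    mean ν f ≤ τ * (∏ i, mu i) * (c ^ (ν + 1) / (ν + 1)) := by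
  have hV0 : 0 < volume.real (sxc ν 1) := vol_pos ν
  unfold mean
  rw [setAverage_eq, smul_eq_mul]
  have hfi : IntegrableOn (fun t => f (bar t)) (sxc ν 1) :=
    (hf.comp continuous_bar).continuousOn.integrableOn_compact (isCompact_sxc ν 1)
  have hgi : IntegrableOn (fun t : Fin ν → ℝ => τ * max 0 (c - ∑ i, t i / mu i)) (sxc ν 1) :=
    ((continuous_const.mul (cont_lin mu c)).continuousOn).integrableOn_compact (isCompact_sxc ν 1)
  have h1 : ∫ t in sxc ν 1, f (bar t) ≤ ∫ t in sxc ν 1, τ * max 0 (c - ∑ i, t i / mu i) := by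
    refine setIntegral_mono_on hfi hgi (meas_sxc ν 1) fun t ht => ?_
    refine (h (bar t) fun k => bar_nonneg ht k).trans (le_of_eq ?_)
    rw [mul_max_of_nonneg _ _ hτ, mul_zero]
    rfl
  have h2 := int_trunc mu hmu hc
  rw [integral_const_mul] at h1
  have h3 := mul_le_mul_of_nonneg_left h2 hτ
  have h4 := mul_le_mul_of_nonneg_left (h1.trans h3) (inv_nonneg.2 hV0.le)
  refine h4.trans (le_of_eq ?_)
  field_simp

end Pool.Agent.H430.Os
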