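import Pool.Agent.H430.Os.Poly

/-!
The roots of the members of the sequence at the places above `2` and `3`.
-/

set_option autoImplicit false

namespace Pool.Agent.H430.Os

open Finset NumberField IsDedekindDomain Height Module Polynomial
open Pool.Agent.W180.OP (Pl av wt fv nrm wt_nonneg le_nrm exists_nrm nrm_pos nrm_nonneg)
open Pool.Agent.NH28 (nn ab mem_ab sum_nn one_le_nn nn_ext nn_nonneg Ov ov_unique)
open Pool.Agent.H430.Cl
open Pool.Agent.H430.Ft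
open Pool.Agent.H430.Gw (ht_T proj_ht)

/-- the local size of a natural number -/
noncomputable def ls {K : Type} [Field K] [NumberField K] (v : Pl K) (p : ℕ) : ℝ :=
  wt v * Real.log (av v (p : K))

lemma ls_pow {K : Type} [Field K] [NumberField K] (v : Pl K) (p n : ℕ) :
    wt v * Real.log (av v ((p ^ n : ℕ) : K)) = n * ls v p := by
  unfold ls
  push_cast
  rw [map_pow, Real.log_pow]
  ring

/-- the places above `2` and `3` -/
lemma places_two_three (K : Type) [Field K] [NumberField K] :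
    ∃ (S : Finset (Pl K)) (P : Pl K → Prop) (κ : ℝ), 0 < κ ∧ (∃ v ∈ S, P v) ∧ (∃ v ∈ S, ¬P v) ∧
      (∀ v ∈ S, ∃ v0, v = Sum.inr v0) ∧
      (∀ v ∈ S, P v → ls v 3 = 0 ∧ ls v 2 ≤ -κ) ∧ (∀ v ∈ S, ¬P v → ls v 2 = 0 ∧ ls v 3 ≤ -κ) ∧
      ∑ v ∈ S, ls v 2 = -(finrank ℚ K * Real.log 2) ∧
      ∑ v ∈ S, ls v 3 = -(finrank ℚ K * Real.log 3) := by
  classical
  obtain ⟨T2, h2a, h2b⟩ := exists_places K 2 (by norm_num)
  obtain ⟨T3, h3a, h3b⟩ := exists_places K 3 (by norm_num)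
  have e2 : ∀ (p : ℕ) (v : HeightOneSpectrum (𝓞 K)), ls (Sum.inr v : Pl K) p =
      Real.log (fv v (p : K)) := by
    intro p v
    show (1 : ℝ) * Real.log (fv v (p : K)) = _
    rw [one_mul]
  have hdK : (0 : ℝ) < finrank ℚ K := by exact_mod_cast (finrank_pos : 0 < finrank ℚ K)
  have h2s : ∑ v ∈ T2.map ⟨Sum.inr, Sum.inr_injective⟩, ls (v : Pl K) 2 =
      -(finrank ℚ K * Real.log 2) := by
    rw [sum_map]
    simp only [Function.Embedding.coeFn_mk]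
    rw [sum_congr rfl fun v _ => e2 2 v]
    exact_mod_cast h2b
  have h3s : ∑ v ∈ T3.map ⟨Sum.inr, Sum.inr_injective⟩, ls (v : Pl K) 3 =
      -(finrank ℚ K * Real.log 3) := by
    rw [sum_map]
    simp only [Function.Embedding.coeFn_mk]
    rw [sum_congr rfl fun v _ => e2 3 v]
    exact_mod_cast h3b
  have hl2 : 0 < Real.log 2 := Real.log_pos (by norm_num)
  have hl3 : 0 < Real.log 3 := Real.log_pos (by norm_num)
  have n2 : (T2.map ⟨Sum.inr, Sum.inr_injective⟩ : Finset (Pl K)).Nonempty := by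
    rw [nonempty_iff_ne_empty]
    intro h
    rw [h, sum_empty] at h2s
    have := mul_pos hdK hl2
    linarith
  have n3 : (T3.map ⟨Sum.inr, Sum.inr_injective⟩ : Finset (Pl K)).Nonempty := by
    rw [nonempty_iff_ne_empty]
    intro h
    rw [h, sum_empty] at h3s
    have := mul_pos hdK hl3
    linarith
  have c23 : Nat.Coprime 2 3 := by norm_num
  have neg : ∀ (p : ℕ), p ≠ 0 → ∀ v : HeightOneSpectrum (𝓞 K), fv v (p : K) ≠ 1 →
      Real.log (fv v (p : K)) < 0 := by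
    intro p hp v hv
    have h1 : (p : K) ≠ 0 := by exact_mod_cast hp
    exact Real.log_neg ((fv v).pos_iff.2 h1) (lt_of_le_of_ne (fv_nat_le v p) hv)
  set S2 : Finset (Pl K) := T2.map ⟨Sum.inr, Sum.inr_injective⟩ with hS2
  set S3 : Finset (Pl K) := T3.map ⟨Sum.inr, Sum.inr_injective⟩ with hS3
  have k2 : ∀ v ∈ S2, ls v 3 = 0 ∧ ls v 2 < 0 := by
    intro v hv
    obtain ⟨v0, hv0, rfl⟩ := mem_map.1 hv
    simp only [Function.Embedding.coeFn_mk]
    rw [e2, e2]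
    have h1 : fv v0 ((2 : ℕ) : K) ≠ 1 := h2a v0 hv0
    exact ⟨by rw [fv_coprime v0 2 3 c23 h1, Real.log_one], neg 2 (by norm_num) v0 h1⟩
  have k3 : ∀ v ∈ S3, ls v 2 = 0 ∧ ls v 3 < 0 := by
    intro v hv
    obtain ⟨v0, hv0, rfl⟩ := mem_map.1 hv
    simp only [Function.Embedding.coeFn_mk]
    rw [e2, e2]
    have h1 : fv v0 ((3 : ℕ) : K) ≠ 1 := h3a v0 hv0
    exact ⟨by rw [fv_coprime v0 3 2 c23.symm h1, Real.log_one], neg 3 (by norm_num) v0 h1⟩
  have hdis : Disjoint S2 S3 := by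
    rw [disjoint_left]
    intro v hv hv'
    have := (k2 v hv).2
    have := (k3 v hv').1
    linarith
  obtain ⟨v2, hv2, hv2'⟩ := exists_min_image S2 (fun v => -ls v 2) n2
  obtain ⟨v3, hv3, hv3'⟩ := exists_min_image S3 (fun v => -ls v 3) n3
  have hin : ∀ v ∈ S2 ∪ S3, v ∉ S2 → v ∈ S3 := fun v hv h => (mem_union.1 hv).resolve_left h
  refine ⟨S2 ∪ S3, fun v => v ∈ S2, min (-ls v2 2) (-ls v3 3),
    lt_min (by linarith [(k2 v2 hv2).2]) (by linarith [(k3 v3 hv3).2]),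
    ⟨v2, mem_union_left _ hv2, hv2⟩, ⟨v3, mem_union_right _ hv3, disjoint_right.1 hdis hv3⟩,
    ?_, ?_, ?_, ?_, ?_⟩
  · intro v hv
    rcases mem_union.1 hv with h | h
    · obtain ⟨v0, _, rfl⟩ := mem_map.1 h
      exact ⟨v0, rfl⟩
    · obtain ⟨v0, _, rfl⟩ := mem_map.1 h
      exact ⟨v0, rfl⟩
  · intro v _ hv
    refine ⟨(k2 v hv).1, ?_⟩
    have h1 : -ls v2 2 ≤ -ls v 2 := hv2' v hv
    have h2 := min_le_left (-ls v2 2) (-ls v3 3)
    linarith
  · intro v hv' hv''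
    have hv := hin v hv' hv''
    refine ⟨(k3 v hv).1, ?_⟩
    have h1 : -ls v3 3 ≤ -ls v 3 := hv3' v hv
    have h2 := min_le_right (-ls v2 2) (-ls v3 3)
    linarith
  · rw [sum_union hdis, h2s, sum_eq_zero fun v hv => (k3 v hv).1, add_zero]
  · rw [sum_union hdis, h3s, sum_eq_zero fun v hv => (k2 v hv).1, zero_add]

variable {K : Type} [Field K] [NumberField K] {q : ℕ}

open Classical in
/-- the masses at a place -/
noncomputable def mv (P : Pl K → Prop) (m0 m1 : Fin q → ℕ) (v : Pl K) : Fin q → ℕ :=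
  if P v then m0 else m1

/-- the size of the proximity at a place -/
noncomputable def rh (v : Pl K) (t : ℕ) : ℝ := -(sx t * ls v 2 + t * ls v 3)

lemma near_all {S : Finset (Pl K)} {P : Pl K → Prop} (h23 : ∀ v ∈ S, P v → ls v 3 = 0)
    (h32 : ∀ v ∈ S, ¬P v → ls v 2 = 0) (a : Fin q → K) (m0 m1 : Fin q → ℕ) {r : ℕ} (hr : 1 ≤ r)
    (h0 : ∑ i, m0 i = r) (h1 : ∑ i, m1 i = r) {c : ℝ} (hc : 0 ≤ c) {t : ℕ}
    (hρ : ∀ v ∈ S, 2 * r * c < rh v t)
    {L : Type} [Field L] [NumberField L] [Algebra K L] {x : L}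
    (hlow : ∀ v ∈ S, ∀ w ∈ ab L v, ∀ i, -c ≤ prx v w (a i) x)
    (hmin : ∀ v ∈ S, ∀ w ∈ ab L v, ∀ i j, i ≠ j →
      min (prx v w (a i) x) (prx v w (a j) x) ≤ c)
    (hx : ∀ i, x ≠ algebraMap K L (a i)) (hroot : aeval x (Ff a m0 m1 t) = 0) :
    ∃ e : Pl L → Fin q, ∀ v ∈ S, ∀ w ∈ ab L v, 0 < mv P m0 m1 v (e w) ∧
      rh v t - 2 * r * c ≤ mv P m0 m1 v (e w) * prx v w (a (e w)) x := by
  classical
  have hα : ((3 ^ t : ℕ) : K) ≠ 0 := by
    have : (3 ^ t : ℕ) ≠ 0 := by positivity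
    exact_mod_cast this
  have hβ : ((2 ^ sx t : ℕ) : K) ≠ 0 := by
    have : (2 ^ sx t : ℕ) ≠ 0 := by positivity
    exact_mod_cast this
  rw [Ff_aeval] at hroot
  have h2 : ∀ v ∈ S, ∀ w ∈ ab L v, ∃ i, 0 < mv P m0 m1 v i ∧
      rh v t - 2 * r * c ≤ mv P m0 m1 v i * prx v w (a i) x := by
    intro v hv w hw
    have h3 := hρ v hv
    by_cases h : P v
    · have e1 : wt v * (Real.log (av v ((3 ^ t : ℕ) : K)) -
          Real.log (av v ((2 ^ sx t : ℕ) : K))) = rh v t := by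
        rw [mul_sub, ls_pow, ls_pow, h23 v hv h]
        unfold rh
        rw [h23 v hv h]
        ring
      have e2 : mv P m0 m1 v = m0 := by
        unfold mv
        rw [if_pos h]
      rw [e2, ← e1]
      exact near hw a m0 m1 h0 h1 hx hc (hlow v hv w hw) (hmin v hv w hw) hα hβ hroot (by rwa [e1])
    · have e1 : wt v * (Real.log (av v ((2 ^ sx t : ℕ) : K)) -
          Real.log (av v ((3 ^ t : ℕ) : K))) = rh v t := by
        rw [mul_sub, ls_pow, ls_pow, h32 v hv h]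
        unfold rh
        rw [h32 v hv h]
        ring
      have e2 : mv P m0 m1 v = m1 := by
        unfold mv
        rw [if_neg h]
      rw [e2, ← e1]
      exact near hw a m1 m0 h1 h0 hx hc (hlow v hv w hw) (hmin v hv w hw) hβ hα
        (by rw [add_comm]; exact hroot) (by rwa [e1])
  have hq : 0 < q := by
    rcases Nat.eq_zero_or_pos q with h | h
    · subst h
      rw [univ_eq_empty, sum_empty] at h0
      omega
    · exact h
  have h3 : ∀ w : Pl L, ∃ i : Fin q, ∀ v ∈ S, w ∈ ab L v → 0 < mv P m0 m1 v i ∧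
      rh v t - 2 * r * c ≤ mv P m0 m1 v i * prx v w (a i) x := by
    intro w
    by_cases h : ∃ v ∈ S, w ∈ ab L v
    · obtain ⟨v, hv, hw⟩ := h
      obtain ⟨i, hi⟩ := h2 v hv w hw
      refine ⟨i, fun v' hv' hw' => ?_⟩
      have := ov_unique (mem_ab.1 hw) (mem_ab.1 hw')
      subst this
      exact hi
    · exact ⟨⟨0, hq⟩, fun v hv hw => absurd ⟨v, hv, hw⟩ h⟩
  choose e he using h3
  exact ⟨e, fun v hv w hw => he w v hv hw⟩

/-- the inequality for one root -/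
lemma star (a : Fin q → K) (ha : Function.Injective a) (m0 m1 : Fin q → ℕ) {r : ℕ} (hr : 1 ≤ r)
    (h0 : ∑ i, m0 i = r) (h1 : ∑ i, m1 i = r) {S : Finset (Pl K)} {P : Pl K → Prop}
    (h23 : ∀ v ∈ S, P v → ls v 3 = 0) (h32 : ∀ v ∈ S, ¬P v → ls v 2 = 0) (ε : ℝ) (hε : 0 < ε) :
    ∃ (Φ : K[X]) (c C : ℝ), Φ ≠ 0 ∧ 0 ≤ c ∧ 0 ≤ C ∧ ∀ t : ℕ, (∀ v ∈ S, 2 * r * c < rh v t) →
      ∀ (L : Type) [Field L] [NumberField L] [Algebra K L], finrank K L ≤ r → ∀ x : L,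
        IntermediateField.adjoin K {x} = ⊤ → aeval x (Ff a m0 m1 t) = 0 → aeval x Φ ≠ 0 →
        (∀ i, x ≠ algebraMap K L (a i)) ∧
        ∃ e : Pl L → Fin q, (∀ v ∈ S, ∀ w ∈ ab L v, 0 < mv P m0 m1 v (e w) ∧
          rh v t - 2 * r * c ≤ mv P m0 m1 v (e w) * prx v w (a (e w)) x) ∧
          ∑ v ∈ S, rh v t * ∑ i, Nv e v i ^ 2 / mv P m0 m1 v i ≤
            (2 * finrank K L + ε) * logHeight ![1, x] + C := by
  classical
  obtain ⟨Φ, hΦ0, hΦa, hΦ⟩ := wirsing_clusters a ha r ε hε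
  obtain ⟨CW, hCW⟩ := hΦ S
  choose cl hcl0 hcl using fun t : Pl K × Fin q => prx_lb t.1 (a t.2)
  choose cm hcm0 hcm using fun t : Pl K × {p : Fin q × Fin q // p.1 ≠ p.2} =>
    prx_min t.1 (a t.2.1.1) (a t.2.1.2) (fun h => t.2.2 (ha h))
  set c : ℝ := ∑ v ∈ S, (∑ i, cl (v, i) + ∑ p, cm (v, p)) with hc
  have hcv : ∀ v ∈ S, ∑ i, cl (v, i) + ∑ p, cm (v, p) ≤ c := fun v hv =>
    single_le_sum (f := fun v => ∑ i, cl (v, i) + ∑ p, cm (v, p))
      (fun v _ => add_nonneg (sum_nonneg fun i _ => hcl0 _) (sum_nonneg fun p _ => hcm0 _)) hv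
  have hc0 : 0 ≤ c := sum_nonneg fun v _ =>
    add_nonneg (sum_nonneg fun i _ => hcl0 _) (sum_nonneg fun p _ => hcm0 _)
  have hcl' : ∀ v ∈ S, ∀ i, cl (v, i) ≤ c := by
    intro v hv i
    have g1 := single_le_sum (f := fun i => cl (v, i)) (fun i _ => hcl0 _) (mem_univ i)
    have g2 : 0 ≤ ∑ p, cm (v, p) := sum_nonneg fun p _ => hcm0 _
    have g3 := hcv v hv
    linarith
  have hcm' : ∀ v ∈ S, ∀ p, cm (v, p) ≤ c := by
    intro v hv p
    have g1 := single_le_sum (f := fun p => cm (v, p)) (fun p _ => hcm0 _) (mem_univ p)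
    have g2 : 0 ≤ ∑ i, cl (v, i) := sum_nonneg fun p _ => hcl0 _
    have g3 := hcv v hv
    linarith
  refine ⟨Φ, c, |CW| + S.card * (2 * r * c * r ^ 2 + q * (c * r ^ 2)), hΦ0, hc0, by positivity, ?_⟩
  intro t hρ L _ _ _ hL x hx hroot hxΦ
  have hxa : ∀ i, x ≠ algebraMap K L (a i) := by
    intro i h
    apply hxΦ
    rw [h, aeval_algebraMap_apply, coe_aeval_eq_eval, hΦa i, map_zero]
  refine ⟨hxa, ?_⟩
  have hlow : ∀ v ∈ S, ∀ w ∈ ab L v, ∀ i, -c ≤ prx v w (a i) x := by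
    intro v hv w hw i
    have g1 := hcl (v, i) L w hw x (hxa i)
    have g2 := hcl' v hv i
    simp only at g1
    linarith
  have hmin : ∀ v ∈ S, ∀ w ∈ ab L v, ∀ i j, i ≠ j →
      min (prx v w (a i) x) (prx v w (a j) x) ≤ c := by
    intro v hv w hw i j hij
    exact (hcm (v, ⟨(i, j), hij⟩) L w hw x (hxa i) (hxa j)).trans (hcm' v hv _)
  obtain ⟨e, he⟩ := near_all h23 h32 a m0 m1 hr h0 h1 hc0 hρ hlow hmin hxa hroot
  refine ⟨e, he, ?_⟩
  have hd2 : (finrank K L : ℝ) ^ 2 ≤ r ^ 2 := by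
    have : (finrank K L : ℝ) ≤ r := by exact_mod_cast hL
    exact pow_le_pow_left₀ (Nat.cast_nonneg _) this 2
  have h2 := hCW L hL x hx hxΦ
  have h3 : ∑ v ∈ S, (rh v t * ∑ i, Nv e v i ^ 2 / mv P m0 m1 v i -
      (2 * r * c * r ^ 2 + q * (c * r ^ 2))) ≤ ∑ v ∈ S, ∑ i, ∑ w ∈ ab L v, ∑ w' ∈ ab L v,
        nn v w * nn v w' * min (prx v w (a i) x) (prx v w' (a i) x) := by
    refine sum_le_sum fun v hv => ?_
    refine le_trans ?_ (pair_lower a (mv P m0 m1 v) hc0 (hlow v hv) e (he v hv))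
    have g1 := gap_le (mv P m0 m1 v) (fun i => Nv e v i) (finrank K L) (Nv_nonneg e v)
      (sum_Nv e v)
    have g2 : 0 ≤ 2 * r * c := by positivity
    have g3 := mul_le_mul_of_nonneg_left (g1.trans hd2) g2
    have g4 : q * (c * (finrank K L : ℝ) ^ 2) ≤ q * (c * (r : ℝ) ^ 2) := by gcongr
    linarith
  rw [sum_sub_distrib, sum_const, nsmul_eq_mul] at h3
  have h4 := le_abs_self CW
  linarith

end Pool.Agent.H430.Os
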