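import Pool.Agent.H430.Os.Zs
import Pool.Agent.H430.Os.Ht
import Pool.Agent.H430.Os.Simp

/-!
Products of forms in general position, and points near the vertices.
-/

set_option autoImplicit false

namespace Pool.Agent.H430.Os

open MvPolynomial Finset NumberField IsDedekindDomain Height Module
open Pool.Agent.W180.OP Pool.Agent.W180.TP Pool.Agent.TH875 Pool.Agent.NH28
open Pool.Agent.H430.Ft (exists_places fv_coprime fv_nat_le height_nat)

/-- the products of powers of the forms of a class -/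
noncomputable def PhiF {K : Type} [Field K] {n q s : ℕ} (f : Fin q → MvPolynomial (Fin n) K)
    (cl : Fin q → Fin s) (m : Fin q → ℕ) (k : Fin s) : MvPolynomial (Fin n) K :=
  ∏ c ∈ univ.filter (fun c => cl c = k), f c ^ m c

section

variable {K : Type} [Field K] {n q s : ℕ} (f : Fin q → MvPolynomial (Fin n) K)
  (cl : Fin q → Fin s) (m : Fin q → ℕ)

lemma PhiF_hom {D δ : ℕ} (hf : ∀ c, (f c).IsHomogeneous D)
    (hm : ∀ k, ∑ c ∈ univ.filter (fun c => cl c = k), m c = δ) (k : Fin s) :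
    (PhiF f cl m k).IsHomogeneous (δ * D) := by
  unfold PhiF
  have h1 := IsHomogeneous.prod (univ.filter (fun c => cl c = k)) (fun c => f c ^ m c)
    (fun c => D * m c) (fun c _ => (hf c).pow (m c))
  rw [← mul_sum, hm k, mul_comm] at h1
  exact h1

lemma PhiF_aeval {L : Type} [Field L] [Algebra K L] (x : Fin n → L) (k : Fin s) :
    aeval x (PhiF f cl m k) = ∏ c ∈ univ.filter (fun c => cl c = k), aeval x (f c) ^ m c := by
  unfold PhiF
  rw [map_prod]
  exact prod_congr rfl fun c _ => map_pow _ _ _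

lemma PhiF_zero {L : Type} [Field L] [Algebra K L] (x : Fin n → L) {k : Fin s}
    (h : aeval x (PhiF f cl m k) = 0) : ∃ c, cl c = k ∧ aeval x (f c) = 0 := by
  rw [PhiF_aeval, prod_eq_zero_iff] at h
  obtain ⟨c, hc, h⟩ := h
  exact ⟨c, (mem_filter.1 hc).2, eq_zero_of_pow_eq_zero h⟩

lemma PhiF_ne {L : Type} [Field L] [Algebra K L] (x : Fin n → L) (hx : ∀ c, aeval x (f c) ≠ 0)
    (k : Fin s) : aeval x (PhiF f cl m k) ≠ 0 := by
  rw [PhiF_aeval]
  exact prod_ne_zero_iff.2 fun c _ => pow_ne_zero _ (hx c)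

/-- the local height of a product -/
lemma lam_PhiF {L : Type} [Field L] [Algebra K L] (φ : AbsoluteValue L ℝ) {D δ : ℕ}
    (hm : ∀ k, ∑ c ∈ univ.filter (fun c => cl c = k), m c = δ) {x : Fin n → L} (hx0 : x ≠ 0)
    (hx : ∀ c, aeval x (f c) ≠ 0) (k : Fin s) :
    lam φ (δ * D) (bc L (PhiF f cl m k)) x =
      ∑ c ∈ univ.filter (fun c => cl c = k), (m c : ℝ) * lam φ D (bc L (f c)) x := by
  rw [lam_eq φ (δ * D) _ hx0 (by rw [eval_bc]; exact PhiF_ne f cl m x hx k), eval_bc, PhiF_aeval,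
    map_prod, Real.log_prod fun c _ => (φ.ne_zero_iff.2 (pow_ne_zero _ (hx c)))]
  have h1 : ∀ c, (m c : ℝ) * lam φ D (bc L (f c)) x =
      m c * (D * Real.log (nrm φ x)) - Real.log (φ (aeval x (f c) ^ m c)) := by
    intro c
    rw [lam_eq φ D _ hx0 (by rw [eval_bc]; exact hx c), eval_bc, map_pow, Real.log_pow]
    ring
  rw [sum_congr rfl fun c _ => h1 c, sum_sub_distrib, ← sum_mul]
  congr 1
  rw [← hm k]
  push_cast
  ring

end

/-- the places above the first primes -/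
lemma places_pr (K : Type) [Field K] [NumberField K] (s : ℕ) (hs : 0 < s) :
    ∃ (S : Finset (Pl K)) (J : Pl K → Fin s) (κ : ℝ), 0 < κ ∧ (∀ j, ∃ v ∈ S, J v = j) ∧
      (∀ v ∈ S, ls v (pr (J v)) ≤ -κ ∧ ∀ i : Fin s, i ≠ J v → ls v (pr i) = 0) ∧
      ∀ j : Fin s, ∑ v ∈ S.filter (fun v => J v = j), ls v (pr j) =
        -(finrank ℚ K * Real.log (pr j)) := by
  classical
  choose T hT1 hT2 using fun k : Fin s => exists_places K (pr k) (pr_prime k).ne_zero
  have hTd : ∀ k k', k ≠ k' → Disjoint (T k) (T k') := by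
    intro k k' h
    rw [disjoint_left]
    intro v hv hv'
    exact hT1 k' v hv' (fv_coprime v _ _ (pr_coprime fun h' => h (Fin.ext h')) (hT1 k v hv))
  set Si : Fin s → Finset (Pl K) := fun k => (T k).map ⟨Sum.inr, Sum.inr_injective⟩ with hSi
  have hSid : ∀ k k', k ≠ k' → Disjoint (Si k) (Si k') := fun k k' h =>
    (disjoint_map _).2 (hTd k k' h)
  set S : Finset (Pl K) := univ.biUnion Si with hS
  have e2 : ∀ (p : ℕ) (v : HeightOneSpectrum (𝓞 K)), ls (Sum.inr v : Pl K) p =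
      Real.log (fv v (p : K)) := by
    intro p v
    show (1 : ℝ) * Real.log (fv v (p : K)) = _
    rw [one_mul]
  have hJ : ∀ v : Pl K, ∃ j : Fin s, ∀ k, v ∈ Si k → j = k := by
    intro v
    by_cases h : ∃ k, v ∈ Si k
    · obtain ⟨k, hk⟩ := h
      refine ⟨k, fun k' hk' => ?_⟩
      by_contra hne
      exact disjoint_left.1 (hSid k k' hne) hk hk'
    · exact ⟨⟨0, hs⟩, fun k hk => absurd ⟨k, hk⟩ h⟩
  choose J hJ using hJ
  have hJS : ∀ v ∈ S, v ∈ Si (J v) := by
    intro v hv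
    obtain ⟨k, _, hk⟩ := mem_biUnion.1 hv
    rw [hJ v k hk]
    exact hk
  have hfil : ∀ j, S.filter (fun v => J v = j) = Si j := by
    intro j
    ext v
    rw [mem_filter]
    constructor
    · rintro ⟨h1, h2⟩
      rw [← h2]
      exact hJS v h1
    · intro h
      exact ⟨mem_biUnion.2 ⟨j, mem_univ _, h⟩, hJ v j h⟩
  have hsum : ∀ j, ∑ v ∈ Si j, ls v (pr j) = -(finrank ℚ K * Real.log (pr j)) := by
    intro j
    simp only [hSi]
    rw [sum_map]
    simp only [Function.Embedding.coeFn_mk]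
    rw [sum_congr rfl fun v _ => e2 (pr j) v]
    exact hT2 j
  have hdK : (0 : ℝ) < finrank ℚ K := by exact_mod_cast (finrank_pos : 0 < finrank ℚ K)
  have hne : ∀ j, (Si j).Nonempty := by
    intro j
    rw [nonempty_iff_ne_empty]
    intro h
    have h1 := hsum j
    rw [h, sum_empty] at h1
    have h2 : 0 < Real.log (pr j) := Real.log_pos (by exact_mod_cast (pr_prime j).one_lt)
    have := mul_pos hdK h2
    linarith
  have hneg : ∀ v ∈ S, ls v (pr (J v)) < 0 := by
    intro v hv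
    obtain ⟨v0, hv0, h1⟩ := mem_map.1 (hJS v hv)
    simp only [Function.Embedding.coeFn_mk] at h1
    have h2 : ((pr (J v) : ℕ) : K) ≠ 0 := by exact_mod_cast (pr_prime (J v)).ne_zero
    have h3 := Real.log_neg ((fv v0).pos_iff.2 h2)
      (lt_of_le_of_ne (fv_nat_le v0 (pr (J v))) (hT1 (J v) v0 hv0))
    have h4 := e2 (pr (J v)) v0
    rw [h1] at h4
    rw [h4]
    exact h3
  have hSne : S.Nonempty := by
    obtain ⟨v, hv⟩ := hne ⟨0, hs⟩
    exact ⟨v, mem_biUnion.2 ⟨_, mem_univ _, hv⟩⟩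
  obtain ⟨v1, hv1, hmin⟩ := exists_min_image S (fun v => -ls v (pr (J v))) hSne
  refine ⟨S, J, -ls v1 (pr (J v1)), by linarith [hneg v1 hv1], ?_, ?_, ?_⟩
  · intro j
    obtain ⟨v, hv⟩ := hne j
    exact ⟨v, mem_biUnion.2 ⟨_, mem_univ _, hv⟩, hJ v j hv⟩
  · intro v hv
    refine ⟨?_, ?_⟩
    · have h1 : -ls v1 (pr (J v1)) ≤ -ls v (pr (J v)) := hmin v hv
      linarith
    · intro i hi
      obtain ⟨v0, hv0, h1⟩ := mem_map.1 (hJS v hv)
      simp only [Function.Embedding.coeFn_mk] at h1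
      have h4 := e2 (pr i) v0
      rw [h1] at h4
      rw [h4, fv_coprime v0 _ _ (pr_coprime fun h' => hi (Fin.ext h'.symm)) (hT1 (J v) v0 hv0),
        Real.log_one]
  · intro j
    rw [hfil]
    exact hsum j

end Pool.Agent.H430.Os
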