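import Pool.Agent.H430.Os.Fib2

/-!
Points with coordinates composed of given primes off a hypersurface.
-/

set_option autoImplicit false

namespace Pool.Agent.H430.Os

open MvPolynomial Finset

/-- distinct primes -/
noncomputable def pr (j : ℕ) : ℕ := Nat.nth Nat.Prime j

lemma pr_prime (j : ℕ) : (pr j).Prime := Nat.prime_nth_prime _

lemma pr_inj : Function.Injective pr := fun _ _ h =>
  Nat.nth_injective Nat.infinite_setOfPred_prime h

lemma pr_coprime {i j : ℕ} (h : i ≠ j) : Nat.Coprime (pr i) (pr j) :=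
  (Nat.coprime_primes (pr_prime i) (pr_prime j)).2 fun h' => h (pr_inj h')

variable {K : Type} [Field K] [CharZero K]

/-- the substitution is injective -/
lemma subst_ne {ν : ℕ} (hν : 1 ≤ ν) {R : MvPolynomial (Fin (ν + 1)) K} (hR : R ≠ 0) :
    aeval (fun k : Fin (ν + 1) => ∏ j ∈ univ.erase k, (X j : MvPolynomial (Fin (ν + 1)) K)) R ≠
      0 := by
  classical
  intro h
  set Ω := AlgebraicClosure K
  have hinf : Infinite Ω := IsAlgClosed.instInfinite (K := Ω)
  -- a point where the polynomial does not vanish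
  have h1 : ∃ z : Fin (ν + 1) → Ω, (∀ k, z k ≠ 0) ∧ aeval z R ≠ 0 := by
    have h2 : map (algebraMap K Ω) R * ∏ k, X k ≠ 0 := by
      refine mul_ne_zero ?_ (prod_ne_zero_iff.2 fun k _ => X_ne_zero k)
      intro h3
      exact hR ((map_eq_zero_iff _ (map_injective _ (algebraMap K Ω).injective)).1 h3)
    by_contra hcon
    push Not at hcon
    apply h2
    refine MvPolynomial.funext fun z => ?_
    rw [map_zero, map_mul, map_prod, eval_map]
    by_cases hz : ∀ k, z k ≠ 0
    · have h3 := hcon z hz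
      rw [aeval_def] at h3
      rw [h3, zero_mul]
    · push Not at hz
      obtain ⟨k, hk⟩ := hz
      rw [prod_eq_zero (mem_univ k) (by rw [eval_X, hk]), mul_zero]
  obtain ⟨z, hz, hRz⟩ := h1
  have hpz : ∏ k, z k ≠ 0 := prod_ne_zero_iff.2 fun k _ => hz k
  obtain ⟨Q, hQ⟩ := IsAlgClosed.exists_pow_nat_eq (∏ k, z k) (by omega : 0 < ν)
  have hQ0 : Q ≠ 0 := by
    rintro rfl
    rw [zero_pow (by omega)] at hQ
    exact hpz hQ.symm
  set P : Fin (ν + 1) → Ω := fun k => Q / z k with hP
  have hprod : ∏ k, P k = Q := by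
    simp only [hP]
    rw [prod_div_distrib, prod_const, card_univ, Fintype.card_fin, pow_succ, hQ]
    exact mul_div_cancel_left₀ _ hpz
  have hPz : ∀ k, ∏ j ∈ univ.erase k, P j = z k := by
    intro k
    have h2 := mul_prod_erase univ P (mem_univ k)
    rw [hprod] at h2
    have h3 : P k ≠ 0 := div_ne_zero hQ0 (hz k)
    apply mul_left_cancel₀ h3
    rw [h2]
    exact (div_mul_cancel₀ Q (hz k)).symm
  apply hRz
  have h2 := congrArg (aeval P) h
  rw [map_zero, comp_aeval_apply] at h2
  have h3 : (fun k : Fin (ν + 1) => aeval P (∏ j ∈ univ.erase k,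
      (X j : MvPolynomial (Fin (ν + 1)) K))) = z := by
    funext k
    rw [map_prod, ← hPz k]
    exact prod_congr rfl fun j _ => aeval_X _ _
  rwa [h3] at h2

/-- points composed of given primes off a hypersurface -/
theorem exists_z {ν : ℕ} (hν : 1 ≤ ν) {R : MvPolynomial (Fin (ν + 1)) K} (hR : R ≠ 0) :
    ∃ N t0 : ℕ, ∀ t : ℕ, t0 ≤ t → ∃ a : Fin (ν + 1) → ℕ,
      (∀ j : Fin (ν + 1), pr j ^ a j ≤ 2 ^ t) ∧
      (∀ j : Fin (ν + 1), t * Real.log 2 - (N + 1) * Real.log (pr j) ≤ a j * Real.log (pr j)) ∧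
        eval (fun k : Fin (ν + 1) => ((∏ j ∈ univ.erase k, pr j ^ a j : ℕ) : K)) R ≠ 0 := by
  classical
  set R' := aeval (fun k : Fin (ν + 1) => ∏ j ∈ univ.erase k,
    (X j : MvPolynomial (Fin (ν + 1)) K)) R with hR'
  have hR'0 : R' ≠ 0 := subst_ne hν hR
  set N : ℕ := ∑ j, R'.degreeOf j with hN
  refine ⟨N, ∑ j : Fin (ν + 1), pr j ^ N, fun t ht => ?_⟩
  have hone : ∀ j, 1 < pr j := fun j => (pr_prime j).one_lt
  set A : Fin (ν + 1) → ℕ := fun j => Nat.log (pr j) (2 ^ t) with hA
  have hAN : ∀ j, N ≤ A j := by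
    intro j
    refine Nat.le_log_of_pow_le (hone j) ?_
    have h1 : pr j ^ N ≤ t :=
      (single_le_sum (f := fun j : Fin (ν + 1) => pr j ^ N) (fun _ _ => Nat.zero_le _)
        (mem_univ j)).trans ht
    exact h1.trans Nat.lt_two_pow_self.le
  have hinj : ∀ j : Fin (ν + 1), Function.Injective fun a : ℕ => ((pr j : ℕ) : K) ^ a := by
    intro j a b hab
    have h1 : ((pr j ^ a : ℕ) : K) = ((pr j ^ b : ℕ) : K) := by
      push_cast
      exact hab
    exact Nat.pow_right_injective (hone j) (by exact_mod_cast h1)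
  set T : Fin (ν + 1) → Finset K := fun j =>
    (Finset.Icc (A j - N) (A j)).image fun a => ((pr j : ℕ) : K) ^ a with hT
  have hTc : ∀ j, R'.degreeOf j < (T j).card := by
    intro j
    rw [hT, card_image_of_injective _ (hinj j), Nat.card_Icc]
    have h1 := single_le_sum (f := fun j => R'.degreeOf j) (fun _ _ => Nat.zero_le _) (mem_univ j)
    have h2 := hAN j
    omega
  have h1 : ∃ P : Fin (ν + 1) → K, (∀ j, P j ∈ T j) ∧ eval P R' ≠ 0 := by
    by_contra hcon
    push Not at hcon
    exact hR'0 (MvPolynomial.eq_zero_of_eval_zero_at_prod_finset R' T hTc hcon)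
  obtain ⟨P, hPT, hPR⟩ := h1
  choose a ha haP using fun j => mem_image.1 (hPT j)
  refine ⟨a, fun j => ?_, fun j => ?_, ?_⟩
  · have h2 := (mem_Icc.1 (ha j)).2
    exact (Nat.pow_le_pow_right (by have := hone j; omega) h2).trans
      (Nat.pow_log_le_self _ (by positivity))
  · have h2 := (mem_Icc.1 (ha j)).1
    have h3 : 2 ^ t < pr j ^ (A j + 1) := Nat.lt_pow_succ_log_self (hone j) _
    have h4 : ((2 : ℝ)) ^ t ≤ (pr j : ℝ) ^ (A j + 1) := by exact_mod_cast h3.le
    have h5 := Real.log_le_log (by positivity) h4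
    rw [Real.log_pow, Real.log_pow] at h5
    have h6 : (A j : ℝ) ≤ a j + N := by
      have : A j ≤ a j + N := by omega
      exact_mod_cast this
    have h7 : 0 ≤ Real.log (pr j) := Real.log_natCast_nonneg _
    have h8 := mul_le_mul_of_nonneg_right h6 h7
    push_cast at h5
    linarith
  · intro h2
    apply hPR
    rw [← h2, hR', ← coe_aeval_eq_eval, RingHom.coe_coe, comp_aeval_apply, ← coe_aeval_eq_eval,
      RingHom.coe_coe]
    congr 2
    funext k
    rw [map_prod]
    push_cast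
    refine prod_congr rfl fun j _ => ?_
    rw [aeval_X, ← haP j]

end Pool.Agent.H430.Os
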